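import Pool.Agent.MP_02cac4_co.Sp.St

set_option autoImplicit false

section
namespace Pool.Agent.MP_02cac4_co.Sp

open Finset MeasureTheory
open scoped RealInnerProductSpace

theorem mat_Det {d : ℕ} (M : Matrix (Fin d) (Fin d) ℝ) (n : ℝ) (n0 : 0 ≤ n) (n1 : n ≤ 1)
    (h : ∀ i j, |M i j| ≤ n) : |(1 + M).det - 1 - M.trace| ≤ 2 ^ d * d.factorial * n ^ 2 := by
  have e : (1 + M).det = ∑ s : Finset (Fin d),
      (M.submatrix (Subtype.val : s → Fin d) (Subtype.val : s → Fin d)).det := by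
    rw [add_comm]
    refine (Matrix.detRowAlternating.map_add_univ M (1 : Matrix (Fin d) (Fin d) ℝ)).trans ?_
    exact sum_congr rfl fun s _ => Matrix.det_piecewise_one_eq_submatrix_det M s
  have e1 : ∑ s ∈ (univ : Finset (Finset (Fin d))).filter (fun s => ¬ 2 ≤ s.card),
      (M.submatrix (Subtype.val : s → Fin d) (Subtype.val : s → Fin d)).det = 1 + M.trace := by
    have : (univ : Finset (Finset (Fin d))).filter (fun s => ¬ 2 ≤ s.card) =
        insert ∅ (univ.image singleton) := by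
      ext s
      simp only [mem_filter, mem_univ, true_and, mem_insert, mem_image, ← card_eq_zero,
        eq_comm (b := s), ← card_eq_one]
      omega
    rw [this, sum_insert (by simp), sum_image fun a _ b _ h => singleton_injective h,
      Matrix.det_isEmpty, Matrix.trace]
    congr 1
    exact sum_congr rfl fun i _ => Matrix.det_eq_elem_of_card_eq_one (by simp)
      (⟨i, mem_singleton_self i⟩ : ({i} : Finset (Fin d)))
  rw [e, ← sum_filter_add_sum_filter_not univ (fun s => 2 ≤ s.card), e1, sub_sub,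
    add_sub_cancel_right]
  refine (abs_sum_le_sum_abs _ _).trans ((sum_le_card_nsmul _ _ (d.factorial * n ^ 2)
    fun s hs => ?_).trans ?_)
  · have := Matrix.det_le (abv := AbsoluteValue.abs)
      (A := M.submatrix (Subtype.val : s → Fin d) (Subtype.val : s → Fin d)) fun i j => h i j
    rw [Fintype.card_coe, nsmul_eq_mul] at this
    refine this.trans (mul_le_mul ?_ (pow_le_pow_of_le_one n0 n1 (mem_filter.1 hs).2)
      (by positivity) (by positivity))
    exact_mod_cast Nat.factorial_le (by simpa using card_le_univ s)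
  · rw [nsmul_eq_mul, mul_assoc]
    refine mul_le_mul_of_nonneg_right ?_ (by positivity)
    have := card_filter_le (univ : Finset (Finset (Fin d))) (fun s => 2 ≤ s.card)
    rw [card_univ, Fintype.card_finset, Fintype.card_fin] at this
    exact_mod_cast this

theorem sDet (d : ℕ) : SDet d := by
  refine ⟨2 ^ d * d.factorial, by positivity, fun X hX => ?_⟩
  let b := (EuclideanSpace.basisFun (Fin d) ℝ).toBasis
  have := mat_Det (LinearMap.toMatrix b b (X : Ed d →ₗ[ℝ] Ed d)) ‖X‖ (norm_nonneg _) hX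
    fun i j => by
      rw [LinearMap.toMatrix_apply]
      refine le_trans (PiLp.norm_apply_le (X (b j)) i) ((X.le_opNorm _).trans_eq ?_)
      rw [show ‖b j‖ = 1 from (EuclideanSpace.basisFun (Fin d) ℝ).orthonormal.1 j, mul_one]
  rw [← LinearMap.trace_eq_matrix_trace ℝ b, ← LinearMap.toMatrix_one b, ← map_add,
    LinearMap.det_toMatrix] at this
  exact this

end Pool.Agent.MP_02cac4_co.Sp

end

section
namespace Pool.Agent.MP_02cac4_co.Sp

open Finset MeasureTheory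
open scoped RealInnerProductSpace

theorem cover_Vol {d : ℕ} (s : ℝ) (hs : 0 < s) (x : Ed d) : ∃ z, g0 (x - lz z) < 1 + s := by
  by_contra h
  push Not at h
  have step : ∀ n : ℕ, ∃ z, bs (x - lz z) (x - lz z) ≤ bs x x - 2 * s * n := by
    intro n
    induction n with
    | zero => exact ⟨0, by simp [lz_zero]⟩
    | succ n ih =>
      obtain ⟨z, hz⟩ := ih
      obtain ⟨i, j, hij⟩ := ex_g0 (x - lz z)
      refine ⟨z + (ez i - ez j), ?_⟩
      have e : x - lz (z + (ez i - ez j)) = (x - lz z) - lz (ez i - ez j) := by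
        rw [lz_add, sub_sub]
      have h1 := bs_ez i j (x - lz z)
      have h2 := bs_ez i j (lz (ez i - ez j))
      have h3 : ∀ y r : Ed d, bs (y - r) (y - r) = bs y y - 2 * bs r y + bs r r := by
        intro y r
        simp only [bs, ext_sub, mul_sum, ← sum_sub_distrib, ← sum_add_distrib]
        exact sum_congr rfl fun p _ => by ring
      have h4 : bs (lz (ez i - ez j)) (lz (ez i - ez j)) ≤ 2 := by
        rw [h2, ext_ez, ext_ez]
        unfold sg
        split_ifs <;> norm_num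
      have h5 := h z
      rw [e, h3, h1]
      push_cast
      linarith
  obtain ⟨n, hn⟩ := exists_nat_gt (bs x x / (2 * s))
  obtain ⟨z, hz⟩ := step n
  rw [div_lt_iff₀ (by positivity)] at hn
  have := norm_sq_le_bs (x - lz z)
  nlinarith [sq_nonneg ‖x - lz z‖]

theorem vol_Vol {d : ℕ} (t : Set (Ed d)) (ht : ∀ x, ∃ z, x - lz z ∈ t) : 1 ≤ volume t := by
  let b := (EuclideanSpace.basisFun (Fin d) ℝ).toBasis
  have hF := ZSpan.isAddFundamentalDomain' b (volume : Measure (Ed d))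
  have h1 : volume (ZSpan.fundamentalDomain b) = 1 := by
    rw [measure_congr (ZSpan.fundamentalDomain_ae_parallelepiped b volume)]
    exact (EuclideanSpace.basisFun (Fin d) ℝ).volume_parallelepiped
  have : Countable (Submodule.span ℤ (Set.range b)).toAddSubgroup :=
    inferInstanceAs (Countable (Submodule.span ℤ (Set.range b)))
  rw [hF.measure_eq_tsum t, ← h1]
  refine le_trans (measure_mono fun x hx => ?_) (measure_iUnion_le _)
  obtain ⟨z, hz⟩ := ht x
  have hm : lz z ∈ Submodule.span ℤ (Set.range b) := by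
    refine Submodule.sum_mem _ fun i _ => ?_
    rw [Int.cast_smul_eq_zsmul]
    refine Submodule.smul_mem _ _ (Submodule.subset_span ⟨i, ?_⟩)
    simp [b, ee]
  refine Set.mem_iUnion.2 ⟨⟨lz z, hm⟩, ⟨x - lz z, hz, ?_⟩, hx⟩
  change lz z + (x - lz z) = x
  abel

theorem sVol (d : Nat) : SVol d := by
  have h : ∀ s : ℝ, 0 < s →
      1 ≤ ENNReal.ofReal ((1 + s) ^ d) * volume {x : Ed d | g0 x < 1} := by
    intro s hs
    have h0 : (0 : ℝ) < 1 + s := by linarith
    have h1 := Measure.addHaar_smul_of_nonneg (volume : Measure (Ed d)) h0.le {x : Ed d | g0 x < 1}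
    rw [finrank_euclideanSpace_fin] at h1
    rw [← h1]
    refine vol_Vol _ fun x => ?_
    obtain ⟨z, hz⟩ := cover_Vol s hs x
    refine ⟨z, (1 + s)⁻¹ • (x - lz z), ?_, smul_inv_smul₀ h0.ne' _⟩
    change g0 _ < 1
    rw [nm_g0.smul, abs_of_pos (inv_pos.2 h0), inv_mul_lt_iff₀ h0, mul_one]
    exact hz
  unfold SVol
  rcases eq_or_ne (volume {x : Ed d | g0 x < 1}) ⊤ with h1 | h1
  · rw [h1]; exact le_top
  have h2 : Filter.Tendsto (fun s : ℝ => ENNReal.ofReal ((1 + s) ^ d) * volume {x : Ed d | g0 x < 1})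
      (nhdsWithin 0 (Set.Ioi 0)) (nhds (ENNReal.ofReal ((1 + 0) ^ d) * volume {x : Ed d | g0 x < 1})) := by
    refine ENNReal.Tendsto.mul_const (ENNReal.tendsto_ofReal ?_) (Or.inr h1)
    exact (((continuous_const.add continuous_id).pow d).tendsto 0).mono_left nhdsWithin_le_nhds
  have h3 := ge_of_tendsto h2 (eventually_nhdsWithin_of_forall fun s hs => h s hs)
  simpa using h3

end Pool.Agent.MP_02cac4_co.Sp

end

section
namespace Pool.Agent.MP_02cac4_co.Sp

open Finset MeasureTheory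
open scoped RealInnerProductSpace Pointwise

theorem blich_Cov {d : ℕ} (T : Op d) (hT : T.det ≠ 0) (S : Set (Ed d)) (hS : IsOpen S)
    (h : ENNReal.ofReal |T.det| < volume S) :
    ∃ x ∈ S, ∃ y ∈ S, ∃ z : Fin d → ℤ, z ≠ 0 ∧ x - y = T (lz z) := by
  let e : Ed d ≃ₗ[ℝ] Ed d := LinearMap.equivOfDetNeZero (T : Ed d →ₗ[ℝ] Ed d) hT
  let b := (EuclideanSpace.basisFun (Fin d) ℝ).toBasis.map e
  have hb : ∀ i, b i = T (ee i) := fun i => by simp [b, e, ee]
  have hv : volume (ZSpan.fundamentalDomain b) = ENNReal.ofReal |T.det| := by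
    have h1 : parallelepiped b =
        (T : Ed d →ₗ[ℝ] Ed d) '' parallelepiped (EuclideanSpace.basisFun (Fin d) ℝ) := by
      rw [image_parallelepiped]
      congr 1
    rw [measure_congr (ZSpan.fundamentalDomain_ae_parallelepiped b volume), h1,
      Measure.addHaar_image_linearMap, OrthonormalBasis.volume_parallelepiped, mul_one]
  have : Countable (Submodule.span ℤ (Set.range b)).toAddSubgroup :=
    inferInstanceAs (Countable (Submodule.span ℤ (Set.range b)))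
  obtain ⟨x, y, hxy, h'⟩ := exists_pair_mem_lattice_not_disjoint_vadd
    (ZSpan.isAddFundamentalDomain' b volume) hS.measurableSet.nullMeasurableSet (hv ▸ h)
  obtain ⟨_, ⟨v, hv, rfl⟩, w, hw, hvw⟩ := Set.not_disjoint_iff.mp h'
  obtain ⟨z, hz⟩ := (Submodule.mem_span_range_iff_exists_fun ℤ).1 (x - y).2
  have e1 : w - v = (x : Ed d) - y := by
    have : (y : Ed d) + w = x + v := hvw
    rw [sub_eq_sub_iff_add_eq_add, add_comm, this]
  have e2 : T (lz z) = (x : Ed d) - y := by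
    rw [lz, map_sum]
    refine Eq.trans (sum_congr rfl fun i _ => ?_) hz
    rw [map_smul, hb, Int.cast_smul_eq_zsmul]
  refine ⟨w, hw, v, hv, z, fun h0 => hxy (Subtype.ext (sub_eq_zero.1 ?_)), e1.trans e2.symm⟩
  rw [← e2, h0, lz_zero, map_zero]

theorem vol_Cov {d : ℕ} (h : SVol d) (p : Ed d) {t : ℝ} (ht : 0 < t) :
    ENNReal.ofReal (t ^ d) ≤ volume {x : Ed d | g0 (x - p) < t} := by
  have e : {x : Ed d | g0 (x - p) < t} = (fun x => x + -p) ⁻¹' (t • {x : Ed d | g0 x < 1}) := by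
    ext x
    rw [Set.mem_preimage, Set.mem_smul_set_iff_inv_smul_mem₀ ht.ne', Set.mem_ofPred_eq,
      Set.mem_ofPred_eq, nm_g0.smul, abs_of_pos (inv_pos.2 ht), inv_mul_lt_iff₀ ht, mul_one,
      sub_eq_add_neg]
  rw [e, measure_preimage_add_right, Measure.addHaar_smul, finrank_euclideanSpace_fin,
    abs_of_pos (pow_pos ht d)]
  exact le_mul_of_one_le_right' h

theorem sub_Cov {d : ℕ} (x y : Ed d) : g0 (x - y) ≤ g0 x + g0 y := by
  rw [sub_eq_add_neg, ← g0_neg y]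
  exact nm_g0.add _ _

theorem sCov (d : ℕ) (h : SVol d) : SCov d := by
  intro T η r hT _ hr hr' hz
  have ht : 0 < 1 - η := hr.trans_le hr'
  have ho : ∀ (p : Ed d) (t : ℝ), IsOpen {x : Ed d | g0 (x - p) < t} := fun p t =>
    isOpen_lt (nm_g0.cont.comp (by fun_prop)) continuous_const
  have key : ∀ (p x y : Ed d) (z : Fin d → ℤ), z ≠ 0 → x - y = T (lz z) → g0 (x - p) < 1 - η →
      g0 (y - p) < 1 - η → False := fun p x y z h0 e hx hy => by
    have h1 := sub_Cov (x - p) (y - p)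
    rw [sub_sub_sub_cancel_right, e] at h1
    linarith [hz z h0]
  refine ⟨le_of_not_gt fun hc => ?_, fun hc p => ?_⟩
  · obtain ⟨x, hx, y, hy, z, h0, e⟩ := blich_Cov T hT _ (ho 0 (1 - η))
      (((ENNReal.ofReal_lt_ofReal_iff (pow_pos ht d)).2 hc).trans_le (vol_Cov h 0 ht))
    exact key 0 x y z h0 e hx hy
  by_contra hn
  push Not at hn
  have mix : ∀ (x y : Ed d) (z : Fin d → ℤ), y - x = T (lz z) → g0 (x - 0) < 1 - η →
      g0 (y - p) < r → False := fun x y z e hx hy => by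
    have h1 := sub_Cov (x - 0) (y - p)
    rw [show x - 0 - (y - p) = p - (y - x) by abel, e] at h1
    linarith [hn z]
  obtain ⟨x, hx, y, hy, z, h0, e⟩ := blich_Cov T hT _ ((ho 0 (1 - η)).union (ho p r)) (by
    have hd : Disjoint {x : Ed d | g0 (x - 0) < 1 - η} {x : Ed d | g0 (x - p) < r} :=
      Set.disjoint_left.2 fun x hx hx' =>
        mix x x 0 (by rw [lz_zero, map_zero, sub_self]) hx hx'
    rw [measure_union hd (ho p r).measurableSet]
    refine lt_of_lt_of_le ?_ (add_le_add (vol_Cov h 0 ht) (vol_Cov h p hr))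
    rw [← ENNReal.ofReal_add (pow_pos ht d).le (pow_pos hr d).le]
    exact (ENNReal.ofReal_lt_ofReal_iff (by positivity)).2 hc)
  rcases hx with hx | hx <;> rcases hy with hy | hy
  · exact key 0 x y z h0 e hx hy
  · exact mix x y (-z) (by rw [lz_neg, map_neg, ← e, neg_sub]) hx hy
  · exact mix y x z e hy hx
  · exact key p x y z h0 e (lt_of_lt_of_le hx hr') (lt_of_lt_of_le hy hr')

end Pool.Agent.MP_02cac4_co.Sp

end

section
namespace Pool.Agent.MP_02cac4_co.Sp

open Finset MeasureTheory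
open scoped RealInnerProductSpace

variable {d : ℕ}

theorem lemA_Ridge {L : AddSubgroup (Ed d)} {η r : ℝ} (hr : 0 < r)
    (hL : ∀ l ∈ L, l ≠ 0 → 2 * (1 - η) ≤ g0 l) (hc : ∀ p, ∃ l ∈ L, g0 (p - l) ≤ 1 + r)
    (P : Fin (d + 1) → ℝ) (a0 b0 : Fin (d + 1)) (hab : P a0 - P b0 = 1 + 2 * r)
    (hP : ∀ a b, 1 - 2 * η - r ≤ P a - P b → a = a0 ∧ b = b0) :
    ∃ l ∈ L, 2 - 2 * η ≤ ext l a0 - ext l b0 ∧
      ∀ a b, (ext l a - P a) - (ext l b - P b) ≤ 1 + r := by
  obtain ⟨p, c, hp⟩ := ex_ext P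
  obtain ⟨l, hl, h⟩ := hc p
  have h1 : ∀ a b, (ext l a - P a) - (ext l b - P b) ≤ 1 + r := fun a b => by
    have := le_g0 (p - l) b a
    rw [ext_sub, ext_sub, hp, hp] at this
    linarith
  have h0 : l ≠ 0 := by
    rintro rfl
    have := le_g0 (p - 0) a0 b0
    rw [sub_zero, hp, hp] at this
    rw [sub_zero] at h
    linarith
  obtain ⟨a, b, e⟩ := ex_g0 l
  have h2 := hL l hl h0
  obtain ⟨rfl, rfl⟩ := hP a b (by linarith [h1 a b])
  exact ⟨l, hl, by linarith, h1⟩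

theorem lemB_Ridge {L : AddSubgroup (Ed d)} {η r : ℝ} (hη : 0 ≤ η) (hr : 0 < r)
    (hs : 40 * (r + η) ≤ 1)
    (hL : ∀ l ∈ L, l ≠ 0 → 2 * (1 - η) ≤ g0 l) (hc : ∀ p, ∃ l ∈ L, g0 (p - l) ≤ 1 + r)
    {l : Ed d} (hl : l ∈ L) {i j : Fin (d + 1)} (hij : i ≠ j) (mid : ℝ)
    (hmid : 2 * mid = ext l i + ext l j) (h1 : 2 - 2 * η ≤ ext l i - ext l j)
    (h2 : ext l i - ext l j ≤ 2 + 3 * r)
    (h3 : ∀ m, m ≠ i → m ≠ j → |ext l m - mid| ≤ 1 / 2 + 2 * r + η)
    (k : Fin (d + 1)) (hki : k ≠ i) (hkj : k ≠ j) : ext l k - mid ≤ 9 * (r + η) := by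
  by_contra hk
  push Not at hk
  set w := 1 / 2 - 3 * (r + η) with hw
  have hw0 : 0 ≤ w := by linarith
  let P : Fin (d + 1) → ℝ := fun m => if m = k then 1 / 2 + r else if m = j then -(1 / 2) - r
    else if m = i then w else max (-w) (min (ext l m - mid) w)
  have Pk : P k = 1 / 2 + r := if_pos rfl
  have Pj : P j = -(1 / 2) - r := by simp only [P, if_neg hkj.symm, if_true]
  have Pi : P i = w := by simp only [P, if_neg hki.symm, if_neg hij, if_true]
  have Pm : ∀ m, m ≠ k → m ≠ j → m ≠ i → P m = max (-w) (min (ext l m - mid) w) :=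
    fun m a b c => by simp only [P, if_neg a, if_neg b, if_neg c]
  have Pb : ∀ m, m ≠ k → m ≠ j → -w ≤ P m ∧ P m ≤ w := fun m a b => by
    by_cases c : m = i
    · rw [c, Pi]; exact ⟨by linarith, le_rfl⟩
    · rw [Pm m a b c]
      exact ⟨le_max_left _ _, max_le (by linarith) (min_le_right _ _)⟩
  have Pu : ∀ m, m ≠ k → P m ≤ w := fun m a => by
    by_cases b : m = j
    · rw [b, Pj]; linarith
    · exact (Pb m a b).2
  have Pl : ∀ m, m ≠ j → -w ≤ P m := fun m b => by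
    by_cases a : m = k
    · rw [a, Pk]; linarith
    · exact (Pb m a b).1
  have Pu' : ∀ m, P m ≤ 1 / 2 + r := fun m => by
    by_cases a : m = k
    · rw [a, Pk]
    · linarith [Pu m a]
  have Pl' : ∀ m, -(1 / 2) - r ≤ P m := fun m => by
    by_cases a : m = j
    · rw [a, Pj]
    · linarith [Pl m a]
  obtain ⟨l', hl', a1, a2⟩ := lemA_Ridge hr hL hc P k j (by rw [Pk, Pj]; ring) (fun a b h => by
    constructor
    · by_contra e
      linarith [Pu a e, Pl' b]
    · by_contra e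
      linarith [Pu' a, Pl b e])
  set c := (ext l' k + ext l' j) / 2 with hc'
  have hu : ∀ m, |ext l' m - P m - c| ≤ 1 / 2 + η + 2 * r := fun m => by
    have b1 := a2 m j
    have b2 := a2 k m
    rw [Pj] at b1
    rw [Pk] at b2
    exact abs_le.2 ⟨by linarith, by linarith⟩
  have b0 := a2 k j
  rw [Pk, Pj] at b0
  have b3 := abs_le.1 (h3 k hki hkj)
  have hD : ∀ m, -1 + 15 / 2 * r + 9 * η < ext l m - ext l' m - mid + c ∧
      ext l m - ext l' m - mid + c ≤ 1 + 13 / 2 * r + 4 * η := fun m => by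
    by_cases e1 : m = k
    · rw [e1]; constructor <;> linarith
    by_cases e2 : m = j
    · rw [e2]; constructor <;> linarith
    have b4 := abs_le.1 (hu m)
    by_cases e3 : m = i
    · rw [e3] at b4 ⊢
      rw [Pi] at b4
      constructor <;> linarith [b4.1, b4.2]
    have b5 := abs_le.1 (h3 m e3 e2)
    have b6 : |ext l m - mid - P m| ≤ 5 * r + 4 * η := by
      rw [Pm m e1 e2 e3, abs_le]
      constructor
      · have : max (-w) (min (ext l m - mid) w) ≤ ext l m - mid + (5 * r + 4 * η) :=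
          max_le (by linarith [b5.1]) ((min_le_left _ _).trans (by linarith))
        linarith
      · have : ext l m - mid - (5 * r + 4 * η) ≤ max (-w) (min (ext l m - mid) w) :=
          le_max_of_le_right (le_min (by linarith) (by linarith [b5.2]))
        linarith
    have b7 := abs_le.1 b6
    constructor <;> linarith [b4.1, b4.2, b7.1, b7.2]
  have hne : l - l' ≠ 0 := fun e => by
    rw [sub_eq_zero] at e
    subst e
    linarith [b3.2]
  have b8 := hL _ (L.sub_mem hl hl') hne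
  obtain ⟨a, b, e⟩ := ex_g0 (l - l')
  rw [ext_sub, ext_sub] at e
  linarith [(hD a).2, (hD b).1]

theorem sRidge (d : ℕ) : SRidge d := by
  intro L η r hη hr hs hL hc i
  have hij : i.succ ≠ 0 := Fin.succ_ne_zero i
  let P : Fin (d + 1) → ℝ := fun m => (1 / 2 + r) * (sg i.succ m - sg 0 m)
  have Pi : P i.succ = 1 / 2 + r := by simp [P, sg, hij]
  have Pj : P 0 = -(1 / 2) - r := by simp only [P, sg, if_neg hij.symm, if_true]; ring
  have Pm : ∀ m, m ≠ i.succ → m ≠ 0 → P m = 0 := fun m a b => by simp [P, sg, a, b]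
  have Pu : ∀ m, m ≠ i.succ → P m ≤ 0 := fun m a => by
    by_cases b : m = 0
    · rw [b, Pj]; linarith
    · exact (Pm m a b).le
  have Pl : ∀ m, m ≠ 0 → 0 ≤ P m := fun m b => by
    by_cases a : m = i.succ
    · rw [a, Pi]; linarith
    · exact (Pm m a b).ge
  have Pu' : ∀ m, P m ≤ 1 / 2 + r := fun m => by
    by_cases a : m = i.succ
    · rw [a, Pi]
    · linarith [Pu m a]
  have Pl' : ∀ m, -(1 / 2) - r ≤ P m := fun m => by
    by_cases a : m = 0
    · rw [a, Pj]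
    · linarith [Pl m a]
  obtain ⟨l, hl, a1, a2⟩ := lemA_Ridge hr hL hc P i.succ 0 (by rw [Pi, Pj]; ring) (fun a b h => by
    constructor
    · by_contra e
      linarith [Pu a e, Pl' b]
    · by_contra e
      linarith [Pu' a, Pl b e])
  have a3 := a2 i.succ 0
  rw [Pi, Pj] at a3
  set mid := (ext l i.succ + ext l 0) / 2 with hmid
  have h3 : ∀ m, m ≠ i.succ → m ≠ 0 → |ext l m - mid| ≤ 1 / 2 + 2 * r + η := fun m a b => by
    have b1 := a2 m 0
    have b2 := a2 i.succ m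
    rw [Pj, Pm m a b] at b1
    rw [Pi, Pm m a b] at b2
    exact abs_le.2 ⟨by linarith, by linarith⟩
  have u := lemB_Ridge hη hr hs hL hc hl hij mid (by rw [hmid]; ring) a1 (by linarith) h3
  have v := lemB_Ridge hη hr hs hL hc (L.neg_mem hl) hij.symm (-mid)
    (by rw [ext_neg, ext_neg, hmid]; ring) (by rw [ext_neg, ext_neg]; linarith)
    (by rw [ext_neg, ext_neg]; linarith) (fun m a b => by
      rw [ext_neg, ← abs_neg]
      convert h3 m b a using 2
      ring)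
  have he : ee i = lz (ez i.succ - ez 0) := by
    ext k
    simp [lz_apply, ez, ee]
  have hb : ∀ m, |ext (l - ee i) m - mid| ≤ 9 * (r + η) := fun m => by
    rw [ext_sub, he, ext_ez, abs_le]
    by_cases a : m = i.succ
    · simp only [a, sg, if_true, if_neg hij]
      constructor <;> linarith
    by_cases b : m = 0
    · simp only [b, sg, if_true, if_neg hij.symm]
      constructor <;> linarith
    have b1 := u m a b
    have b2 := v m b a
    rw [ext_neg] at b2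
    simp only [sg, if_neg a, if_neg b]
    constructor <;> linarith
  refine ⟨l, hl, g0_le fun a b => ?_⟩
  linarith [(abs_le.1 (hb a)).2, (abs_le.1 (hb b)).1]

end Pool.Agent.MP_02cac4_co.Sp

end

section
namespace Pool.Agent.MP_02cac4_co.Sp

open Finset MeasureTheory
open scoped RealInnerProductSpace

/-- the operator of an integer matrix -/
theorem op_Rig {d : ℕ} (U : Matrix (Fin d) (Fin d) ℤ) :
    ∃ S : Op d, S.det = (U.det : ℝ) ∧ ∀ z, S (lz z) = lz (U.mulVec z) := by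
  let b := (EuclideanSpace.basisFun (Fin d) ℝ).toBasis
  refine ⟨LinearMap.toContinuousLinearMap (Matrix.toLin b b (U.map Int.cast)), ?_, fun z => ?_⟩
  · change LinearMap.det (Matrix.toLin b b (U.map Int.cast)) = _
    rw [LinearMap.det_toLin, Int.cast_det]
  · change Matrix.toLin b b (U.map Int.cast) (lz z) = _
    rw [Matrix.toLin_apply]
    ext k
    simp [b, lz_apply, Finset.sum_apply, Pi.single_apply, Matrix.mulVec, dotProduct]

theorem norm_Rig {d : ℕ} (A : Op d) {c : ℝ} (hc : 0 ≤ c) (h : ∀ i, ‖A (ee i)‖ ≤ c) :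
    ‖A‖ ≤ d * c := by
  refine A.opNorm_le_bound (by positivity) fun x => ?_
  conv_lhs => rw [← sum_ee x, map_sum]
  refine (norm_sum_le _ _).trans ((sum_le_sum (g := fun _ => c * ‖x‖) fun i _ => ?_).trans ?_)
  · rw [map_smul, norm_smul, mul_comm]
    exact mul_le_mul (h i) (PiLp.norm_apply_le x i) (norm_nonneg _) hc
  · simp [mul_assoc]

theorem sRig (d : Nat) (h1 : SCov d) (h2 : SRidge d) : SRig d := by
  intro ρ hρ
  obtain ⟨δ, hδ, hdet⟩ := Metric.continuous_iff.1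
    (ContinuousLinearMap.continuous_det (𝕜 := ℝ) (E := Ed d)) 1 (1 / 2) (by norm_num)
  have hone : (1 : Op d).det = 1 := LinearMap.det_id
  have hd : (0 : ℝ) ≤ d := Nat.cast_nonneg d
  obtain ⟨s, hs, hs1, hsρ, hsδ⟩ : ∃ s : ℝ, 0 < s ∧ s ≤ 1 ∧ s ≤ ρ ∧ s < δ :=
    ⟨min 1 (min ρ (δ / 2)), by positivity, min_le_left _ _,
      (min_le_right _ _).trans (min_le_left _ _),
      ((min_le_right _ _).trans (min_le_right _ _)).trans_lt (by linarith)⟩
  obtain ⟨r, hr, hrs⟩ : ∃ r : ℝ, 0 < r ∧ 80 * ((d : ℝ) + 1) ^ 2 * r = s :=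
    ⟨s / (80 * ((d : ℝ) + 1) ^ 2), by positivity, by field_simp⟩
  have hdr : 0 ≤ d * r := by positivity
  have hddr : 0 ≤ d * (d * r) := by positivity
  have hr1 : 80 * r ≤ 1 := by nlinarith
  have hr2 : 80 * (d * r) ≤ 1 := by nlinarith
  have hr3 : d * (d * (60 * r)) ≤ s := by nlinarith
  have hp : 0 < r ^ d := pow_pos hr d
  have hp1 : r ^ d ≤ 1 := pow_le_one₀ hr.le (by linarith)
  obtain ⟨η, hη, hηr⟩ : ∃ η : ℝ, 0 < η ∧ ((d : ℝ) + 1) * η = r ^ d * r :=
    ⟨r ^ d * r / (d + 1), by positivity, by field_simp⟩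
  have hdη : 0 ≤ d * η := by positivity
  have hη1 : η ≤ r := by nlinarith
  have hη2 : (d + 1) * η < r ^ d := by nlinarith
  have hη3 : d * η ≤ d * r := mul_le_mul_of_nonneg_left hη1 hd
  have hB : 1 + d * (-η) ≤ (1 + -η) ^ d := one_add_mul_le_pow (by linarith) d
  rw [← sub_eq_add_neg] at hB
  refine ⟨η, hη, fun T hT hlow hup => ?_⟩
  obtain ⟨hlo, hcov⟩ := h1 T η r hT hη.le hr (by linarith) hlow
  have hcov' := hcov (by linarith)
  let f : (Fin d → ℤ) →+ Ed d := AddMonoidHom.mk' (fun z => T (lz z)) fun z w => by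
    rw [lz_add, map_add]
  have hex := h2 f.range η r hη.le hr (by linarith) (by
    rintro _ ⟨z, rfl⟩ hz
    refine hlow z fun h0 => hz ?_
    rw [h0, map_zero]) (fun p => by
    obtain ⟨z, hz⟩ := hcov' p
    exact ⟨_, ⟨z, rfl⟩, hz⟩)
  have hex' : ∀ i : Fin d, ∃ z : Fin d → ℤ, g0 (T (lz z) - ee i) ≤ 60 * r := fun i => by
    obtain ⟨_, ⟨z, rfl⟩, hz⟩ := hex i
    exact ⟨z, hz.trans (by linarith)⟩
  choose u hu using hex'
  let U : Matrix (Fin d) (Fin d) ℤ := Matrix.of fun j i => u i j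
  obtain ⟨S, hS, hSz⟩ := op_Rig U
  have hee : ∀ i, S (ee i) = lz (u i) := fun i => by
    have e : ee i = lz (Pi.single i 1) := by
      ext k
      simp [lz_apply, ee, Pi.single_apply]
    rw [e, hSz, Matrix.mulVec_single_one]
    rfl
  have hnorm : ‖T * S - 1‖ ≤ s := by
    refine (norm_Rig _ (c := d * (60 * r)) (by positivity) fun i => ?_).trans hr3
    have e : (T * S - 1) (ee i) = T (lz (u i)) - ee i := by rw [← hee]; rfl
    rw [e]
    exact (norm_le_g0 _).trans (mul_le_mul_of_nonneg_left (hu i) hd)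
  have hTS := hdet (T * S) (by rw [dist_eq_norm]; linarith)
  rw [hone, det_mul', hS, Real.dist_eq, abs_lt] at hTS
  have habs : |T.det * (U.det : ℝ)| < 3 / 2 := abs_lt.2 ⟨by linarith [hTS.1], by linarith [hTS.2]⟩
  have hU0 : U.det ≠ 0 := fun h0 => by
    have := hTS.1
    rw [h0] at this
    norm_num at this
  have hU2 : |U.det| < 2 := by
    have h3 : 3 / 4 ≤ |T.det| := by linarith
    have : |(U.det : ℝ)| < 2 := by
      rw [abs_mul] at habs
      nlinarith [abs_nonneg (U.det : ℝ)]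
    exact_mod_cast this
  have hU1 : |U.det| = 1 := by
    have := Int.one_le_abs hU0
    omega
  have hUu : IsUnit U.det := Int.isUnit_iff_abs_eq.2 hU1
  refine ⟨T * S, ⟨?_, ⟨U⁻¹.mulVec, U.mulVec, fun z => ?_, fun z => ?_⟩, ?_, fun z => ?_⟩,
    hnorm.trans hsρ⟩
  · rw [det_mul', hS, abs_mul, ← Int.cast_abs, hU1, Int.cast_one, mul_one]
  · rw [Matrix.mulVec_mulVec, Matrix.mul_nonsing_inv _ hUu, Matrix.one_mulVec]
  · rw [Matrix.mulVec_mulVec, Matrix.nonsing_inv_mul _ hUu, Matrix.one_mulVec]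
  · exact Matrix.mulVec_zero U⁻¹
  · change _ = T (S (lz (U⁻¹.mulVec z)))
    rw [hSz, Matrix.mulVec_mulVec, Matrix.mul_nonsing_inv _ hUu, Matrix.one_mulVec]

end Pool.Agent.MP_02cac4_co.Sp

end

section
namespace Pool.Agent.MP_02cac4_co.Sp

open Finset MeasureTheory
open scoped RealInnerProductSpace

theorem op_Form {d : ℕ} (A : Op d) : ‖A‖ ≤ ∑ j, ‖A (ee j)‖ := by
  refine A.opNorm_le_bound (sum_nonneg fun _ _ => norm_nonneg _) fun x => ?_
  conv_lhs => rw [← sum_ee x]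
  rw [map_sum, sum_mul]
  refine le_trans (norm_sum_le _ _) (sum_le_sum fun j _ => ?_)
  rw [map_smul, norm_smul, mul_comm]
  exact mul_le_mul_of_nonneg_left (PiLp.norm_apply_le x j) (norm_nonneg _)

theorem vec_Form {d : ℕ} (y : Ed d) : ‖y‖ ≤ ∑ i, |⟪ee i, y⟫| := by
  conv_lhs => rw [← sum_ee y]
  refine le_trans (norm_sum_le _ _) (sum_le_sum fun i _ => le_of_eq ?_)
  simp [norm_smul, ee, EuclideanSpace.inner_single_left]

theorem r0_Form {d : ℕ} (i : Fin d) : lz (rt ⟨(0, i.succ), Fin.succ_pos i⟩) = -ee i := by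
  ext k
  simp [lz_apply, rt, ez, ee]

theorem r1_Form {d : ℕ} (i j : Fin d) (h : i < j) :
    lz (rt ⟨(i.succ, j.succ), Fin.succ_lt_succ_iff.mpr h⟩) = ee i - ee j := by
  ext k
  simp [lz_apply, rt, ez, ee]

theorem sForm (d : Nat) : SForm d := by
  have hd : (0 : ℝ) ≤ d := Nat.cast_nonneg d
  have hc : (0 : ℝ) ≤ Fintype.card (Rt d) := Nat.cast_nonneg _
  refine ⟨Fintype.card (Rt d) + 2 * d ^ 2 + d + 1, by positivity, by nlinarith, ?_, ?_, ?_⟩
  · intro Y s hs hsym h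
    have h1 : ∀ i, |⟪ee i, Y (ee i)⟫| ≤ s := fun i => by
      have := h ⟨(0, i.succ), Fin.succ_pos i⟩
      rwa [r0_Form, map_neg, inner_neg_neg] at this
    have hs' : ∀ i j, ⟪ee i, Y (ee j)⟫ = ⟪ee j, Y (ee i)⟫ := fun i j => by
      rw [← hsym, real_inner_comm]
    have h2 : ∀ i j, i < j → |⟪ee i, Y (ee j)⟫| ≤ 2 * s := fun i j hij => by
      have h3 := h ⟨(i.succ, j.succ), Fin.succ_lt_succ_iff.mpr hij⟩
      rw [r1_Form i j hij, map_sub, inner_sub_left, inner_sub_right, inner_sub_right,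
        hs' j i] at h3
      have h4 := abs_le.mp (h1 i)
      have h5 := abs_le.mp (h1 j)
      have h6 := abs_le.mp h3
      rw [abs_le]
      constructor <;> linarith [h4.1, h4.2, h5.1, h5.2, h6.1, h6.2]
    have h3 : ∀ i j, |⟪ee i, Y (ee j)⟫| ≤ 2 * s := fun i j => by
      rcases lt_trichotomy i j with hij | rfl | hij
      · exact h2 i j hij
      · linarith [h1 i]
      · rw [hs']; exact h2 j i hij
    have h4 : ‖Y‖ ≤ ∑ _j : Fin d, ∑ _i : Fin d, 2 * s :=
      le_trans (op_Form Y) (sum_le_sum fun j _ =>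
        le_trans (vec_Form _) (sum_le_sum fun i _ => h3 i j))
    simp only [sum_const, card_univ, Fintype.card_fin, nsmul_eq_mul] at h4
    have h5 := mul_nonneg hc hs
    have h6 := mul_nonneg hd hs
    nlinarith
  · intro A
    have h1 : ‖A‖ ^ 2 ≤ (∑ j, ‖A (ee j)‖) ^ 2 := pow_le_pow_left₀ (norm_nonneg _) (op_Form A) 2
    have h2 := sq_sum_le_card_mul_sum_sq (s := (univ : Finset (Fin d))) (f := fun j => ‖A (ee j)‖)
    rw [card_univ, Fintype.card_fin] at h2
    have h3 : ∑ j, ‖A (ee j)‖ ^ 2 ≤ ∑ a : Rt d, ‖A (lz (rt a))‖ ^ 2 := by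
      have hi : Function.Injective fun i : Fin d => (⟨(0, i.succ), Fin.succ_pos i⟩ : Rt d) :=
        fun i j h => Fin.succ_injective _ (congrArg (fun a : Rt d => a.1.2) h)
      calc ∑ j, ‖A (ee j)‖ ^ 2
          = ∑ a ∈ univ.map ⟨_, hi⟩, ‖A (lz (rt a))‖ ^ 2 := by
            rw [sum_map]
            refine sum_congr rfl fun j _ => ?_
            simp only [Function.Embedding.coeFn_mk]
            rw [r0_Form, map_neg, norm_neg]
        _ ≤ _ := sum_le_sum_of_subset_of_nonneg (subset_univ _) fun _ _ _ => sq_nonneg _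
    have h4 : 0 ≤ ∑ a : Rt d, ‖A (lz (rt a))‖ ^ 2 := sum_nonneg fun _ _ => sq_nonneg _
    refine le_trans h1 (le_trans h2 (le_trans (mul_le_mul_of_nonneg_left h3 hd) ?_))
    exact mul_le_mul_of_nonneg_right (by nlinarith) h4
  · intro a
    have h1 := norm_sq_le_bs (lz (rt a))
    rw [bs_rt, ext_rt, ext_rt] at h1
    have h2 : a.1.1 ≠ a.1.2 := ne_of_lt a.2
    simp only [sg, if_true, if_neg h2, if_neg h2.symm] at h1
    nlinarith [norm_nonneg (lz (rt a))]

end Pool.Agent.MP_02cac4_co.Sp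

end

section
namespace Pool.Agent.MP_02cac4_co.Sp

open Finset MeasureTheory
open scoped RealInnerProductSpace

theorem det_adj_Loc {d : ℕ} (S : Op d) : (ContinuousLinearMap.adjoint S).det = S.det := by
  have e : ((ContinuousLinearMap.adjoint S : Op d) : Ed d →ₗ[ℝ] Ed d) =
      LinearMap.adjoint (S : Ed d →ₗ[ℝ] Ed d) :=
    (LinearMap.eq_adjoint_iff _ _).2 fun x y => ContinuousLinearMap.adjoint_inner_left S y x
  let b := EuclideanSpace.basisFun (Fin d) ℝ
  change LinearMap.det _ = LinearMap.det _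
  rw [e, ← LinearMap.det_toMatrix b.toBasis, ← LinearMap.det_toMatrix b.toBasis (S : _ →ₗ[ℝ] _),
    LinearMap.toMatrix_adjoint, Matrix.det_conjTranspose]
  simp

theorem n1_Loc {l f c : ℝ} (h0 : 0 ≤ l) (h1 : l ≤ 1) (hc : 0 ≤ c) (h : f ≤ c) : l * f ≤ c := by
  nlinarith

theorem n2_Loc {M l u q : ℝ} (h : 1 ≤ 2 * M * l) (h1 : u ^ 2 / 2 ≤ q) :
    u ^ 2 ≤ 4 * M * (l * q) := by
  nlinarith [sq_nonneg u]

theorem n3_Loc {M C p t z : ℝ} (hM : 0 ≤ M) (hC : 0 ≤ C) (ht : 0 ≤ t) (hz : 0 ≤ z)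
    (h1 : 0 ≤ p + 2 * z) (h2 : p + 2 * z ≤ 2 * M * (t + C * (2 * z))) :
    |p| ≤ (2 * M + 4 * M * C + 2) * (t + z) := by
  have b6 : 0 ≤ M * C * t := by positivity
  have b7 : 0 ≤ M * z := by positivity
  have b8 : 0 ≤ M * C * z := by positivity
  have b9 : 0 ≤ M * t := by positivity
  rw [abs_le]
  constructor <;> linarith

theorem n4_Loc {K K1 x t z D e : ℝ} (hK : 0 < K) (hD : 0 ≤ D) (hx : 0 ≤ x)
    (h1 : -(K * x ^ 2) ≤ e - 1 - t) (h2 : e ≤ 1 + D) (h3 : x ≤ K1 * (|t| + z))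
    (h4 : 4 * K * K1 ^ 2 * |t| ≤ 1) : t ≤ 2 * D + 4 * K * K1 ^ 2 * z ^ 2 := by
  have a2 : K * x ^ 2 ≤ K * (K1 * (|t| + z)) ^ 2 := by gcongr
  have a3 : 0 ≤ K * K1 ^ 2 * (|t| - z) ^ 2 := by positivity
  have a5 : 4 * K * K1 ^ 2 * |t| * |t| ≤ 1 * |t| := by gcongr
  have a6 : 0 ≤ K * K1 ^ 2 * z ^ 2 := by positivity
  have a7 : t - |t| / 2 ≤ D + 2 * K * K1 ^ 2 * z ^ 2 := by linarith
  rcases abs_cases t with h | h <;> linarith [h.1, h.2]

theorem n5_Loc {C K3 s s' D z Q : ℝ} (hC : 0 ≤ C) (hK : 0 ≤ K3) (hs : 0 ≤ s') (hD : 0 ≤ D)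
    (h1 : Q ≤ 2 * s + 2 * D + K3 * z ^ 2) (h2 : 2 * s ≤ (2 + 2 * C) * s') :
    Q ≤ (2 + 2 * C + K3) * (s' + D + z ^ 2) := by
  have b1 : 0 ≤ K3 * s' := by positivity
  have b2 : 0 ≤ K3 * D := by positivity
  have b3 : 0 ≤ C * D := by positivity
  have b4 : 0 ≤ C * z ^ 2 := by positivity
  linarith [sq_nonneg z]

theorem sLoc (d : ℕ) (h1 : SDet d) (h2 : SForm d) : SLoc d := by
  obtain ⟨K, hK, HK⟩ := h1
  obtain ⟨C, hC, hcard, hY, hA, hrt⟩ := h2
  obtain ⟨M, hM⟩ : ∃ M : ℝ, M = d + 1 := ⟨_, rfl⟩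
  have hM1 : 1 ≤ M := by rw [hM]; simp
  obtain ⟨E, hE⟩ : ∃ E : ℝ, E = 2 * M + 4 * M * C + 2 := ⟨_, rfl⟩
  have hE0 : 0 < E := by rw [hE]; positivity
  obtain ⟨K1, hK1⟩ : ∃ K1 : ℝ, K1 = 4 * C * (C * E) := ⟨_, rfl⟩
  have hK10 : 0 < K1 := by rw [hK1]; positivity
  obtain ⟨K2, hK2⟩ : ∃ K2 : ℝ, K2 = 4 * C * (3 * (M + 1)) := ⟨_, rfl⟩
  have hK20 : 0 < K2 := by rw [hK2]; positivity
  obtain ⟨K3, hK3⟩ : ∃ K3 : ℝ, K3 = 4 * K * K1 ^ 2 := ⟨_, rfl⟩
  have hK30 : 0 < K3 := by rw [hK3]; positivity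
  refine ⟨min 1 (min (1 / K2) (1 / (K3 * K2))), 4 * M * C * (2 + 2 * C + K3), by positivity,
    by positivity, fun l G hG A ζ D hn hζ hD hz hdet => ?_⟩
  obtain ⟨n, hn'⟩ : ∃ n, n = ‖A‖ := ⟨_, rfl⟩
  have n0 : 0 ≤ n := hn' ▸ norm_nonneg A
  rw [← hn'] at hn ⊢
  have n1 : n ≤ 1 := hn.trans (min_le_left _ _)
  have n2 : K2 * n ≤ 1 := by
    rw [← le_div_iff₀' hK20]; exact hn.trans ((min_le_right _ _).trans (min_le_left _ _))
  have n3 : K3 * K2 * n ≤ 1 := by
    rw [← le_div_iff₀' (by positivity)]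
    exact hn.trans ((min_le_right _ _).trans (min_le_right _ _))
  have hl0 : ∀ a, 0 ≤ l a := fun a => le_trans (by positivity) (hG.lo a)
  have hl1 : ∀ a, 1 ≤ 2 * M * l a := fun a => by
    have := hG.lo a
    rwa [← hM, div_le_iff₀' (by positivity)] at this
  have hsum : ∀ (f : Rt d → ℝ) (c : ℝ), 0 ≤ c → (∀ a, f a ≤ c) → ∑ a, l a * f a ≤ C * c :=
    fun f c hc hf => by
      calc ∑ a, l a * f a ≤ ∑ _a : Rt d, c := sum_le_sum fun a _ =>
            n1_Loc (hl0 a) (hG.hi a) hc (hf a)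
        _ = Fintype.card (Rt d) * c := by simp
        _ ≤ C * c := by gcongr
  let B : Op d := ContinuousLinearMap.adjoint A
  have hB : ‖B‖ = n := by rw [hn']; exact ContinuousLinearMap.adjoint.norm_map A
  have hBi : ∀ x y, ⟪x, B y⟫ = ⟪A x, y⟫ := ContinuousLinearMap.adjoint_inner_right A
  have hBj : ∀ x y, ⟪B x, y⟫ = ⟪x, A y⟫ := fun x y => ContinuousLinearMap.adjoint_inner_left A y x
  let N : Op d := ∑ a, l a • (innerSL ℝ (lz (rt a))).smulRight (lz (rt a))
  have hN : ∀ x, N x = ∑ a, ⟪l a • lz (rt a), x⟫ • lz (rt a) := fun x => by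
    simp [N, _root_.sum_apply, smul_smul, real_inner_smul_left]
  have hNG : N * G = 1 := by
    ext1 x
    change N (G x) = x
    rw [hN]
    simp only [real_inner_smul_left]
    exact hG.inv x
  have hNn : ‖N‖ ≤ 4 * C := by
    refine ContinuousLinearMap.opNorm_le_bound _ (by positivity) fun x => ?_
    rw [hN]
    refine (norm_sum_le _ _).trans ?_
    have : ∀ a, ‖⟪l a • lz (rt a), x⟫ • lz (rt a)‖ =
        l a * (|⟪lz (rt a), x⟫| * ‖lz (rt a)‖) := fun a => by
      rw [norm_smul, real_inner_smul_left, Real.norm_eq_abs, abs_mul, abs_of_nonneg (hl0 a)]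
      ring
    simp only [this]
    refine (hsum _ (2 * ‖x‖ * 2) (by positivity) fun a => ?_).trans (le_of_eq (by ring))
    have a1 := hrt a
    have a2 : |⟪lz (rt a), x⟫| ≤ 2 * ‖x‖ := (abs_real_inner_le_norm _ _).trans (by gcongr)
    gcongr
  let Y : Op d := G * A + B * G + B * G * A
  have hYa : ∀ x, Y x = G (A x) + B (G x) + B (G (A x)) := fun x => rfl
  have hYs : ∀ x y, ⟪Y x, y⟫ = ⟪x, Y y⟫ := fun x y => by
    simp only [hYa, inner_add_left, inner_add_right, hBi, hBj, hG.sym]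
    ring
  have hYq : ∀ x, ⟪x, Y x⟫ = 2 * ⟪G x, A x⟫ + ⟪G (A x), A x⟫ := fun x => by
    simp only [hYa, inner_add_right, hBi]
    rw [← hG.sym x, real_inner_comm (G x) (A x), ← hG.sym (A x)]
    ring
  have hYn : ‖Y‖ ≤ 3 * (M + 1) * n := by
    have g : ‖G‖ ≤ M + 1 := by rw [hM]; linarith [hG.bd]
    have a1 : ‖G * A‖ ≤ (M + 1) * n := (norm_mul_le _ _).trans (by rw [← hn']; gcongr)
    have a2 : ‖B * G‖ ≤ n * (M + 1) := (norm_mul_le _ _).trans (by rw [hB]; gcongr)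
    have a3 : ‖B * G * A‖ ≤ n * (M + 1) * 1 := (norm_mul_le _ _).trans (by rw [← hn']; gcongr)
    have a4 : ‖Y‖ ≤ ‖G * A‖ + ‖B * G‖ + ‖B * G * A‖ := norm_add₃_le
    linarith
  have hdetX : (1 + N * Y).det = (1 + A).det ^ 2 := by
    have e1 : 1 + N * Y = N * ((1 + B) * (G * (1 + A))) := by
      have : (1 + B) * (G * (1 + A)) = G + Y := by simp only [Y]; noncomm_ring
      rw [this, mul_add N G Y, hNG]
    have e2 : 1 + B = ContinuousLinearMap.adjoint (1 + A) := by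
      rw [map_add]
      congr 1
      exact ContinuousLinearMap.adjoint_id.symm
    have e3 : N.det * G.det = 1 := by
      rw [← det_mul', hNG]
      exact LinearMap.det_id
    rw [e1, det_mul', det_mul', det_mul', e2, det_adj_Loc]
    linear_combination (1 + A).det ^ 2 * e3
  obtain ⟨t, ht⟩ : ∃ t, t = tr (N * Y) := ⟨_, rfl⟩
  have ht1 : t = ∑ a, l a * ⟪lz (rt a), Y (lz (rt a))⟫ := by
    rw [ht, tr_sum (fun a => l a • lz (rt a)) (fun a => lz (rt a)) (N * Y) Y fun x => hN (Y x)]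
    simp only [real_inner_smul_left]
  have htA : tr A = ∑ a, l a * ⟪G (lz (rt a)), A (lz (rt a))⟫ := by
    rw [tr_sum (fun a => l a • lz (rt a)) (fun a => A (lz (rt a))) A G fun x => ?_]
    · simp only [real_inner_smul_left, hG.sym]
    · conv_lhs => rw [← hG.inv x]
      simp only [map_sum, map_smul, real_inner_smul_left]
  obtain ⟨Q, hQ⟩ : ∃ Q, Q = ∑ a, l a * ⟪G (A (lz (rt a))), A (lz (rt a))⟫ := ⟨_, rfl⟩
  have ht2 : t = 2 * tr A + Q := by
    rw [ht1, htA, hQ, mul_sum, ← sum_add_distrib]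
    exact sum_congr rfl fun a _ => by rw [hYq]; ring
  have hQn : n ^ 2 ≤ 4 * M * C * Q := by
    have a1 : ∑ a, ‖A (lz (rt a))‖ ^ 2 ≤ 4 * M * Q := by
      rw [hQ, mul_sum]
      exact sum_le_sum fun a _ => n2_Loc (hl1 a) (hG.pos (A (lz (rt a))))
    have a2 := hA A
    rw [← hn'] at a2
    exact a2.trans ((mul_le_mul_of_nonneg_left a1 hC.le).trans (le_of_eq (by ring)))
  have hp : ∀ a, 0 ≤ ⟪lz (rt a), Y (lz (rt a))⟫ + 2 * ζ := fun a => by
    have b1 := hG.pos (A (lz (rt a)))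
    have b3 := sq_nonneg ‖A (lz (rt a))‖
    rw [hYq]
    linarith [hz a]
  have hq : ∀ a, |⟪lz (rt a), Y (lz (rt a))⟫| ≤ E * (|t| + ζ) := fun a => by
    have b1 : l a * (⟪lz (rt a), Y (lz (rt a))⟫ + 2 * ζ) ≤
        ∑ b, l b * (⟪lz (rt b), Y (lz (rt b))⟫ + 2 * ζ) :=
      single_le_sum (f := fun b => l b * (⟪lz (rt b), Y (lz (rt b))⟫ + 2 * ζ))
        (fun b _ => mul_nonneg (hl0 b) (hp b)) (mem_univ a)
    simp only [mul_add, sum_add_distrib, ← ht1] at b1
    have b2 := hsum (fun _ => 2 * ζ) (2 * ζ) (by positivity) fun _ => le_rfl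
    have b3 := le_abs_self t
    have b4 := abs_nonneg t
    have b5 : ⟪lz (rt a), Y (lz (rt a))⟫ + 2 * ζ ≤ 2 * M * (|t| + C * (2 * ζ)) :=
      (le_mul_of_one_le_left (hp a) (hl1 a)).trans (by
        rw [mul_assoc]
        gcongr
        linarith)
    rw [hE]
    exact n3_Loc (zero_le_one.trans hM1) hC.le b4 hζ (hp a) b5
  have hX1 : ‖N * Y‖ ≤ K1 * (|t| + ζ) := by
    have := hY Y _ (by positivity) hYs hq
    calc ‖N * Y‖ ≤ ‖N‖ * ‖Y‖ := norm_mul_le _ _
      _ ≤ 4 * C * (C * (E * (|t| + ζ))) := by gcongr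
      _ = _ := by rw [hK1]; ring
  have hX2 : ‖N * Y‖ ≤ 1 := by
    calc ‖N * Y‖ ≤ ‖N‖ * ‖Y‖ := norm_mul_le _ _
      _ ≤ 4 * C * (3 * (M + 1) * n) := by gcongr
      _ = K2 * n := by rw [hK2]; ring
      _ ≤ 1 := n2
  have ht3 : |t| ≤ K2 * n := by
    rw [ht1]
    refine (abs_sum_le_sum_abs _ _).trans ?_
    simp only [abs_mul, abs_of_nonneg (hl0 _)]
    refine (hsum _ (2 * (3 * (M + 1) * n * 2)) (by positivity) fun a => ?_).trans
      (le_of_eq (by rw [hK2]; ring))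
    have a1 := hrt a
    have a2 : ‖Y (lz (rt a))‖ ≤ 3 * (M + 1) * n * 2 := (Y.le_opNorm _).trans (by gcongr)
    exact (abs_real_inner_le_norm _ _).trans (by gcongr)
  have hmain : t ≤ 2 * D + K3 * ζ ^ 2 := by
    have a1 := (abs_le.1 (HK _ hX2)).1
    rw [hdetX, ← ht] at a1
    have a4 : K3 * |t| ≤ 1 := le_trans (by rw [mul_assoc]; gcongr) n3
    rw [hK3] at a4 ⊢
    exact n4_Loc hK hD (norm_nonneg _) a1 hdet hX1 a4
  have hfin : ∀ s s' : ℝ, 0 ≤ s' → -s ≤ tr A → 2 * s ≤ (2 + 2 * C) * s' →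
      n ^ 2 ≤ 4 * M * C * (2 + 2 * C + K3) * (s' + D + ζ ^ 2) := fun s s' a1 a2 a3 => by
    refine hQn.trans ?_
    rw [mul_assoc _ (2 + 2 * C + K3)]
    exact mul_le_mul_of_nonneg_left (n5_Loc hC.le hK30.le a1 hD (by linarith) a3) (by positivity)
  refine ⟨hfin (C * ζ) ζ hζ ?_ (by linarith), fun s hs h => hfin s s hs h
    (by linarith [mul_nonneg hC.le hs])⟩
  have := hsum (fun a => -⟪G (lz (rt a)), A (lz (rt a))⟫) ζ hζ fun a => by linarith [hz a]
  simp only [mul_neg, sum_neg_distrib, ← htA] at this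
  linarith

end Pool.Agent.MP_02cac4_co.Sp

end

section
/-! Global strictness of the integer lattice for the perturbed norm. -/


namespace Pool.Agent.MP_02cac4_co.Sp

open Finset MeasureTheory
open scoped RealInnerProductSpace

theorem sGlob (d : Nat) (h1 : SRig d) (h2 : SLoc d) : SGlob d := by
  intro r0 hr0
  obtain ⟨ρ0, K, hρ0, hK, hL⟩ := h2
  obtain ⟨η, hη, hR⟩ := h1 (min ρ0 (min (r0 / 2) (1 / 4))) (by positivity)
  refine ⟨η / 2, by positivity, 16 * K + 1, by positivity, ?_⟩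
  intro J _ D ν hO hC hν k1 k2 ρ hρ
  have hκ := hO.κ_pos
  obtain ⟨θ, hθ, t1, t2, t3, t4⟩ : ∃ θ : ℝ, 0 < θ ∧ θ ≤ η / 2 ∧ θ ≤ 1 / 12 ∧
      θ * (240 * K) ≤ D.κ ^ 2 ∧ θ * (2 * K * (d + 75)) ≤ ρ ^ 2 :=
    ⟨min (min (η / 2) (1 / 12)) (min (D.κ ^ 2 / (240 * K)) (ρ ^ 2 / (2 * K * (d + 75)))),
      by positivity, (min_le_left _ _).trans (min_le_left _ _),
      (min_le_left _ _).trans (min_le_right _ _),
      (le_div_iff₀ (by positivity)).mp ((min_le_right _ _).trans (min_le_left _ _)),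
      (le_div_iff₀ (by positivity)).mp ((min_le_right _ _).trans (min_le_right _ _))⟩
  refine ⟨θ, hθ, fun T hT hg hdet => ?_⟩
  obtain ⟨T', hS, hn⟩ := hR T hT (fun z hz => by
    by_contra hc
    have a1 := (hg z hz).trans (hC.up _)
    have a2 := mul_lt_mul_of_pos_left (not_le.1 hc) (show 0 < 1 + η / 2 by positivity)
    nlinarith [sq_nonneg η]) (by linarith)
  refine ⟨T', hS, ?_⟩
  obtain ⟨A, rfl⟩ : ∃ A, T' = 1 + A := ⟨T' - 1, by abel⟩
  rw [add_sub_cancel_left] at hn ⊢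
  obtain ⟨e1, σ, s0, s1⟩ := hS
  have n0 := norm_nonneg A
  have n1 : ‖A‖ ≤ ρ0 := hn.trans (min_le_left _ _)
  have n2 : ‖A‖ ≤ r0 / 2 := hn.trans ((min_le_right _ _).trans (min_le_left _ _))
  have n3 : ‖A‖ ≤ 1 / 4 := hn.trans ((min_le_right _ _).trans (min_le_right _ _))
  have hy : ∀ i, ‖A (lz (D.y i))‖ ≤ ‖A‖ * 2 := fun i => A.le_opNorm_of_le (hC.yn i)
  have low : ∀ i, D.g (lz (D.y i) + A (lz (D.y i))) = D.φ i (lz (D.y i) + A (lz (D.y i))) →
      -(2 * θ) ≤ D.φ i (A (lz (D.y i))) := fun i e => by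
    have a1 := hg (σ.symm (D.y i)) fun h => hO.ne i (by
      rw [← σ.apply_symm_apply (D.y i), h, s0])
    rw [s1, σ.apply_symm_apply, ContinuousLinearMap.add_apply, ContinuousLinearMap.one_apply, e,
      map_add, hO.two] at a1
    linarith
  obtain ⟨l, G, hM, hG⟩ := hC.met
  have p1 : 0 ≤ K * ν := by positivity
  have p2 : 0 ≤ ν * ‖A‖ := by positivity
  have p3 : ν * ‖A‖ ≤ 1 / 4 := by nlinarith
  obtain ⟨b1, b2⟩ := hL l G hM A (6 * θ + 2 * (ν * ‖A‖)) (3 * θ) n1 (by positivity) (by positivity)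
    (fun a => by
      obtain ⟨c, c0, c1, c2⟩ := hG a
      have a1 := hy (Sum.inl a)
      have a2 := low (Sum.inl a)
      rw [hC.yR] at a1 a2
      have a3 := a2 (hC.linR a _ (by rw [add_sub_cancel_left]; linarith))
      have a4 := (abs_le.1 (c2 (A (lz (rt a))))).1
      have a5 := mul_le_mul_of_nonneg_left a3 c0
      have a6 := mul_le_mul_of_nonneg_left a1 hν
      have a7 := mul_le_mul_of_nonneg_right c1 hθ.le
      linarith)
    (by
      rw [← sq_abs, ← e1]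
      nlinarith [abs_nonneg T.det])
  have n4 : ‖A‖ ≤ D.κ / 2 := by
    by_contra hc
    have a1 : (6 * θ + 2 * (ν * ‖A‖)) ^ 2 ≤ 6 * θ + 2 * (ν * ‖A‖) :=
      pow_le_of_le_one (by positivity) (by linarith) two_ne_zero
    have a2 := mul_le_mul_of_nonneg_left a1 hK.le
    have a3 := mul_le_mul_of_nonneg_right (show 16 * (K * ν) ≤ D.κ by linarith) n0
    have a4 := not_le.1 hc
    nlinarith [mul_pos hκ (sub_pos.2 a4), mul_nonneg n0 (sub_pos.2 a4).le]
  have a1 : (d : ℝ) = ∑ i, D.lam i * 2 := by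
    rw [← tr_one, hO.eut]
    exact sum_congr rfl fun i _ => by rw [ContinuousLinearMap.one_apply, hO.two]
  have a2 : -(d * θ) ≤ tr A := by
    rw [hO.eut, a1, sum_mul, ← sum_neg_distrib]
    refine sum_le_sum fun i _ => ?_
    have := mul_le_mul_of_nonneg_left (low i (hO.lin i _ (by
      rw [add_sub_cancel_left]; linarith [hy i]))) (hO.lam_pos i).le
    linarith
  have a3 := b2 _ (by positivity) a2
  have a4 : (6 * θ + 2 * (ν * ‖A‖)) ^ 2 ≤ 72 * θ + 8 * (ν * ‖A‖ ^ 2) := by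
    have c1 : ν * (ν * ‖A‖ ^ 2) ≤ 1 * (ν * ‖A‖ ^ 2) :=
      mul_le_mul_of_nonneg_right (by linarith) (by positivity)
    nlinarith [sq_nonneg (6 * θ - 2 * (ν * ‖A‖))]
  have a5 := mul_le_mul_of_nonneg_left a4 hK.le
  have a6 := mul_le_mul_of_nonneg_right (show 16 * (K * ν) ≤ 1 by linarith) (sq_nonneg ‖A‖)
  exact (sq_le_sq₀ n0 hρ.le).1 (by linarith)

end Pool.Agent.MP_02cac4_co.Sp

end

namespace Pool.Agent.MP_02cac4_co.Sp

theorem glob_all (d : ℕ) : SGlob d :=
  sGlob d (sRig d (sCov d (sVol d)) (sRidge d)) (sLoc d (sDet d) (sForm d))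

end Pool.Agent.MP_02cac4_co.Sp
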