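import Pool.Agent.MP_02cac4_co.Sp.St

set_option autoImplicit false

section
namespace Pool.Agent.MP_02cac4_co.Sp

open Finset MeasureTheory
open scoped RealInnerProductSpace

def q0_Fam (N j : ℕ) : ℕ := if 4 ≤ N ∧ j + 1 = N then 1 else 0
def q1_Fam (N j : ℕ) : ℕ := if N ≤ 3 then 1 else if j + 1 = N then 2 else j
def q2_Fam (N : ℕ) : ℕ := if N ≤ 3 then 2 else N - 1
def q3_Fam (N j : ℕ) : ℕ := if N = 2 then 5 else if N = 3 ∧ j = 2 then 4 else N
noncomputable def al_Fam (N j : ℕ) : ℝ := if N = 2 ∨ (4 ≤ N ∧ j + 1 ≠ N) then 1 / 2 else 0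
def s_Fam (i p : ℕ) : ℝ := if p = i then 1 else 0

def Y_Fam (N j p : ℕ) : ℝ :=
  s_Fam (q0_Fam N j) p + s_Fam (q1_Fam N j) p - s_Fam (q2_Fam N) p - s_Fam (q3_Fam N j) p

noncomputable def V_Fam (N j p : ℕ) : ℝ :=
  Y_Fam N j p + al_Fam N j * (s_Fam (q0_Fam N j) p - s_Fam (q1_Fam N j) p) +
    (1 / 2 - al_Fam N j) * (s_Fam (q2_Fam N) p - s_Fam (q3_Fam N j) p)

noncomputable def S_Fam (N j p p' : ℕ) : ℝ :=
  Y_Fam N j p * V_Fam N j p' - V_Fam N j p * Y_Fam N j p'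

lemma mono_Fam {N j : ℕ} (h : j ∈ Ico 1 N) : q0_Fam N j < q1_Fam N j ∧ q1_Fam N j < q2_Fam N ∧
    q2_Fam N < q3_Fam N j ∧ q3_Fam N j ≤ max N 5 := by
  rw [mem_Ico] at h
  unfold q0_Fam q1_Fam q2_Fam q3_Fam
  split_ifs <;> omega

lemma inj_Fam {N j N' j' : ℕ} (h : j ∈ Ico 1 N) (h' : j' ∈ Ico 1 N')
    (h0 : q0_Fam N j = q0_Fam N' j') (h1 : q1_Fam N j = q1_Fam N' j') (h2 : q2_Fam N = q2_Fam N')
    (h3 : q3_Fam N j = q3_Fam N' j') : N = N' ∧ j = j' := by
  rw [mem_Ico] at h h'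
  unfold q0_Fam at h0
  unfold q1_Fam at h1
  unfold q2_Fam at h2
  unfold q3_Fam at h3
  split_ifs at h0 h1 h2 h3 <;> omega

lemma out_Fam {N j p : ℕ} (h : j ∈ Ico 1 N) (hp : q3_Fam N j < p) (p' : ℕ) :
    S_Fam N j p p' = 0 ∧ S_Fam N j p' p = 0 := by
  obtain ⟨a, b, c, -⟩ := mono_Fam h
  have e : ∀ i, i < p → s_Fam i p = 0 := fun i hi => if_neg (by omega)
  have h1 : Y_Fam N j p = 0 := by
    rw [Y_Fam, e _ hp, e _ (by omega), e _ (by omega), e _ (by omega)]; ring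
  have h2 : V_Fam N j p = 0 := by
    rw [V_Fam, h1, e _ hp, e _ (by omega), e _ (by omega), e _ (by omega)]; ring
  simp [S_Fam, h1, h2]

lemma top1_Fam {M j : ℕ} (hM : 5 ≤ M) (h : j ∈ Ico 1 (M + 1)) :
    S_Fam (M + 1) j (M + 1) M = if j = M then -1 else 0 := by
  rw [mem_Ico] at h
  have e2 : q2_Fam (M + 1) = M := by unfold q2_Fam; split_ifs <;> omega
  have e3 : q3_Fam (M + 1) j = M + 1 := by unfold q3_Fam; split_ifs <;> omega
  by_cases hj : j = M
  · have e0 : q0_Fam (M + 1) j = 1 := by unfold q0_Fam; split_ifs <;> omega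
    have e1 : q1_Fam (M + 1) j = 2 := by unfold q1_Fam; split_ifs <;> omega
    have ea : al_Fam (M + 1) j = 0 := if_neg (by omega)
    simp only [S_Fam, V_Fam, Y_Fam, e0, e1, e2, e3, ea, s_Fam, if_pos hj]
    split_ifs <;> first | omega | contradiction | norm_num
  · have e0 : q0_Fam (M + 1) j = 0 := by unfold q0_Fam; split_ifs <;> omega
    have e1 : q1_Fam (M + 1) j = j := by unfold q1_Fam; split_ifs <;> omega
    have ea : al_Fam (M + 1) j = 1 / 2 := if_pos (by omega)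
    simp only [S_Fam, V_Fam, Y_Fam, e0, e1, e2, e3, ea, s_Fam, if_neg hj]
    split_ifs <;> first | omega | contradiction | norm_num

lemma top2_Fam {M j i : ℕ} (hM : 5 ≤ M) (h : j ∈ Ico 1 M) (hi : i ∈ Ico 1 M) :
    S_Fam (M + 1) j (M + 1) i = if j = i then 1 / 2 else 0 := by
  rw [mem_Ico] at h hi
  have e2 : q2_Fam (M + 1) = M := by unfold q2_Fam; split_ifs <;> omega
  have e3 : q3_Fam (M + 1) j = M + 1 := by unfold q3_Fam; split_ifs <;> omega
  have e0 : q0_Fam (M + 1) j = 0 := by unfold q0_Fam; split_ifs <;> omega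
  have e1 : q1_Fam (M + 1) j = j := by unfold q1_Fam; split_ifs <;> omega
  have ea : al_Fam (M + 1) j = 1 / 2 := if_pos (by omega)
  simp only [S_Fam, V_Fam, Y_Fam, e0, e1, e2, e3, ea, s_Fam]
  split_ifs <;> first | omega | contradiction | norm_num

lemma base_Fam (C : ℕ → ℕ → ℝ)
    (h : ∀ p p', ∑ N ∈ range (5 + 1), ∑ j ∈ Ico 1 N, C N j * S_Fam N j p p' = 0) :
    ∀ N ≤ 5, ∀ j ∈ Ico 1 N, C N j = 0 := by
  have g : ∀ p p', C 2 1 * S_Fam 2 1 p p' + (C 3 1 * S_Fam 3 1 p p' + C 3 2 * S_Fam 3 2 p p') +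
      (C 4 1 * S_Fam 4 1 p p' + C 4 2 * S_Fam 4 2 p p' + C 4 3 * S_Fam 4 3 p p') +
      (C 5 1 * S_Fam 5 1 p p' + C 5 2 * S_Fam 5 2 p p' + C 5 3 * S_Fam 5 3 p p' +
        C 5 4 * S_Fam 5 4 p p') = 0 := by
    intro p p'
    simpa [sum_range_succ, sum_Ico_succ_top] using h p p'
  have a1 := g 1 2
  have a2 := g 1 3
  have a3 := g 1 4
  have a4 := g 1 5
  have a5 := g 2 3
  have a6 := g 2 4
  have a7 := g 2 5
  have a8 := g 3 4
  have a9 := g 3 5
  have a10 := g 4 5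
  norm_num [S_Fam, V_Fam, Y_Fam, s_Fam, al_Fam, q0_Fam, q1_Fam, q2_Fam, q3_Fam]
    at a1 a2 a3 a4 a5 a6 a7 a8 a9 a10
  intro N hN j hj
  rw [mem_Ico] at hj
  obtain ⟨h1, h2⟩ := hj
  interval_cases N <;> interval_cases j <;> linarith

lemma ind_Fam (C : ℕ → ℕ → ℝ) (M : ℕ) (hM : 5 ≤ M) :
    (∀ p p', ∑ N ∈ range (M + 1), ∑ j ∈ Ico 1 N, C N j * S_Fam N j p p' = 0) →
    ∀ N ≤ M, ∀ j ∈ Ico 1 N, C N j = 0 := by
  induction M, hM using Nat.le_induction with
  | base => exact base_Fam C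
  | succ M hM ih =>
    intro h
    have h1 : ∀ p', ∑ j ∈ Ico 1 (M + 1), C (M + 1) j * S_Fam (M + 1) j (M + 1) p' = 0 := by
      intro p'
      have := h (M + 1) p'
      rwa [sum_range_succ, sum_eq_zero fun N hN => sum_eq_zero fun j hj => by
        have := (mono_Fam hj).2.2.2
        rw [mem_range] at hN
        rw [(out_Fam hj (by omega) p').1, mul_zero], zero_add] at this
    have h2 : C (M + 1) M = 0 := by
      have := h1 M
      rw [sum_congr rfl fun j hj => by rw [top1_Fam hM hj]] at this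
      simpa [show 1 ≤ M by omega] using this
    have h3 : ∀ i ∈ Ico 1 (M + 1), C (M + 1) i = 0 := by
      intro i hi
      rcases (Nat.lt_succ_iff.1 (mem_Ico.1 hi).2).eq_or_lt with rfl | h4
      · exact h2
      have hi' : i ∈ Ico 1 M := mem_Ico.2 ⟨(mem_Ico.1 hi).1, h4⟩
      have := h1 i
      rw [sum_Ico_succ_top (by omega), h2, zero_mul, add_zero,
        sum_congr rfl fun j hj => by rw [top2_Fam hM hj hi']] at this
      simpa [hi'] using this
    intro N hN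
    rcases hN.eq_or_lt with rfl | h4
    · exact h3
    refine ih (fun p p' => ?_) N (by omega)
    have := h p p'
    rwa [sum_range_succ, sum_eq_zero (s := Ico 1 (M + 1)) fun j hj => by rw [h3 j hj, zero_mul],
      add_zero] at this

def P_Fam (d : ℕ) : Finset (Σ _ : ℕ, ℕ) :=
  ((range (d + 5 + 1)).sigma fun N => Ico 1 N).filter fun x => q3_Fam x.1 x.2 ≤ d

lemma cnt_Fam (d : ℕ) : 2 * ∑ N ∈ range (d + 1), (N - 1) + d = d ^ 2 := by
  induction d with
  | zero => rfl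
  | succ d ih => rw [sum_range_succ, Nat.add_sub_cancel]; nlinarith

lemma card_Fam {d k : ℕ} (h1 : 2 * k + d ≤ d ^ 2) (h2 : d * (d + 1) + 2 * k + 2 ≤ 2 ^ (d + 1)) :
    k ≤ (P_Fam d).card := by
  rcases le_or_gt 5 d with hd | hd
  · have h3 : ((range (d + 1)).sigma fun N => Ico 1 N) ⊆ P_Fam d := by
      intro x hx
      obtain ⟨a, b⟩ := mem_sigma.1 hx
      have := (mono_Fam b).2.2.2
      rw [mem_range] at a
      exact mem_filter.2 ⟨mem_sigma.2 ⟨mem_range.2 (by omega), b⟩, by omega⟩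
    have h4 := card_le_card h3
    rw [card_sigma] at h4
    simp only [Nat.card_Ico] at h4
    have := cnt_Fam d
    omega
  · have a3 : (P_Fam 3).card = 1 := by decide
    have a4 : (P_Fam 4).card = 5 := by decide
    interval_cases d <;> omega

theorem sFam (d : Nat) : SFam d := by
  intro k h1 h2
  classical
  obtain ⟨e⟩ : Nonempty (Fin k ↪ P_Fam d) :=
    Function.Embedding.nonempty_of_card_le (by simpa using card_Fam h1 h2)
  have hT : ∀ t, (e t).1 ∈ (range (d + 5 + 1)).sigma fun N => Ico 1 N :=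
    fun t => (mem_filter.1 (e t).2).1
  have hI : ∀ t, (e t).1.2 ∈ Ico 1 (e t).1.1 := fun t => (mem_sigma.1 (hT t)).2
  have h3 : ∀ t, q3_Fam (e t).1.1 (e t).1.2 ≤ d := fun t => (mem_filter.1 (e t).2).2
  have hm := fun t => mono_Fam (hI t)
  refine ⟨⟨fun t => ![⟨q0_Fam (e t).1.1 (e t).1.2, by have := hm t; have := h3 t; omega⟩,
    ⟨q1_Fam (e t).1.1 (e t).1.2, by have := hm t; have := h3 t; omega⟩,
    ⟨q2_Fam (e t).1.1, by have := hm t; have := h3 t; omega⟩,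
    ⟨q3_Fam (e t).1.1 (e t).1.2, by have := h3 t; omega⟩],
    fun t => al_Fam (e t).1.1 (e t).1.2, fun t => 1 / 2 - al_Fam (e t).1.1 (e t).1.2⟩,
    fun t => ?_, fun t t' h => ?_, fun t => ?_, fun t => ?_, fun c hc => ?_⟩
  · refine Fin.strictMono_iff_lt_succ.2 fun i => ?_
    fin_cases i
    exacts [(hm t).1, (hm t).2.1, (hm t).2.2.1]
  · obtain ⟨a, b⟩ := inj_Fam (hI t) (hI t') (congrArg Fin.val (congrFun h 0))
      (congrArg Fin.val (congrFun h 1)) (congrArg Fin.val (congrFun h 2))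
      (congrArg Fin.val (congrFun h 3))
    exact e.injective (Subtype.ext (Sigma.ext a (heq_of_eq b)))
  · change |al_Fam _ _| ≤ 1 / 2
    unfold al_Fam
    split_ifs <;> norm_num [abs_of_nonneg]
  · change |1 / 2 - al_Fam _ _| ≤ 1 / 2
    unfold al_Fam
    split_ifs <;> norm_num [abs_of_nonneg]
  · have hs : ∀ (i p : ℕ) (hi : i < d + 1) (hp : p < d + 1), sg ⟨i, hi⟩ ⟨p, hp⟩ = s_Fam i p :=
      fun i p hi hp => by simp [sg, s_Fam]
    have h4 : ∀ p p', ∑ t, c t * S_Fam (e t).1.1 (e t).1.2 p p' = 0 := by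
      intro p p'
      rcases lt_or_ge d p with hp | hp
      · exact sum_eq_zero fun t _ => by rw [(out_Fam (hI t) ((h3 t).trans_lt hp) p').1, mul_zero]
      rcases lt_or_ge d p' with hp' | hp'
      · exact sum_eq_zero fun t _ => by rw [(out_Fam (hI t) ((h3 t).trans_lt hp') p).2, mul_zero]
      rw [← hc ⟨p, by omega⟩ ⟨p', by omega⟩]
      refine sum_congr rfl fun t _ => ?_
      simp only [Fam.V, Fam.Y, S_Fam, V_Fam, Y_Fam, Matrix.cons_val_zero, Matrix.cons_val_one,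
        Matrix.cons_val, hs]
    have h5 := ind_Fam (fun N j => ∑ t with (e t).1 = ⟨N, j⟩, c t) (d + 5) (by omega) fun p p' => by
      rw [← h4 p p', ← sum_fiberwise_of_maps_to (fun t _ => hT t), sum_sigma]
      refine sum_congr rfl fun N _ => sum_congr rfl fun j _ => ?_
      rw [sum_mul]
      exact sum_congr rfl fun t ht => by rw [(mem_filter.1 ht).2]
    funext t
    have h6 := h5 (e t).1.1 (Nat.lt_succ_iff.1 (mem_range.1 (mem_sigma.1 (hT t)).1)) _ (hI t)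
    refine Eq.trans (Eq.symm ?_) h6
    exact sum_eq_single_of_mem t (mem_filter.2 ⟨mem_univ _, rfl⟩) fun t' ht' hne =>
      absurd (e.injective (Subtype.ext (mem_filter.1 ht').2)) hne

end Pool.Agent.MP_02cac4_co.Sp

end

section
namespace Pool.Agent.MP_02cac4_co.Sp

open Finset MeasureTheory
open scoped RealInnerProductSpace

variable {d : ℕ}

theorem sum_rt_Par (h : Fin (d + 1) → Fin (d + 1) → ℝ) (hh : ∀ i j, h j i = -h i j)
    (p : Fin (d + 1)) :
    ∑ a : Rt d, h a.1.1 a.1.2 * (sg a.1.1 p - sg a.1.2 p) = ∑ j, h p j := by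
  have e1 : ∑ a : Rt d, h a.1.1 a.1.2 * (sg a.1.1 p - sg a.1.2 p) =
      ∑ q : Fin (d + 1) × Fin (d + 1),
        if q.1 < q.2 then h q.1 q.2 * (sg q.1 p - sg q.2 p) else 0 := by
    rw [← sum_filter]
    exact (sum_subtype (p := fun q : Fin (d + 1) × Fin (d + 1) => q.1 < q.2) _ (by simp)
      (fun q => h q.1 q.2 * (sg q.1 p - sg q.2 p))).symm
  have e2 : ∀ i j, (if i < j then h i j * (sg i p - sg j p) else 0) =
      sg i p * (if i < j then h i j else 0) - sg j p * (if i < j then h i j else 0) := by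
    intro i j; split_ifs <;> ring
  have e3 : ∀ f : Fin (d + 1) → ℝ, ∑ i, sg i p * f i = f p := fun f => by simp [sg]
  rw [e1, Fintype.sum_prod_type]
  simp only [e2, sum_sub_distrib, ← mul_sum, e3]
  rw [← sum_sub_distrib]
  refine sum_congr rfl fun j _ => ?_
  rcases lt_trichotomy p j with h1 | h1 | h1
  · rw [if_pos h1, if_neg h1.not_gt, sub_zero]
  · subst h1
    have := hh p p
    rw [if_neg (lt_irrefl p)]; linarith
  · rw [if_neg h1.not_gt, if_pos h1, hh p j]; ring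

theorem gs_Par : ∃ Gs : Op d, (∀ u x, ⟪u, Gs x⟫ = bs u x) ∧ ‖Gs‖ ≤ d + 1 := by
  let o : Ed d := WithLp.toLp 2 fun _ => 1
  have ho : ∀ u : Ed d, ⟪o, u⟫ = ∑ i, u i := fun u => by simp [o, PiLp.inner_apply]
  refine ⟨1 + (innerSL ℝ o).smulRight o, fun u x => ?_, ?_⟩
  · have : (1 + (innerSL ℝ o).smulRight o : Op d) x = x + ⟪o, x⟫ • o := rfl
    rw [this, inner_add_right, inner_smul_right, real_inner_comm, real_inner_comm o u, ho, ho, bs,
      Fin.sum_univ_succ, ext_zero, ext_zero]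
    simp only [ext_succ, PiLp.inner_apply, RCLike.inner_apply, conj_trivial]
    ring
  · refine (norm_add_le _ _).trans ?_
    rw [ContinuousLinearMap.norm_smulRight_apply, innerSL_apply_norm]
    have h1 : ‖(1 : Op d)‖ ≤ 1 := ContinuousLinearMap.norm_id_le
    have h2 : ‖o‖ * ‖o‖ = d := by
      rw [← real_inner_self_eq_norm_mul_norm, ho]; simp [o]
    linarith

theorem pert_Par (G0 P : Op d) (ν : ℝ) (hν : 0 < ν) :
    ∃ τ > (0 : ℝ), ∃ U : Op d, ‖G0 * U - G0‖ ≤ ν ∧ (1 + τ • P) * U = 1 := by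
  have c1 : Filter.Tendsto (fun τ : ℝ => (1 : Op d) + τ • P) (nhds 0)
      (nhds ((1 : (Op d)ˣ) : Op d)) := by
    have : Continuous (fun τ : ℝ => (1 : Op d) + τ • P) := by fun_prop
    have h0 : (1 : Op d) + (0 : ℝ) • P = ((1 : (Op d)ˣ) : Op d) := by
      ext1 x
      show x + (0 : ℝ) • P x = x
      rw [zero_smul, add_zero]
    exact h0 ▸ this.tendsto 0
  have c2 := (NormedRing.inverse_continuousAt (1 : (Op d)ˣ)).tendsto.comp c1
  have c3 : Filter.Tendsto (fun τ : ℝ => ‖G0 * Ring.inverse ((1 : Op d) + τ • P) - G0‖) (nhds 0)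
      (nhds 0) := by
    have := ((c2.const_mul G0).sub_const G0).norm
    simpa using this
  have e1 := c3.eventually (ge_mem_nhds hν)
  have e2 := c1.eventually (Units.nhds (1 : (Op d)ˣ))
  obtain ⟨τ, ⟨h1, h2⟩, h3⟩ := (((e1.and e2).filter_mono
    (nhdsWithin_le_nhds (s := Set.Ioi (0 : ℝ)))).and self_mem_nhdsWithin).exists
  exact ⟨τ, h3, _, h1, Ring.mul_inverse_cancel _ h2⟩

theorem inv_Par (ω x : Ed d) (e e' : ℝ) (he : e * (1 + e' * bs ω ω) = e') (p : Fin (d + 1)) :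
    ∑ j, (1 / ((d : ℝ) + 1) - e' * (ext ω p * ext ω j)) *
      (ext x p - ext x j - e * (bs ω x * (ext ω p - ext ω j))) = ext x p := by
  have hd : (d : ℝ) + 1 ≠ 0 := by positivity
  have e1 : ∀ j, (1 / ((d : ℝ) + 1) - e' * (ext ω p * ext ω j)) *
      (ext x p - ext x j - e * (bs ω x * (ext ω p - ext ω j))) =
      1 / ((d : ℝ) + 1) * (ext x p - e * bs ω x * ext ω p) - 1 / ((d : ℝ) + 1) * ext x j +
      (1 / ((d : ℝ) + 1) * e * bs ω x - e' * ext ω p * (ext x p - e * bs ω x * ext ω p)) * ext ω j +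
      e' * ext ω p * (ext ω j * ext x j) - e' * ext ω p * e * bs ω x * (ext ω j * ext ω j) :=
    fun j => by ring
  simp only [e1, sum_add_distrib, sum_sub_distrib, ← mul_sum, sum_ext, sum_const, card_univ,
    Fintype.card_fin, nsmul_eq_mul]
  have h1 : ∑ j, ext ω j * ext x j = bs ω x := rfl
  have h2 : ∑ j, ext ω j * ext ω j = bs ω ω := rfl
  rw [h1, h2]
  push_cast
  field_simp
  linear_combination (-(((d : ℝ) + 1) * ext ω p * bs ω x)) * he

theorem sPar (d : Nat) : SPar d := by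
  intro J _ F hF η hη
  obtain ⟨Gs, hGs, nGs⟩ := gs_Par (d := d)
  obtain ⟨ω, c0, hω⟩ := ex_ext (d := d) fun p => ((p : ℕ) : ℝ)
  have hlt : ∀ i j : Fin (d + 1), i < j → ext ω i - ext ω j ≤ -1 := fun i j h => by
    have : ((i : ℕ) : ℝ) + 1 ≤ (j : ℕ) := by exact_mod_cast h
    rw [hω, hω]; linarith
  set w := Gs ω with hw
  have hwx : ∀ x, ⟪w, x⟫ = bs ω x := fun x => by rw [real_inner_comm, hw, hGs, bs_comm]
  have hs : 0 ≤ bs ω ω := (sq_nonneg _).trans (norm_sq_le_bs ω)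
  have hd0 : (0 : ℝ) ≤ d := Nat.cast_nonneg d
  obtain ⟨e', he0, he1, he2, he3⟩ : ∃ e' : ℝ, 0 < e' ∧
      e' * (((d : ℝ) + 1) * ‖ω‖) ^ 2 ≤ 1 / (2 * ((d : ℝ) + 1)) ∧ e' * ‖w‖ ^ 2 ≤ 1 / 2 ∧
      e' * ‖w‖ ^ 2 ≤ η := by
    set m := min (1 / (2 * ((d : ℝ) + 1))) η with hm
    have m0 : 0 < m := lt_min (by positivity) hη
    have m1 : m ≤ 1 / (2 * ((d : ℝ) + 1)) := min_le_left _ _
    have m2 : m ≤ η := min_le_right _ _
    have m3 : 1 / (2 * ((d : ℝ) + 1)) ≤ 1 / 2 :=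
      one_div_le_one_div_of_le (by norm_num) (by linarith)
    have hB : 0 < 1 + (((d : ℝ) + 1) * ‖ω‖) ^ 2 + ‖w‖ ^ 2 := by positivity
    have k : ∀ z : ℝ, z ≤ 1 + (((d : ℝ) + 1) * ‖ω‖) ^ 2 + ‖w‖ ^ 2 →
        m / (1 + (((d : ℝ) + 1) * ‖ω‖) ^ 2 + ‖w‖ ^ 2) * z ≤ m := fun z hz => by
      rw [div_mul_eq_mul_div, div_le_iff₀ hB]
      exact mul_le_mul_of_nonneg_left hz m0.le
    have k1 := k ((((d : ℝ) + 1) * ‖ω‖) ^ 2) (by linarith [sq_nonneg ‖w‖])
    have k2 := k (‖w‖ ^ 2) (by linarith [sq_nonneg (((d : ℝ) + 1) * ‖ω‖)])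
    exact ⟨_, div_pos m0 hB, k1.trans m1, k2.trans (m1.trans m3), k2.trans m2⟩
  have hden : 0 < 1 + e' * bs ω ω := by positivity
  obtain ⟨e, e0, ele, he⟩ : ∃ e : ℝ, 0 < e ∧ e ≤ e' ∧ e * (1 + e' * bs ω ω) = e' :=
    ⟨e' / (1 + e' * bs ω ω), div_pos he0 hden,
      div_le_self he0.le (by linarith [mul_nonneg he0.le hs]), div_mul_cancel₀ _ hden.ne'⟩
  have ew : e * ‖w‖ ^ 2 ≤ e' * ‖w‖ ^ 2 := mul_le_mul_of_nonneg_right ele (sq_nonneg _)
  let G0 : Op d := Gs - e • (innerSL ℝ w).smulRight w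
  have hG : ∀ u x, ⟪u, G0 x⟫ = bs u x - e * (bs ω x * bs u ω) := fun u x => by
    have : G0 x = Gs x - e • (⟪w, x⟫ • w) := rfl
    rw [this, inner_sub_right, inner_smul_right, inner_smul_right, hGs, hwx, hw, hGs]
  have hb : ∀ u x, |bs ω x * bs u ω| ≤ ‖w‖ ^ 2 * (‖u‖ * ‖x‖) := fun u x => by
    rw [bs_comm u ω, ← hwx, ← hwx, abs_mul]
    calc _ ≤ (‖w‖ * ‖x‖) * (‖w‖ * ‖u‖) :=
          mul_le_mul (abs_real_inner_le_norm _ _) (abs_real_inner_le_norm _ _) (abs_nonneg _)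
            (by positivity)
      _ = _ := by ring
  have hc : ∀ u x, |e * (bs ω x * bs u ω)| ≤ e' * ‖w‖ ^ 2 * (‖u‖ * ‖x‖) := fun u x => by
    rw [abs_mul, abs_of_pos e0, mul_assoc e']
    exact mul_le_mul ele (hb u x) (abs_nonneg _) he0.le
  have hl : ∀ i j, |e' * (ext ω i * ext ω j)| ≤ 1 / (2 * ((d : ℝ) + 1)) := fun i j => by
    rw [abs_mul, abs_of_pos he0, abs_mul]
    refine le_trans (mul_le_mul_of_nonneg_left ?_ he0.le) he1
    rw [sq]
    exact mul_le_mul (abs_ext_le_norm ω i) (abs_ext_le_norm ω j) (abs_nonneg _) (by positivity)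
  have h2 : 1 / ((d : ℝ) + 1) = 2 * (1 / (2 * ((d : ℝ) + 1))) := by field_simp
  have hinv : ∀ x, ∑ a : Rt d, ((1 / ((d : ℝ) + 1) - e' * (ext ω a.1.1 * ext ω a.1.2)) *
      ⟪lz (rt a), G0 x⟫) • lz (rt a) = x := fun x => by
    ext k
    have e1 : ∀ a : Rt d, lz (rt a) k = sg a.1.1 k.succ - sg a.1.2 k.succ := fun a =>
      ext_rt a k.succ
    simp only [WithLp.ofLp_sum, Finset.sum_apply, PiLp.smul_apply, smul_eq_mul, e1, hG, bs_rt]
    rw [sum_rt_Par (fun i j => (1 / ((d : ℝ) + 1) - e' * (ext ω i * ext ω j)) *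
      (ext x i - ext x j - e * (bs ω x * (ext ω i - ext ω j)))) (fun i j => by ring)]
    exact inv_Par ω x e e' he k.succ
  refine ⟨fun a => 1 / ((d : ℝ) + 1) - e' * (ext ω a.1.1 * ext ω a.1.2), G0, e, e0,
    ⟨fun a => ?_, fun a => ?_, fun x y => ?_, hinv, fun x => ?_, ?_⟩, fun u x => ?_,
    fun t a ha hb' => ?_, fun ν hν => ?_⟩
  · linarith [(abs_le.1 (hl a.1.1 a.1.2)).2]
  · have h3 : 1 ≤ d := by
      have h4 : (a.1.1 : ℕ) < a.1.2 := a.2
      have h5 := a.1.2.isLt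
      omega
    have h4 : (1 : ℝ) ≤ d := by exact_mod_cast h3
    have h5 : 1 / (2 * ((d : ℝ) + 1)) ≤ 1 / 4 :=
      one_div_le_one_div_of_le (by norm_num) (by linarith)
    linarith [(abs_le.1 (hl a.1.1 a.1.2)).1]
  · rw [real_inner_comm, hG, hG, bs_comm y x, bs_comm y ω, bs_comm x ω]; ring
  · rw [real_inner_comm, hG]
    have h3 := (abs_le.1 (hc x x)).2
    have h4 := mul_le_mul_of_nonneg_right he2 (mul_self_nonneg ‖x‖)
    have h5 := norm_sq_le_bs x
    rw [sq] at h5 ⊢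
    linarith
  · refine (norm_sub_le _ _).trans ?_
    rw [norm_smul, ContinuousLinearMap.norm_smulRight_apply, innerSL_apply_norm, Real.norm_eq_abs,
      abs_of_pos e0, ← sq]
    linarith
  · rw [hG, sub_sub_cancel_left, abs_neg]
    exact (hc u x).trans (mul_le_mul_of_nonneg_right he3 (by positivity))
  · have m := hF.mono t
    have l01 : F.q t 0 < F.q t 1 := m (by decide)
    have l12 : F.q t 1 < F.q t 2 := m (by decide)
    have l23 : F.q t 2 < F.q t 3 := m (by decide)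
    have l02 := l01.trans l12
    have l13 := l12.trans l23
    have l03 := l02.trans l23
    have z1 : bs (lz (rt a)) (lz (F.yz t) - lz (rt a)) = 0 := by
      rw [bs_rt, ext_sub, ext_sub, F.ext_yz, F.ext_yz, ext_rt, ext_rt]
      rcases ha with ha | ha <;> rcases hb' with hb' | hb' <;>
        simp [ha, hb', Fam.Y, sg, l01.ne, l12.ne, l23.ne, l02.ne, l13.ne, l03.ne, l01.ne',
          l12.ne', l23.ne', l02.ne', l13.ne', l03.ne']
    have z2 : bs (lz (rt a)) ω ≤ -1 := by rw [bs_rt]; exact hlt _ _ a.2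
    have z3 : bs ω (lz (F.yz t) - lz (rt a)) ≤ -1 := by
      rw [← hwx, inner_sub_right, hwx, hwx, bs_comm ω, bs_comm ω, F.bs_yz, bs_rt]
      rcases ha with ha | ha <;> rcases hb' with hb' | hb' <;> rw [ha, hb'] <;>
        linarith [hlt _ _ l02, hlt _ _ l13, hlt _ _ l03, hlt _ _ l12]
    rw [hG, z1]
    have z4 : 1 ≤ bs ω (lz (F.yz t) - lz (rt a)) * bs (lz (rt a)) ω := by nlinarith
    nlinarith
  · let M : Op d := ∑ t, (innerSL ℝ (F.vv t)).smulRight (lz (F.yz t))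
    obtain ⟨τ, hτ, U, h3, h4⟩ := pert_Par G0 (M * G0) ν hν
    refine ⟨τ, hτ, G0 * U, h3, fun x => ?_⟩
    have h5 : U x + τ • M (G0 (U x)) = x := congrArg (fun T : Op d => T x) h4
    have h6 : M (G0 (U x)) = ∑ t, ⟪F.vv t, G0 (U x)⟫ • lz (F.yz t) := by
      simp only [M, _root_.sum_apply]
      rfl
    rw [h6, smul_sum] at h5
    simp only [smul_smul] at h5
    have h7 : (G0 * U) x = G0 (U x) := rfl
    rw [h7, hinv]
    exact h5

end Pool.Agent.MP_02cac4_co.Sp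

end

section
namespace Pool.Agent.MP_02cac4_co.Sp

open Finset MeasureTheory
open scoped RealInnerProductSpace

theorem dual_Ind {d : ℕ} (p : Fin (d + 1)) : ∃ w : Ed d, ∀ u : Ed d, ⟪u, w⟫ = ext u p := by
  have h : ∀ (u : Ed d) (k : Fin d), ⟪u, ee k⟫ = u k := fun u k => by
    simp [ee, EuclideanSpace.inner_single_right]
  refine Fin.cases ⟨-∑ k, ee k, fun u => ?_⟩ (fun k => ⟨ee k, fun u => h u k⟩) p
  simp only [inner_neg_right, inner_sum, h, ext_zero]

theorem root_Ind {d : ℕ} (c : Rt d → ℝ) (a : Rt d) :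
    ∑ b, c b * (ext (lz (rt b)) a.1.1 * ext (lz (rt b)) a.1.2) = -c a := by
  have ha := a.2
  rw [sum_eq_single a (fun b _ hb => ?_) (by simp)]
  · simp [ext_rt, sg, ha.ne, ha.ne']
  · have hb' := b.2
    have : ¬(a.1.1 = b.1.1 ∧ a.1.2 = b.1.2) := fun h => hb (Subtype.ext (Prod.ext h.1 h.2)).symm
    simp only [ext_rt, sg]
    split_ifs <;> first | omega | simp

theorem sInd (d : ℕ) : SInd d := by
  intro J _ F hF t
  classical
  let Φ : Op d →ₗ[ℝ] Rt d ⊕ J → ℝ :=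
    { toFun := fun Z i => ⟪F.uu i, Z (lz (F.yy i))⟫
      map_add' := fun Z Z' => funext fun i => by simp [inner_add_right]
      map_smul' := fun c Z => funext fun i => by simp [inner_smul_right] }
  suffices h : LinearMap.range Φ = ⊤ by
    obtain ⟨Z, hZ⟩ := LinearMap.range_eq_top.1 h t
    exact ⟨Z, congrFun hZ⟩
  by_contra h
  obtain ⟨f, f0, hf⟩ := Submodule.exists_le_ker_of_lt_top _ (lt_top_iff_ne_top.2 h)
  obtain ⟨c, hc⟩ : ∃ c : Rt d ⊕ J → ℝ, ∀ v, f v = ∑ i, c i * v i :=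
    ⟨fun i => f fun j => if i = j then 1 else 0, fun v => by
      rw [LinearMap.pi_apply_eq_sum_univ]
      simp only [smul_eq_mul, mul_comm]⟩
  have e : ∀ p p', ∑ a, c (.inl a) * (ext (lz (rt a)) p * ext (lz (rt a)) p') +
      ∑ s, c (.inr s) * (F.V s p * F.Y s p') = 0 := fun p p' => by
    obtain ⟨w, hw⟩ := dual_Ind p
    obtain ⟨w', hw'⟩ := dual_Ind p'
    have h1 : f (Φ ((innerSL ℝ w').smulRight w)) = 0 := hf ⟨_, rfl⟩
    have h2 : ∀ i, Φ ((innerSL ℝ w').smulRight w) i = ext (F.uu i) p * ext (lz (F.yy i)) p' :=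
      fun i => by
        rw [← hw, ← hw', real_inner_comm w', mul_comm]
        exact real_inner_smul_right (F.uu i) w _
    simpa only [hc, h2, Fintype.sum_sum_type, Fam.uu, Fam.yy, Sum.elim_inl, Sum.elim_inr,
      F.ext_vv, F.ext_yz] using h1
  have e1 := hF.ind (fun s => c (.inr s)) fun p p' => by
    have h1 := e p p'
    have h2 := e p' p
    simp only [mul_sub, sum_sub_distrib, mul_comm (F.Y _ p), mul_comm (ext _ p')] at h2 ⊢
    linarith
  have e2 : ∀ a, c (.inl a) = 0 := fun a => by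
    have h1 := e a.1.1 a.1.2
    simp only [root_Ind, show ∀ s, c (.inr s) = 0 from congrFun e1, zero_mul, sum_const_zero] at h1
    linarith
  refine f0 (LinearMap.ext fun v => ?_)
  simp [hc, Fintype.sum_sum_type, e2, show ∀ s, c (.inr s) = 0 from congrFun e1]

end Pool.Agent.MP_02cac4_co.Sp

end

section
namespace Pool.Agent.MP_02cac4_co.Sp

open Finset MeasureTheory
open scoped RealInnerProductSpace

theorem alg_Ph {D b P S η n M : ℝ} (hb : 2 ≤ b) (h1 : |D - b| ≤ 6 * η) (hη : η ≤ 1 / 12)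
    (h2 : |P - S| ≤ 3 * η * n) (h3 : |S| ≤ M * n) :
    |2 / D * P - 2 * S / b| ≤ (6 + 6 * M) * η * n := by
  have hD : 1 ≤ D := by linarith [(abs_le.1 h1).1]
  have e : 2 / D * P - 2 * S / b = (2 * (P - S) - 2 / b * (S * (D - b))) / D := by
    field_simp
    ring
  have h4 : |S * (D - b)| ≤ M * n * (6 * η) := by
    rw [abs_mul]
    exact mul_le_mul h3 h1 (abs_nonneg _) ((abs_nonneg _).trans h3)
  have h5 : |2 / b * (S * (D - b))| ≤ |S * (D - b)| := by
    rw [abs_mul (2 / b), abs_of_pos (by positivity : 0 < 2 / b)]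
    exact mul_le_of_le_one_left (abs_nonneg _) ((div_le_one (by linarith)).2 hb)
  rw [e, abs_div, abs_of_pos (by linarith : 0 < D)]
  refine (div_le_self (abs_nonneg _) hD).trans ((abs_sub _ _).trans ?_)
  rw [abs_mul, abs_two]
  linarith

theorem sPh (d : Nat) : SPh d := by
  refine ⟨6 + 6 * (4 * (d + 1)), by positivity, fun J _ F hF G η h0 h1 hG => ?_⟩
  have s : ∀ t (i j : Fin 4), sg (F.q t i) (F.q t j) = if j = i then 1 else 0 := fun t i j => by
    simp only [sg, (hF.mono t).injective.eq_iff]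
  have r : ∀ a : Rt d, bs (lz (rt a)) (lz (rt a)) = 2 := fun a => by
    rw [bs_rt, ext_rt, ext_rt]
    simp [sg, a.2.ne, a.2.ne']
    norm_num
  have y1 : ∀ t, bs (lz (F.yz t)) (lz (F.yz t)) = 4 := fun t => by
    simp only [F.bs_yz, F.ext_yz, Fam.Y, s]
    simp
    norm_num
  have y2 : ∀ t, bs (F.vv t) (lz (F.yz t)) = 4 := fun t => by
    simp only [F.bs_vv, F.ext_yz, Fam.Y, s]
    simp
    ring
  have y3 : ∀ t, bs (F.vv t) (F.vv t) ≤ 9 := fun t => by
    simp only [F.bs_vv, F.ext_vv, Fam.V, Fam.Y, s]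
    simp
    nlinarith [abs_le.1 (hF.ha t), abs_le.1 (hF.hb t)]
  have hn : ∀ i, ‖lz (F.yy i)‖ ≤ 2 ∧ ‖F.uu i‖ ≤ 3 := by
    rintro (a | t)
    · have := (norm_sq_le_bs _).trans_eq (r a)
      have h : ‖lz (rt a)‖ ≤ 2 := by nlinarith [norm_nonneg (lz (rt a))]
      exact ⟨h, h.trans (by norm_num)⟩
    · have p1 := (norm_sq_le_bs _).trans_eq (y1 t)
      have p2 := (norm_sq_le_bs _).trans (y3 t)
      exact ⟨(by nlinarith [norm_nonneg (lz (F.yz t))] : ‖lz (F.yz t)‖ ≤ 2),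
        (by nlinarith [norm_nonneg (F.vv t)] : ‖F.vv t‖ ≤ 3)⟩
  have hd : ∀ i, |F.den G i - bs (F.uu i) (lz (F.yy i))| ≤ 6 * η := fun i =>
    (hG _ _).trans (by
      nlinarith [mul_le_mul (hn i).2 (hn i).1 (norm_nonneg _) (by norm_num : (0 : ℝ) ≤ 3)])
  have hx : ∀ i x, |⟪F.uu i, G x⟫ - bs (F.uu i) x| ≤ 3 * η * ‖x‖ := fun i x =>
    (hG _ _).trans (by
      nlinarith [mul_le_mul_of_nonneg_right (hn i).2 (mul_nonneg h0 (norm_nonneg x))])
  refine ⟨fun i => ⟨hn i, ?_⟩, fun a x => ?_, fun t x => ?_⟩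
  · have h := abs_le.1 (hd i)
    rcases i with a | t
    · have e : bs (F.uu (Sum.inl a)) (lz (F.yy (Sum.inl a))) = 2 := r a
      constructor <;> linarith
    · have e : bs (F.uu (Sum.inr t)) (lz (F.yy (Sum.inr t))) = 4 := y2 t
      constructor <;> linarith
  · have e : bs (F.uu (Sum.inl a)) (lz (F.yy (Sum.inl a))) = 2 := r a
    have h := alg_Ph (M := 4 * (d + 1)) le_rfl (e ▸ hd (Sum.inl a)) h1 (hx (Sum.inl a) x) (by
      refine (bs_rt a x ▸ abs_sub _ _ : |bs (lz (rt a)) x| ≤ _).trans ?_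
      have : 0 ≤ ((d : ℝ) + 1) * ‖x‖ := by positivity
      linarith [abs_ext_le_norm x a.1.1, abs_ext_le_norm x a.1.2])
    rwa [mul_div_cancel_left₀ _ two_ne_zero] at h
  · have e : bs (F.uu (Sum.inr t)) (lz (F.yy (Sum.inr t))) = 4 := y2 t
    have h := alg_Ph (M := 4 * (d + 1)) (by norm_num) (e ▸ hd (Sum.inr t)) h1 (hx (Sum.inr t) x) (by
      have a := abs_le.1 (hF.ha t)
      have b := abs_le.1 (hF.hb t)
      have c := fun i => abs_le.1 (abs_ext_le_norm x (F.q t i))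
      have m : ∀ {u : ℝ} (i : Fin 4), 0 ≤ u → -(u * ((d + 1) * ‖x‖)) ≤ u * ext x (F.q t i) ∧
          u * ext x (F.q t i) ≤ u * ((d + 1) * ‖x‖) := fun i hu =>
        ⟨by nlinarith [(c i).1], mul_le_mul_of_nonneg_left (c i).2 hu⟩
      have m0 := m (u := 1 + F.α t) 0 (by linarith)
      have m1 := m (u := 1 - F.α t) 1 (by linarith)
      have m2 := m (u := 1 - F.β t) 2 (by linarith)
      have m3 := m (u := 1 + F.β t) 3 (by linarith)
      show |bs (F.vv t) x| ≤ _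
      rw [F.bs_vv, abs_le]
      constructor <;> linarith)
    rwa [show ∀ S : ℝ, 2 * S / 4 = S / 2 from fun S => by ring] at h

end Pool.Agent.MP_02cac4_co.Sp

end

section
/-! The perturbed norm is close to the range norm. -/


namespace Pool.Agent.MP_02cac4_co.Sp

open Finset MeasureTheory
open scoped RealInnerProductSpace

theorem mid_Na {d : ℕ} (x : Ed d) : ∃ m : ℝ, ∀ p, |ext x p - m| ≤ g0 x / 2 := by
  obtain ⟨i, j, h⟩ := ex_g0 x
  exact ⟨(ext x i + ext x j) / 2, fun p =>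
    abs_le.2 ⟨by linarith [le_g0 x i p], by linarith [le_g0 x p j]⟩⟩

theorem bs_add_Na {d : ℕ} (u x y : Ed d) : bs u (x + y) = bs u x + bs u y := by
  simp only [bs, ext_add, mul_add, sum_add_distrib]

theorem bs_smul_Na {d : ℕ} (u : Ed d) (c : ℝ) (x : Ed d) : bs u (c • x) = c * bs u x := by
  simp only [bs, ext_smul, mul_sum]
  exact sum_congr rfl fun p _ => by ring

theorem bs_le_Na {d : ℕ} (u x : Ed d) : |bs u x| ≤ (∑ p, |ext u p|) * (g0 x / 2) := by
  obtain ⟨m, hm⟩ := mid_Na x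
  have e : bs u x = ∑ p, ext u p * (ext x p - m) := by
    simp only [bs, mul_sub, sum_sub_distrib, ← sum_mul, sum_ext, zero_mul, sub_zero]
  rw [e, sum_mul]
  refine (abs_sum_le_sum_abs _ _).trans (sum_le_sum fun p _ => ?_)
  rw [abs_mul]
  exact mul_le_mul_of_nonneg_left (hm p) (abs_nonneg _)

theorem vv_Na {d : ℕ} {J : Type} [Fintype J] {F : Fam d J} (hF : F.Ok) (t : J) (x : Ed d) :
    |bs (F.vv t) x / 2| ≤ g0 x := by
  obtain ⟨m, hm⟩ := mid_Na x
  obtain ⟨a1, a2⟩ := abs_le.1 (hF.ha t)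
  obtain ⟨b1, b2⟩ := abs_le.1 (hF.hb t)
  obtain ⟨p0, q0⟩ := abs_le.1 (hm (F.q t 0))
  obtain ⟨p1, q1⟩ := abs_le.1 (hm (F.q t 1))
  obtain ⟨p2, q2⟩ := abs_le.1 (hm (F.q t 2))
  obtain ⟨p3, q3⟩ := abs_le.1 (hm (F.q t 3))
  have c0 : 0 ≤ 1 + F.α t := by linarith
  have c1 : 0 ≤ 1 - F.α t := by linarith
  have c2 : 0 ≤ 1 - F.β t := by linarith
  have c3 : 0 ≤ 1 + F.β t := by linarith
  rw [F.bs_vv]
  refine abs_le.2 ⟨?_, ?_⟩
  · nlinarith [mul_le_mul_of_nonneg_left p0 c0, mul_le_mul_of_nonneg_left p1 c1,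
      mul_le_mul_of_nonneg_left q2 c2, mul_le_mul_of_nonneg_left q3 c3]
  · nlinarith [mul_le_mul_of_nonneg_left q0 c0, mul_le_mul_of_nonneg_left q1 c1,
      mul_le_mul_of_nonneg_left p2 c2, mul_le_mul_of_nonneg_left p3 c3]

theorem cut_Na {d : ℕ} {J : Type} {F : Fam d J} {z : Fin d → ℤ} (hz : z ∈ F.cuts) {κ : ℝ}
    (hκ : 0 ≤ κ) (x : Ed d) :
    |2 * (1 + κ) * bs (lz z) x / bs (lz z) (lz z)| ≤ (1 + κ) * g0 x := by
  classical
  rw [Fam.cuts, mem_filter] at hz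
  obtain ⟨-, h1, h4, -⟩ := hz
  have e : ∑ p, |ext (lz z) p| = bs (lz z) (lz z) := sum_congr rfl fun p _ => by
    obtain ⟨k, hk⟩ := ext_int z p
    have h := h1 p
    rw [hk] at h ⊢
    have h' : |k| ≤ 1 := by exact_mod_cast h
    obtain ⟨k1, k2⟩ := abs_le.1 h'
    interval_cases k <;> simp
  have h := bs_le_Na (lz z) x
  rw [e] at h
  have n0 : 0 < bs (lz z) (lz z) := by linarith
  rw [abs_div, abs_of_pos n0, div_le_iff₀ n0, abs_mul, abs_of_nonneg (by positivity)]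
  nlinarith [mul_le_mul_of_nonneg_left h (by positivity : 0 ≤ 2 * (1 + κ))]

theorem sNa (d : Nat) (h : SPh d) : SNa d := by
  obtain ⟨C0, hC0, h⟩ := h
  have hC : 0 < C0 * d + 1 := by positivity
  refine ⟨min (1 / 12) (1 / (2 * (C0 * d + 1))), C0 * d + 1, by positivity, hC, ?_⟩
  intro J _ F hF G η κ hκ hκη hη hG
  have η0 : 0 ≤ η := by linarith
  obtain ⟨h1, h2, h3⟩ := h J F hF G η η0 (hη.trans (min_le_left _ _)) hG
  have hh : (C0 * d + 1) * η ≤ 1 / 2 := by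
    have := hη.trans (min_le_right _ _)
    rw [le_div_iff₀ (by positivity)] at this
    linarith
  have g00 : ∀ x : Ed d, 0 ≤ g0 x := nm_g0.nonneg
  have er : ∀ x : Ed d, C0 * η * ‖x‖ ≤ (C0 * d + 1) * η * g0 x := fun x => by
    have a := mul_le_mul_of_nonneg_left (norm_le_g0 x) (by positivity : 0 ≤ C0 * η)
    nlinarith [mul_nonneg η0 (g00 x)]
  have up : ∀ x, F.g1 G κ x ≤ (1 + (C0 * d + 1) * η) * g0 x := fun x => by
    have := g00 x
    refine (pi_norm_le_iff_of_nonneg (by positivity)).2 ?_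
    rintro ((a | t) | z)
    · show |F.ph G (Sum.inl a) x| ≤ _
      have b := abs_le.1 (h2 a x)
      rw [bs_rt] at b
      refine abs_le.2 ⟨?_, ?_⟩
      · linarith [er x, le_g0 x a.1.2 a.1.1]
      · linarith [er x, le_g0 x a.1.1 a.1.2]
    · show |F.ph G (Sum.inr t) x| ≤ _
      have b := abs_le.1 (h3 t x)
      have c := abs_le.1 (vv_Na hF t x)
      refine abs_le.2 ⟨?_, ?_⟩
      · linarith [er x]
      · linarith [er x]
    · refine (cut_Na z.2 hκ.le x).trans (mul_le_mul_of_nonneg_right ?_ this)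
      nlinarith [mul_nonneg (mul_nonneg hC0.le (Nat.cast_nonneg d)) η0]
  have lo : ∀ x, (1 - (C0 * d + 1) * η) * g0 x ≤ F.g1 G κ x := fun x => by
    obtain ⟨i, j, e⟩ := ex_g0 x
    have k : ∀ a : Rt d, |F.ph G (Sum.inl a) x| ≤ F.g1 G κ x := fun a =>
      norm_le_pi_norm (F.ps G κ x) (Sum.inl (Sum.inl a))
    rcases lt_trichotomy i j with l | l | l
    · have b := abs_le.1 (h2 ⟨(i, j), l⟩ x)
      have c := abs_le.1 (k ⟨(i, j), l⟩)
      rw [bs_rt] at b
      dsimp only at b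
      linarith [er x]
    · rw [e, l, sub_self, mul_zero]
      exact norm_nonneg _
    · have b := abs_le.1 (h2 ⟨(j, i), l⟩ x)
      have c := abs_le.1 (k ⟨(j, i), l⟩)
      rw [bs_rt] at b
      dsimp only at b
      linarith [er x]
  refine ⟨⟨fun x y => ?_, fun c x => ?_, ?_, ?_⟩, up, lo, fun i => (h1 i).2, fun i => (h1 i).1⟩
  · have e : F.ps G κ (x + y) = F.ps G κ x + F.ps G κ y := by
      funext k
      rcases k with i | z
      · exact map_add (F.ph G i) x y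
      · simp only [Fam.ps, Sum.elim_inr, Pi.add_apply, bs_add_Na]
        ring
    rw [Fam.g1, e]
    exact norm_add_le _ _
  · have e : F.ps G κ (c • x) = c • F.ps G κ x := by
      funext k
      rcases k with i | z
      · exact map_smul (F.ph G i) c x
      · simp only [Fam.ps, Sum.elim_inr, Pi.smul_apply, bs_smul_Na, smul_eq_mul]
        ring
    rw [Fam.g1, e, norm_smul]
    rfl
  · obtain ⟨c, hc, b⟩ := (nm_g0 (d := d)).low
    refine ⟨c / 2, by positivity, fun x => le_trans ?_ (lo x)⟩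
    nlinarith [b x, g00 x]
  · obtain ⟨c, hc, b⟩ := (nm_g0 (d := d)).up
    refine ⟨2 * c, by positivity, fun x => (up x).trans ?_⟩
    nlinarith [b x, g00 x]

end Pool.Agent.MP_02cac4_co.Sp

end

section
namespace Pool.Agent.MP_02cac4_co.Sp

open Finset MeasureTheory
open scoped RealInnerProductSpace

theorem root_Nr {d : ℕ} {a b : Rt d} (h : b ≠ a) : |bs (lz (rt b)) (lz (rt a))| ≤ 1 := by
  obtain ⟨⟨i, j⟩, hij⟩ := a
  obtain ⟨⟨k, l⟩, hkl⟩ := b
  have h1 : ¬ (k = i ∧ l = j) := fun e => h (Subtype.ext (Prod.ext e.1 e.2))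
  have h2 : ¬ (k = j ∧ l = i) := fun e => by
    obtain ⟨rfl, rfl⟩ := e
    exact lt_asymm hij hkl
  have h3 : k ≠ l := ne_of_lt hkl
  have h4 : i ≠ j := ne_of_lt hij
  rw [bs_rt, ext_rt, ext_rt, abs_le]
  simp only [sg]
  split_ifs <;> first
    | (norm_num; done)
    | (exfalso; simp_all)

theorem V_Nr {d : ℕ} {J : Type} [Fintype J] {F : Fam d J} (hF : F.Ok) (t : J) (p : Fin (d + 1)) :
    |F.V t p| ≤ 3 / 2 := by
  have hi := (hF.mono t).injective
  have ha := abs_le.1 (hF.ha t)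
  have hb := abs_le.1 (hF.hb t)
  have e : ∀ i j : Fin 4, sg (F.q t i) (F.q t j) = if j = i then 1 else 0 := fun i j => by
    simp only [sg, hi.eq_iff]
  rw [abs_le, Fam.V, Fam.Y]
  by_cases h : ∃ j, p = F.q t j
  · obtain ⟨j, rfl⟩ := h
    simp only [e]
    fin_cases j <;> simp <;> constructor <;> linarith
  · have e0 : ∀ j, sg (F.q t j) p = 0 := fun j => if_neg fun h1 => h ⟨j, h1⟩
    simp only [e0]
    norm_num

theorem sNr (d : Nat) (h : SPh d) : SNr d := by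
  obtain ⟨C, hC, h⟩ := h
  refine ⟨min (1 / 12) (1 / (8 * C)), by positivity, ?_⟩
  intro J _ F hF G η κ hκ hκη hη hG a k hk
  have h12 : η ≤ 1 / 12 := hη.trans (min_le_left _ _)
  have h8 : C * η ≤ 1 / 8 := by
    have := hη.trans (min_le_right _ _)
    rw [le_div_iff₀ (by positivity)] at this
    linarith
  have h0 : 0 ≤ η := by linarith
  obtain ⟨h1, h2, h3⟩ := h J F hF G η h0 h12 hG
  have hx : ‖lz (rt a)‖ ≤ 2 := (h1 (Sum.inl a)).1.1
  have he : C * η * ‖lz (rt a)‖ ≤ 1 / 4 := by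
    have := mul_le_mul h8 hx (norm_nonneg _) (by norm_num)
    linarith
  rcases k with (b | t) | z
  · have a1 := abs_le.1 ((h2 b (lz (rt a))).trans he)
    have a2 := abs_le.1 (root_Nr (a := a) (b := b) fun e => hk (by rw [e]))
    change |F.ph G (Sum.inl b) (lz (rt a))| ≤ 15 / 8
    rw [abs_le]
    constructor <;> linarith
  · have a1 := abs_le.1 ((h3 t (lz (rt a))).trans he)
    have a2 := abs_le.1 (V_Nr hF t a.1.1)
    have a3 := abs_le.1 (V_Nr hF t a.1.2)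
    rw [bs_comm, bs_rt, F.ext_vv, F.ext_vv] at a1
    change |F.ph G (Sum.inr t) (lz (rt a))| ≤ 15 / 8
    rw [abs_le]
    constructor <;> linarith
  · obtain ⟨z, hz⟩ := z
    obtain ⟨-, b1, b2, -⟩ := (@mem_filter _ _ (_) _ _).1 hz
    have a1 : |bs (lz z) (lz (rt a))| ≤ 2 := by
      rw [bs_comm, bs_rt]
      linarith [abs_sub (ext (lz z) a.1.1) (ext (lz z) a.1.2), b1 a.1.1, b1 a.1.2]
    change |2 * (1 + κ) * bs (lz z) (lz (rt a)) / bs (lz z) (lz z)| ≤ 15 / 8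
    rw [abs_div, abs_mul, abs_of_pos (by linarith : 0 < 2 * (1 + κ)),
      abs_of_pos (by linarith : 0 < bs (lz z) (lz z)), div_le_iff₀ (by linarith)]
    nlinarith [abs_nonneg (bs (lz z) (lz (rt a)))]

end Pool.Agent.MP_02cac4_co.Sp

end

section
/-! The other functionals at a four-point vector. -/


namespace Pool.Agent.MP_02cac4_co.Sp

open Finset MeasureTheory
open scoped RealInnerProductSpace

theorem vals_Nt {d : ℕ} {J : Type} (F : Fam d J) (t : J) (hm : StrictMono (F.q t)) :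
    F.Y t (F.q t 0) = 1 ∧ F.Y t (F.q t 1) = 1 ∧ F.Y t (F.q t 2) = -1 ∧ F.Y t (F.q t 3) = -1 := by
  simp [Fam.Y, sg, hm.injective.eq_iff]

theorem cases_Nt {d : ℕ} {J : Type} (F : Fam d J) (t : J) (hm : StrictMono (F.q t))
    (p : Fin (d + 1)) : (F.Y t p = 1 ∧ (p = F.q t 0 ∨ p = F.q t 1)) ∨
      (F.Y t p = -1 ∧ (p = F.q t 2 ∨ p = F.q t 3)) ∨ F.Y t p = 0 := by
  obtain ⟨h0, h1, h2, h3⟩ := vals_Nt F t hm
  by_cases e0 : p = F.q t 0
  · exact Or.inl ⟨e0 ▸ h0, Or.inl e0⟩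
  by_cases e1 : p = F.q t 1
  · exact Or.inl ⟨e1 ▸ h1, Or.inr e1⟩
  by_cases e2 : p = F.q t 2
  · exact Or.inr (Or.inl ⟨e2 ▸ h2, Or.inl e2⟩)
  by_cases e3 : p = F.q t 3
  · exact Or.inr (Or.inl ⟨e3 ▸ h3, Or.inr e3⟩)
  exact Or.inr (Or.inr (by simp [Fam.Y, sg, e0, e1, e2, e3]))

theorem abs_Nt {d : ℕ} {J : Type} (F : Fam d J) (t : J) (hm : StrictMono (F.q t))
    (p : Fin (d + 1)) : -1 ≤ F.Y t p ∧ F.Y t p ≤ 1 := by
  rcases cases_Nt F t hm p with h | h | h
  · rw [h.1]; norm_num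
  · rw [h.1]; norm_num
  · rw [h]; norm_num

theorem miss_Nt {d : ℕ} {J : Type} [Fintype J] (F : Fam d J) (hF : F.Ok) {t t' : J}
    (hne : t' ≠ t) : ∃ s, F.Y t (F.q t' s) = 0 := by
  have h : ∃ s, ∀ r, F.q t' s ≠ F.q t r := by
    by_contra hc
    push Not at hc
    have hsub : univ.image (F.q t') ⊆ univ.image (F.q t) := fun p hp => by
      obtain ⟨s, -, rfl⟩ := mem_image.1 hp
      obtain ⟨r, hr⟩ := hc s
      exact mem_image.2 ⟨r, mem_univ _, hr.symm⟩
    have he := eq_of_subset_of_card_le hsub (by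
      rw [card_image_of_injective _ (hF.mono t).injective,
        card_image_of_injective _ (hF.mono t').injective])
    have hr : Set.range (F.q t') = Set.range (F.q t) := by
      have := congrArg (fun s : Finset (Fin (d + 1)) => (s : Set (Fin (d + 1)))) he
      simpa using this
    exact hne (hF.inj (((hF.mono t').range_inj (hF.mono t)).1 hr))
  obtain ⟨s, hs⟩ := h
  exact ⟨s, by simp [Fam.Y, sg, hs]⟩

theorem four_Nt {α β a b c e : ℝ} (hα : |α| ≤ 1 / 2) (hβ : |β| ≤ 1 / 2) (ha : -1 ≤ a ∧ a ≤ 1)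
    (hb : -1 ≤ b ∧ b ≤ 1) (hc : -1 ≤ c ∧ c ≤ 1) (he : -1 ≤ e ∧ e ≤ 1)
    (h0 : a = 0 ∨ b = 0 ∨ c = 0 ∨ e = 0) :
    |(1 + α) * a + (1 - α) * b - (1 - β) * c - (1 + β) * e| ≤ 7 / 2 := by
  obtain ⟨a1, a2⟩ := abs_le.1 hα
  obtain ⟨b1, b2⟩ := abs_le.1 hβ
  have k : ∀ w x : ℝ, 0 ≤ w → -1 ≤ x ∧ x ≤ 1 → -w ≤ w * x ∧ w * x ≤ w := fun w x hw hx =>
    ⟨by nlinarith [hx.1], by nlinarith [hx.2]⟩
  have k1 := k (1 + α) a (by linarith) ha
  have k2 := k (1 - α) b (by linarith) hb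
  have k3 := k (1 - β) c (by linarith) hc
  have k4 := k (1 + β) e (by linarith) he
  rw [abs_le]
  rcases h0 with h | h | h | h <;> subst h <;> constructor <;>
    linarith [k1.1, k1.2, k2.1, k2.2, k3.1, k3.2, k4.1, k4.2]

theorem bs_sub_Nt {d : ℕ} (x y : Ed d) :
    bs (x - y) (x - y) = bs x x - 2 * bs x y + bs y y := by
  simp only [bs, ext_sub, mul_sum, ← sum_sub_distrib, ← sum_add_distrib]
  exact sum_congr rfl fun p _ => by ring

theorem bs_add_Nt {d : ℕ} (x y : Ed d) :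
    bs (x + y) (x + y) = bs x x + 2 * bs x y + bs y y := by
  simp only [bs, ext_add, mul_sum, ← sum_add_distrib]
  exact sum_congr rfl fun p _ => by ring

theorem one_le_bs_Nt {d : ℕ} {z : Fin d → ℤ} (hz : z ≠ 0) : 1 ≤ bs (lz z) (lz z) :=
  le_trans (one_le_pow₀ (one_le_lz hz)) (norm_sq_le_bs _)

theorem cuts_Nt {d : ℕ} {J : Type} (F : Fam d J) {z : Fin d → ℤ} (hz : z ∈ F.cuts) :
    4 ≤ bs (lz z) (lz z) ∧ ∀ t, z ≠ F.yz t ∧ z ≠ -F.yz t := by
  unfold Fam.cuts at hz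
  simp only [mem_filter] at hz
  exact hz.2.2

theorem sNt (d : Nat) (h : SPh d) : SNt d := by
  obtain ⟨C, hC, h⟩ := h
  refine ⟨min (1 / 16) (1 / (16 * C)), by positivity, ?_⟩
  intro J _ F hF G η κ μ hκ hκη hη hG hμ0 hμ1 hT t k hk
  have hη1 : η ≤ 1 / 16 := hη.trans (min_le_left _ _)
  have hη2 : C * η ≤ 1 / 16 := by
    have := hη.trans (min_le_right _ _)
    rw [le_div_iff₀ (by positivity)] at this
    linarith
  have hη0 : 0 ≤ η := hκ.le.trans hκη
  obtain ⟨h1, h2, h3⟩ := h J F hF G η hη0 (by linarith) hG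
  have hy : ‖lz (F.yz t)‖ ≤ 2 := (h1 (Sum.inr t)).1.1
  have herr : C * η * ‖lz (F.yz t)‖ ≤ 1 / 8 :=
    le_trans (mul_le_mul hη2 hy (norm_nonneg _) (by norm_num)) (by norm_num)
  have hm := hF.mono t
  obtain ⟨v0, v1, v2, v3⟩ := vals_Nt F t hm
  rcases k with (b | t') | z
  · show |F.ph G (Sum.inl b) (lz (F.yz t))| ≤ _
    have hb := abs_le.1 ((h2 b (lz (F.yz t))).trans herr)
    rw [bs_rt, F.ext_yz, F.ext_yz] at hb
    have hlt : b.1.1 < b.1.2 := b.2
    have q02 : F.q t 0 < F.q t 2 := hm (by decide)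
    have q03 : F.q t 0 < F.q t 3 := hm (by decide)
    have q12 : F.q t 1 < F.q t 2 := hm (by decide)
    have q13 : F.q t 1 < F.q t 3 := hm (by decide)
    rw [abs_le]
    rcases cases_Nt F t hm b.1.1 with hi | hi | hi <;>
      rcases cases_Nt F t hm b.1.2 with hj | hj | hj
    · constructor <;> linarith [hi.1, hj.1, hb.1, hb.2]
    · refine ⟨by linarith [hi.1, hj.1, hb.1, hb.2], ?_⟩
      have ht := hT t b hi.2 hj.2
      obtain ⟨-, d1, d5⟩ := h1 (Sum.inl b)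
      have e : F.ph G (Sum.inl b) (lz (F.yz t)) =
          2 / F.den G (Sum.inl b) * ⟪lz (rt b), G (lz (F.yz t))⟫ := rfl
      have e2 : F.den G (Sum.inl b) = ⟪lz (rt b), G (lz (rt b))⟫ := rfl
      rw [map_sub, inner_sub_right, ← e2] at ht
      rw [e, div_mul_eq_mul_div, div_le_iff₀ (by linarith)]
      nlinarith
    · constructor <;> linarith [hi.1, hj, hb.1, hb.2]
    · exfalso
      rcases hi.2 with e1 | e1 <;> rcases hj.2 with e2 | e2 <;> rw [e1, e2] at hlt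
      · exact absurd hlt q02.not_gt
      · exact absurd hlt q12.not_gt
      · exact absurd hlt q03.not_gt
      · exact absurd hlt q13.not_gt
    · constructor <;> linarith [hi.1, hj.1, hb.1, hb.2]
    · constructor <;> linarith [hi.1, hj, hb.1, hb.2]
    · constructor <;> linarith [hi, hj.1, hb.1, hb.2]
    · constructor <;> linarith [hi, hj.1, hb.1, hb.2]
    · constructor <;> linarith [hi, hj, hb.1, hb.2]
  · show |F.ph G (Sum.inr t') (lz (F.yz t))| ≤ _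
    have hne : t' ≠ t := fun e => hk (by rw [e])
    have hb := abs_le.1 ((h3 t' (lz (F.yz t))).trans herr)
    obtain ⟨s, hs⟩ := miss_Nt F hF hne
    have h4 : |bs (F.vv t') (lz (F.yz t))| ≤ 7 / 2 := by
      rw [F.bs_vv]
      simp only [F.ext_yz]
      refine four_Nt (hF.ha t') (hF.hb t') (abs_Nt F t hm _) (abs_Nt F t hm _) (abs_Nt F t hm _)
        (abs_Nt F t hm _) ?_
      fin_cases s
      · exact Or.inl hs
      · exact Or.inr (Or.inl hs)
      · exact Or.inr (Or.inr (Or.inl hs))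
      · exact Or.inr (Or.inr (Or.inr hs))
    rw [abs_le] at h4 ⊢
    constructor <;> linarith [hb.1, hb.2, h4.1, h4.2]
  · show |2 * (1 + κ) * bs (lz z.1) (lz (F.yz t)) / bs (lz z.1) (lz z.1)| ≤ _
    obtain ⟨hn, hz⟩ := cuts_Nt F z.2
    have hyy : bs (lz (F.yz t)) (lz (F.yz t)) = 4 := by
      rw [F.bs_yz]
      simp only [F.ext_yz, v0, v1, v2, v3]
      norm_num
    have s1 := one_le_bs_Nt (sub_ne_zero.2 (hz t).1)
    have s2 := one_le_bs_Nt (z := z.1 + F.yz t) fun e => (hz t).2 (eq_neg_of_add_eq_zero_left e)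
    rw [lz_sub, bs_sub_Nt, hyy] at s1
    rw [lz_add, bs_add_Nt, hyy] at s2
    generalize bs (lz z.1) (lz z.1) = n at hn s1 s2 ⊢
    generalize bs (lz z.1) (lz (F.yz t)) = w at s1 s2 ⊢
    have hw : |w| ≤ 7 / 8 * n := abs_le.2 ⟨by linarith, by linarith⟩
    have hn0 : 0 < n := by linarith
    rw [abs_div, abs_mul, abs_of_pos hn0, abs_of_pos (by linarith : 0 < 2 * (1 + κ)),
      div_le_iff₀ hn0]
    calc 2 * (1 + κ) * |w| ≤ 2 * (17 / 16) * (7 / 8 * n) :=
          mul_le_mul (by linarith) hw (abs_nonneg _) (by norm_num)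
      _ ≤ (2 - μ / 8) * n := by nlinarith

end Pool.Agent.MP_02cac4_co.Sp

end

section
namespace Pool.Agent.MP_02cac4_co.Sp

open Finset MeasureTheory
open scoped RealInnerProductSpace

variable {d : ℕ} {J : Type}

theorem rt_Nc (a : Rt d) (p : Fin (d + 1)) :
    (0 < ext (lz (rt a)) p ↔ p = a.1.1) ∧ (ext (lz (rt a)) p < 0 ↔ p = a.1.2) := by
  have h := a.2.ne
  rw [ext_rt]
  unfold sg
  by_cases h1 : p = a.1.1
  · subst h1; simp [h]
  · by_cases h2 : p = a.1.2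
    · subst h2; simp [h1]
    · simp [h1, h2]

theorem yz_Nc (F : Fam d J) (t : J) (h : StrictMono (F.q t)) (p : Fin (d + 1)) :
    (0 < ext (lz (F.yz t)) p ↔ p = F.q t 0 ∨ p = F.q t 1) ∧
      (ext (lz (F.yz t)) p < 0 ↔ p = F.q t 2 ∨ p = F.q t 3) := by
  rw [F.ext_yz]
  unfold Fam.Y sg
  by_cases h0 : p = F.q t 0
  · subst h0; simp [h.injective.eq_iff]
  by_cases h1 : p = F.q t 1
  · subst h1; simp [h.injective.eq_iff]
  by_cases h2 : p = F.q t 2
  · subst h2; simp [h.injective.eq_iff]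
  by_cases h3 : p = F.q t 3
  · subst h3; simp [h.injective.eq_iff]
  simp [h0, h1, h2, h3]

theorem pm_Nc {z : Fin d → ℤ} (hz : z ≠ 0) :
    ∃ i j, 1 ≤ ext (lz z) i ∧ ext (lz z) j ≤ -1 := by
  have h0 := sum_ext (lz z)
  have hn : ¬ ∀ p ∈ (univ : Finset (Fin (d + 1))), ext (lz z) p = 0 := fun h =>
    hz (funext fun k => by
      have := h k.succ (mem_univ _)
      rw [ext_succ, lz_apply] at this
      exact_mod_cast this)
  have h1 : ∃ i, 0 < ext (lz z) i := by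
    by_contra h
    push Not at h
    exact hn ((sum_eq_zero_iff_of_nonpos fun p _ => h p).1 h0)
  have h2 : ∃ j, ext (lz z) j < 0 := by
    by_contra h
    push Not at h
    exact hn ((sum_eq_zero_iff_of_nonneg fun p _ => h p).1 h0)
  obtain ⟨i, hi⟩ := h1
  obtain ⟨j, hj⟩ := h2
  obtain ⟨k, hk⟩ := ext_int z i
  obtain ⟨l, hl⟩ := ext_int z j
  refine ⟨i, j, ?_, ?_⟩
  · rw [hk] at hi ⊢
    have : 0 < k := by exact_mod_cast hi
    exact_mod_cast this
  · rw [hl] at hj ⊢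
    have : l < 0 := by exact_mod_cast hj
    have : l ≤ -1 := by omega
    exact_mod_cast this

theorem two_Nc {z : Fin d → ℤ} (hz : z ≠ 0) : 2 ≤ bs (lz z) (lz z) := by
  obtain ⟨i, j, hi, hj⟩ := pm_Nc hz
  have hij : i ≠ j := fun e => by rw [e] at hi; linarith
  have := sum_le_sum_of_subset_of_nonneg (f := fun p => ext (lz z) p * ext (lz z) p)
    (subset_univ {i, j}) fun p _ _ => mul_self_nonneg _
  rw [sum_pair hij] at this
  unfold bs
  nlinarith

theorem sgn_Nc (F : Fam d J) (h : ∀ t, StrictMono (F.q t)) (i : Rt d ⊕ J) :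
    F.yy i ≠ 0 ∧ ∀ p p', 0 < ext (lz (F.yy i)) p → ext (lz (F.yy i)) p' < 0 → p < p' := by
  have z0 : ∀ p, ext (lz (0 : Fin d → ℤ)) p = 0 := fun p => by
    have := ext_smul 0 (lz (0 : Fin d → ℤ)) p
    rwa [zero_smul, zero_mul, ← lz_zero] at this
  rcases i with a | t
  · refine ⟨fun e => ?_, fun p p' hp hp' => ?_⟩
    · have := (rt_Nc a a.1.1).1.2 rfl
      rw [show rt a = 0 from e, z0] at this
      exact lt_irrefl _ this
    · rw [(rt_Nc a p).1.1 hp, (rt_Nc a p').2.1 hp']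
      exact a.2
  · refine ⟨fun e => ?_, fun p p' hp hp' => ?_⟩
    · have := (yz_Nc F t (h t) _).1.2 (Or.inl rfl)
      rw [show F.yz t = 0 from e, z0] at this
      exact lt_irrefl _ this
    · rcases (yz_Nc F t (h t) p).1.1 hp with rfl | rfl <;>
      rcases (yz_Nc F t (h t) p').2.1 hp' with rfl | rfl <;> exact h t (by decide)

theorem mix_Nc (F : Fam d J) (t : J) (h : StrictMono (F.q t)) (a : Rt d) : rt a ≠ F.yz t := by
  intro e
  have h0 := (yz_Nc F t h _).1.2 (Or.inl rfl)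
  have h1 := (yz_Nc F t h _).1.2 (Or.inr rfl)
  rw [← e, (rt_Nc a _).1] at h0 h1
  exact absurd (h.injective (h0.trans h1.symm)) (by decide)

theorem pair_Nc {α : Type} [LinearOrder α] {a b a' b' : α} (h : a < b) (h' : a' < b')
    (h1 : a = a' ∨ a = b') (h2 : b = a' ∨ b = b') : a = a' ∧ b = b' := by
  rcases h1 with rfl | rfl <;> rcases h2 with rfl | rfl
  · exact absurd h (lt_irrefl _)
  · exact ⟨rfl, rfl⟩
  · exact absurd h h'.not_gt
  · exact absurd h (lt_irrefl _)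

theorem sNc (d : ℕ) : SNc d := by
  intro J _ F hF
  refine ⟨?_, fun i j e => ?_, fun z hz hne => ?_⟩
  · rintro (a | t) (b | t') e
    · have e' : rt a = rt b := e
      have h1 := (rt_Nc a _).1.2 rfl
      have h2 := (rt_Nc a _).2.2 rfl
      rw [e'] at h1 h2
      exact congrArg _ (Subtype.ext (Prod.ext ((rt_Nc b _).1.1 h1) ((rt_Nc b _).2.1 h2)))
    · exact absurd e (mix_Nc F t' (hF.mono t') a)
    · exact absurd e.symm (mix_Nc F t (hF.mono t) b)
    · have e' : F.yz t = F.yz t' := e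
      have h0 := (yz_Nc F t (hF.mono t) _).1.2 (Or.inl rfl)
      have h1 := (yz_Nc F t (hF.mono t) _).1.2 (Or.inr rfl)
      have h2 := (yz_Nc F t (hF.mono t) _).2.2 (Or.inl rfl)
      have h3 := (yz_Nc F t (hF.mono t) _).2.2 (Or.inr rfl)
      rw [e'] at h0 h1 h2 h3
      obtain ⟨k0, k1⟩ := pair_Nc (hF.mono t (by decide)) (hF.mono t' (by decide))
        ((yz_Nc F t' (hF.mono t') _).1.1 h0) ((yz_Nc F t' (hF.mono t') _).1.1 h1)
      obtain ⟨k2, k3⟩ := pair_Nc (hF.mono t (by decide)) (hF.mono t' (by decide))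
        ((yz_Nc F t' (hF.mono t') _).2.1 h2) ((yz_Nc F t' (hF.mono t') _).2.1 h3)
      refine congrArg _ (hF.inj (funext fun k => ?_))
      fin_cases k
      exacts [k0, k1, k2, k3]
  · obtain ⟨p, p', hp, hp'⟩ := pm_Nc (sgn_Nc F hF.mono i).1
    have h1 := (sgn_Nc F hF.mono i).2 p p' (by linarith) (by linarith)
    rw [e, lz_neg, ext_neg] at hp hp'
    exact absurd h1 ((sgn_Nc F hF.mono j).2 p' p (by linarith) (by linarith)).not_gt
  · refine or_iff_not_imp_left.2 fun h3 => ?_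
    rw [not_le] at h3
    obtain ⟨i, j, hi, hj⟩ := pm_Nc hz
    have hb : ∀ p, |ext (lz z) p| ≤ 1 := fun p => by
      have a1 := le_g0 (lz z) p j
      have a2 := le_g0 (lz z) i p
      obtain ⟨k, hk⟩ := ext_int z p
      rw [hk] at a1 a2 ⊢
      have b1 : k < 2 := by exact_mod_cast (by linarith : (k : ℝ) < 2)
      have b2 : -2 < k := by exact_mod_cast (by linarith : (-2 : ℝ) < k)
      have : |k| ≤ 1 := abs_le.2 ⟨by omega, by omega⟩
      exact_mod_cast this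
    have hij : i ≠ j := fun e => by rw [e] at hi; linarith
    have hw : z - (ez i - ez j) ≠ 0 := fun e => by
      rw [sub_eq_zero] at e
      rcases lt_or_gt_of_ne hij with h | h
      · exact (hne (Sum.inl ⟨(i, j), h⟩)).1 e
      · exact (hne (Sum.inl ⟨(j, i), h⟩)).2 (e.trans (neg_sub _ _).symm)
    have h2 := two_Nc hw
    have e1 : bs (lz (z - (ez i - ez j))) (lz (z - (ez i - ez j))) = bs (lz z) (lz z) -
        2 * bs (lz (ez i - ez j)) (lz z) + bs (lz (ez i - ez j)) (lz (ez i - ez j)) := by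
      simp only [bs, lz_sub z, ext_sub, mul_sum, ← sum_sub_distrib, ← sum_add_distrib]
      exact sum_congr rfl fun p _ => by ring
    rw [e1, bs_ez, bs_ez, ext_ez, ext_ez] at h2
    simp only [sg, if_true, if_neg hij, if_neg hij.symm] at h2
    unfold Fam.cuts
    simp only [mem_filter, Fintype.mem_piFinset]
    refine ⟨fun k => ?_, hb, by linarith, fun t => hne (Sum.inr t)⟩
    have := hb k.succ
    rw [ext_succ, lz_apply] at this
    have : |z k| ≤ 1 := by exact_mod_cast this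
    exact mem_Icc.2 (abs_le.1 this)

end Pool.Agent.MP_02cac4_co.Sp

end

section
namespace Pool.Agent.MP_02cac4_co.Sp

open Finset MeasureTheory
open scoped RealInnerProductSpace

variable {d : ℕ} {J : Type}

theorem bs_add_Cfg (u x y : Ed d) : bs u (x + y) = bs u x + bs u y := by
  simp only [bs, ext_add, mul_add, sum_add_distrib]

theorem ps_add_Cfg (F : Fam d J) (G : Op d) (κ : ℝ) (x y : Ed d) (k : (Rt d ⊕ J) ⊕ F.cuts) :
    F.ps G κ (x + y) k = F.ps G κ x k + F.ps G κ y k := by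
  rcases k with i | z
  · simp [Fam.ps]
  · simp only [Fam.ps, Sum.elim_inr, bs_add_Cfg]; ring

theorem ph_apply_Cfg (F : Fam d J) (G : Op d) (i : Rt d ⊕ J) (x : Ed d) :
    F.ph G i x = 2 / F.den G i * ⟪F.uu i, G x⟫ := by
  simp [Fam.ph]

theorem ph_two_Cfg (F : Fam d J) (G : Op d) (i : Rt d ⊕ J) (h : 1 ≤ F.den G i) :
    F.ph G i (lz (F.yy i)) = 2 := by
  rw [ph_apply_Cfg]
  change 2 / F.den G i * F.den G i = 2
  field_simp

variable [Fintype J]

theorem lin_Cfg (F : Fam d J) (G : Op d) (κ m : ℝ) (i : Rt d ⊕ J) (h : 1 ≤ F.den G i)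
    (hup : ∀ x, F.g1 G κ x ≤ 2 * g0 x) (hm : m ≤ 1)
    (hk : ∀ k, k ≠ Sum.inl i → |F.ps G κ (lz (F.yy i)) k| ≤ 2 - m) (x : Ed d)
    (hx : 8 * (d + 1) * ‖x - lz (F.yy i)‖ ≤ m) : F.g1 G κ x = F.ph G i x := by
  set y := lz (F.yy i) with hy
  have hb : ∀ k, |F.ps G κ (x - y) k| ≤ m / 2 := fun k => by
    have h1 : |F.ps G κ (x - y) k| ≤ F.g1 G κ (x - y) := norm_le_pi_norm (F.ps G κ (x - y)) k
    linarith [hup (x - y), g0_le_norm (x - y)]
  have e : ∀ k, F.ps G κ x k = F.ps G κ y k + F.ps G κ (x - y) k := fun k => by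
    rw [← ps_add_Cfg, add_sub_cancel]
  have e2 : F.ps G κ y (Sum.inl i) = 2 := ph_two_Cfg F G i h
  have e3 : F.ps G κ x (Sum.inl i) = F.ph G i x := rfl
  have h1 : 2 - m / 2 ≤ F.ph G i x := by
    rw [← e3, e, e2]; linarith [(abs_le.1 (hb (Sum.inl i))).1]
  refine le_antisymm ((pi_norm_le_iff_of_nonneg (by linarith)).2 fun k => ?_) ?_
  · rw [Real.norm_eq_abs]
    by_cases hki : k = Sum.inl i
    · rw [hki, e3, abs_of_nonneg (by linarith)]
    · rw [e]
      linarith [abs_add_le (F.ps G κ y k) (F.ps G κ (x - y) k), hk k hki, hb k]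
  · exact (le_abs_self _).trans (norm_le_pi_norm (F.ps G κ x) (Sum.inl i))

theorem sCfg (d : ℕ) (h1 : SPar d) (h2 : SInd d) (h3 : SNa d) (h4 : SNr d) (h5 : SNt d)
    (h6 : SNc d) : SCfg d := by
  refine ⟨1 / (128 * (d + 1)), by positivity, fun J _ F hF η hη K hK => ?_⟩
  obtain ⟨e3, C, he3, hC, H3⟩ := h3
  obtain ⟨e4, he4, H4⟩ := h4
  obtain ⟨e5, he5, H5⟩ := h5
  obtain ⟨hinj, hneg, hfar⟩ := h6 J F hF
  obtain ⟨e, he, q3, q4, q5, q6, q7⟩ : ∃ e : ℝ, 0 < e ∧ e ≤ e3 ∧ e ≤ e4 ∧ e ≤ e5 ∧ C * e ≤ η ∧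
      C * e ≤ 1 / 6 := by
    refine ⟨min (min e3 (min e4 e5)) (min η (1 / 6) / C), by positivity,
      (min_le_left _ _).trans (min_le_left _ _),
      (min_le_left _ _).trans ((min_le_right _ _).trans (min_le_left _ _)),
      (min_le_left _ _).trans ((min_le_right _ _).trans (min_le_right _ _)), ?_, ?_⟩
    · rw [← le_div_iff₀' hC]
      exact (min_le_right _ _).trans (by gcongr; exact min_le_left _ _)
    · rw [← le_div_iff₀' hC]
      exact (min_le_right _ _).trans (by gcongr; exact min_le_right _ _)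
  obtain ⟨l, G0, μ0, hμ0, hM, hCl, hT, HG⟩ := h1 J F hF (e / 2) (by positivity)
  obtain ⟨μ, hμ, hμ1, hμ2⟩ : ∃ μ : ℝ, 0 < μ ∧ μ ≤ 1 ∧ μ ≤ μ0 :=
    ⟨min 1 μ0, by positivity, min_le_left _ _, min_le_right _ _⟩
  obtain ⟨κ, hκ, k1, k2⟩ : ∃ κ : ℝ, 0 < κ ∧ κ ≤ μ / (128 * (d + 1)) ∧ κ ≤ e :=
    ⟨min (μ / (128 * (d + 1))) e, by positivity, min_le_left _ _, min_le_right _ _⟩
  have hd1 : (1 : ℝ) ≤ d + 1 := by simp
  have k3 : 128 * (d + 1) * κ ≤ μ := by rwa [← le_div_iff₀' (by positivity)]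
  have k4 : κ ≤ 1 / 2 := by nlinarith
  obtain ⟨ν, hν, n1, n2, n3⟩ : ∃ ν : ℝ, 0 < ν ∧ ν ≤ e / 2 ∧ ν ≤ μ / 16 ∧ K * (2 * ν) ≤ κ := by
    refine ⟨min (min (e / 2) (μ / 16)) (κ / (2 * K)), by positivity,
      (min_le_left _ _).trans (min_le_left _ _), (min_le_left _ _).trans (min_le_right _ _), ?_⟩
    rw [← mul_assoc, ← le_div_iff₀' (by positivity), mul_comm K]
    exact min_le_right _ _
  obtain ⟨τ, hτ, G, hG, hid⟩ := HG ν hν
  have hdiff : ∀ u x, |⟪u, G x⟫ - ⟪u, G0 x⟫| ≤ ν * (‖u‖ * ‖x‖) := fun u x => by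
    rw [← inner_sub_right]
    refine (abs_real_inner_le_norm _ _).trans ?_
    have : ‖G x - G0 x‖ ≤ ν * ‖x‖ := ((G - G0).le_opNorm x).trans (by gcongr)
    calc ‖u‖ * ‖G x - G0 x‖ ≤ ‖u‖ * (ν * ‖x‖) := by gcongr
      _ = _ := by ring
  have hCl' : Cl G e := fun u x => by
    have a1 := hdiff u x
    have a2 := hCl u x
    have a3 : ν * (‖u‖ * ‖x‖) ≤ e / 2 * (‖u‖ * ‖x‖) := by gcongr
    have a4 := abs_sub_le ⟪u, G x⟫ ⟪u, G0 x⟫ (bs u x)
    linarith
  obtain ⟨hNm, hup, hlo, hden, hnorm⟩ := H3 J F hF G e e he le_rfl q3 hCl'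
  have hT' : F.Tight G (μ / 2) := fun t a ha hb => by
    have a1 := hT t a ha hb
    have a2 := (abs_le.1 (hdiff (lz (rt a)) (lz (F.yz t) - lz (rt a)))).2
    have a3 : ‖lz (rt a)‖ ≤ 2 := (hnorm (Sum.inl a)).1
    have a4 : ‖lz (F.yz t) - lz (rt a)‖ ≤ 4 :=
      (norm_sub_le _ _).trans (by linarith [show ‖lz (F.yz t)‖ ≤ 2 from (hnorm (Sum.inr t)).1])
    have a5 : ν * (‖lz (rt a)‖ * ‖lz (F.yz t) - lz (rt a)‖) ≤ ν * (2 * 4) := by gcongr
    linarith
  have hg0 : ∀ x : Ed d, 0 ≤ g0 x := nm_g0.nonneg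
  have hup2 : ∀ x, F.g1 G e x ≤ 2 * g0 x := fun x =>
    (hup x).trans (mul_le_mul_of_nonneg_right (by linarith) (hg0 x))
  have hR : ∀ a x, ‖x - lz (rt a)‖ ≤ 1 / (128 * (d + 1)) →
      F.g1 G e x = F.ph G (Sum.inl a) x := fun a x hx => by
    refine lin_Cfg F G e (1 / 8) (Sum.inl a) (hden _).1 hup2 (by norm_num) (fun k hk => ?_) x ?_
    · have := H4 J F hF G e e he le_rfl q4 hCl' a k hk
      exact this.trans (by norm_num)
    · rw [le_div_iff₀' (by positivity)] at hx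
      change 8 * (d + 1) * ‖x - lz (rt a)‖ ≤ 1 / 8
      linarith [norm_nonneg (x - lz (rt a)), mul_nonneg (zero_le_one.trans hd1)
        (norm_nonneg (x - lz (rt a)))]
  let w : Rt d ⊕ J → ℝ := Sum.elim l (fun _ => τ)
  have hw : ∀ i, 0 < w i := by
    rintro (a | t)
    · exact lt_of_lt_of_le (by positivity) (hM.lo a)
    · exact hτ
  have hid' : ∀ x, ∑ i, (w i * ⟪F.uu i, G x⟫) • lz (F.yy i) = x := fun x => by
    rw [Fintype.sum_sum_type]; exact hid x
  refine ⟨⟨F.g1 G e, F.yy, F.ph G, fun i => w i * F.den G i / 2, κ⟩, 2 * ν,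
    ⟨hNm, hκ, fun i x hx => ?_, fun i => ph_two_Cfg F G i (hden i).1, fun z hz hz' => ?_, hinj,
      hneg, fun i => ?_, fun A => ?_, fun t => ?_⟩,
    ⟨fun x => ?_, fun a => rfl, fun i => (hnorm i).1, hR, l, G0, hM, fun a => ?_⟩,
    by positivity, n3, by linarith⟩
  · rcases i with a | t
    · exact hR a x (hx.trans (k1.trans (by gcongr)))
    · refine lin_Cfg F G e (μ / 16) (Sum.inr t) (hden _).1 hup2 (by linarith) (fun k hk => ?_) x ?_
      · have := H5 J F hF G e e (μ / 2) he le_rfl q5 hCl' (by positivity) (by linarith) hT' t k hk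
        exact this.trans (by linarith)
      · have : 8 * ((d : ℝ) + 1) * ‖x - lz (F.yy (Sum.inr t))‖ ≤ 8 * (d + 1) * κ := by
          gcongr
        linarith
  · change 2 + κ ≤ F.g1 G e (lz z)
    rcases hfar z hz hz' with h | h
    · have := hlo (lz z)
      nlinarith
    · have a1 : |F.ps G e (lz z) (Sum.inr ⟨z, h⟩)| ≤ F.g1 G e (lz z) :=
        norm_le_pi_norm (F.ps G e (lz z)) (Sum.inr ⟨z, h⟩)
      have a2 : 4 ≤ bs (lz z) (lz z) := by
        simp only [Fam.cuts, mem_filter] at h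
        exact h.2.2.1
      have a3 : F.ps G e (lz z) (Sum.inr ⟨z, h⟩) = 2 * (1 + e) := by
        change 2 * (1 + e) * bs (lz z) (lz z) / bs (lz z) (lz z) = _
        field_simp
      rw [a3] at a1
      linarith [le_abs_self (2 * (1 + e))]
  · have := (hden i).1
    have := hw i
    change 0 < w i * F.den G i / 2
    positivity
  · rw [tr_sum (fun i => w i • F.uu i) (fun i => A (lz (F.yy i))) A G (fun x => ?_)]
    · refine sum_congr rfl fun i _ => ?_
      have := (hden i).1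
      change _ = w i * F.den G i / 2 * F.ph G i (A (lz (F.yy i)))
      rw [ph_apply_Cfg, real_inner_smul_left]
      field_simp
    · conv_lhs => rw [← hid' x]
      simp only [map_sum, map_smul, real_inner_smul_left]
  · obtain ⟨Z, hZ⟩ := h2 J F hF fun i => t i * F.den G i / 2
    let N : Op d := ∑ i, w i • (innerSL ℝ (F.uu i)).smulRight (lz (F.yy i))
    have hN : (N : Ed d →ₗ[ℝ] Ed d) * (G : Ed d →ₗ[ℝ] Ed d) = 1 := by
      ext1 x
      simpa [N, _root_.sum_apply, smul_smul] using hid' x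
    have hN' : ∀ x, G (N x) = x := fun x => by
      have := congrArg (fun f : Ed d →ₗ[ℝ] Ed d => f x) (mul_eq_one_comm.1 hN)
      simpa using this
    refine ⟨N * Z, fun i => ?_⟩
    have := (hden i).1
    change F.ph G i (N (Z (lz (F.yy i)))) = t i
    rw [ph_apply_Cfg, hN', hZ]
    field_simp
  · exact (hup x).trans (mul_le_mul_of_nonneg_right (by linarith) (hg0 x))
  · have a1 := hden (Sum.inl a)
    refine ⟨F.den G (Sum.inl a) / 2, by linarith, by linarith, fun x => ?_⟩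
    change |_ - _ * F.ph G (Sum.inl a) x| ≤ _
    have a2 : F.den G (Sum.inl a) / 2 * F.ph G (Sum.inl a) x = ⟪lz (rt a), G x⟫ := by
      rw [ph_apply_Cfg]
      have := a1.1
      change _ * (_ * ⟪lz (rt a), G x⟫) = _
      field_simp
    have a3 : ‖lz (rt a)‖ ≤ 2 := (hnorm (Sum.inl a)).1
    rw [a2, hM.sym, abs_sub_comm]
    refine (hdiff _ _).trans ?_
    calc ν * (‖lz (rt a)‖ * ‖x‖) ≤ ν * (2 * ‖x‖) := by gcongr
      _ = _ := by ring

end Pool.Agent.MP_02cac4_co.Sp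

end

namespace Pool.Agent.MP_02cac4_co.Sp

theorem cfg_all (d : ℕ) : SCfg d :=
  sCfg d (sPar d) (sInd d) (sNa d (sPh d)) (sNr d (sPh d)) (sNt d (sPh d)) (sNc d)

end Pool.Agent.MP_02cac4_co.Sp
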