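import Pool.Agent.MP_02cac4_co.Sp.AllA
import Pool.Agent.MP_02cac4_co.Sp.AllB

set_option autoImplicit false

section
namespace Pool.Agent.MP_02cac4_co.Sp

open Finset MeasureTheory
open scoped RealInnerProductSpace

lemma ev_A1 {f : ℝ → ℝ} (hf : Continuous f) (h : 0 < f 0) :
    ∀ᶠ s in nhdsWithin (0 : ℝ) (Set.Ioi 0), 0 < f s :=
  (hf.continuousAt.eventually (lt_mem_nhds h)).filter_mono nhdsWithin_le_nhds

lemma par_A1 {δ κ C c R : ℝ} (hδ : 0 < δ) (hκ : 0 < κ) : ∃ s : ℝ, 0 < s ∧ s < δ ∧ s < 1 ∧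
    s * R < κ / 8 ∧ 2 * (s * (C * (R + κ))) / (κ / 2) < δ ∧ s * (2 + C * (s * R)) + C * (s * R) < δ ∧
    3 * s * C / c < 1 ∧
    (1 + s) * (2 + C * (3 * s * R)) < (1 - s) * ((1 - 3 * s * C / c) * (2 + κ)) := by
  have h1 := ev_A1 (f := fun s => δ - s) (by fun_prop) (by simpa using hδ)
  have h2 := ev_A1 (f := fun s => 1 - s) (by fun_prop) (by simp)
  have h3 := ev_A1 (f := fun s => κ / 8 - s * R) (by fun_prop) (by simpa using hκ)
  have h4 := ev_A1 (f := fun s => δ - 2 * (s * (C * (R + κ))) / (κ / 2)) (by fun_prop)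
    (by simpa using hδ)
  have h5 := ev_A1 (f := fun s => δ - (s * (2 + C * (s * R)) + C * (s * R))) (by fun_prop)
    (by simpa using hδ)
  have h6 := ev_A1 (f := fun s => 1 - 3 * s * C / c) (by fun_prop) (by simp)
  have h7 := ev_A1 (f := fun s => (1 - s) * ((1 - 3 * s * C / c) * (2 + κ)) -
    (1 + s) * (2 + C * (3 * s * R))) (by fun_prop) (by simpa using hκ)
  have h0 : ∀ᶠ s in nhdsWithin (0 : ℝ) (Set.Ioi 0), 0 < s := self_mem_nhdsWithin
  obtain ⟨s, a0, a1, a2, a3, a4, a5, a6, a7⟩ :=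
    (h0.and (h1.and (h2.and (h3.and (h4.and (h5.and (h6.and h7))))))).exists
  exact ⟨s, a0, by linarith, by linarith, by linarith, by linarith, by linarith, by linarith,
    by linarith⟩

lemma lip_A1 {d : ℕ} {g : Ed d → ℝ} {C : ℝ} (h : Nm g) (hC : ∀ x, g x ≤ C * ‖x‖) (x y : Ed d) :
    g x ≤ g y + C * ‖x - y‖ := by
  have := h.add y (x - y)
  rw [add_sub_cancel] at this
  linarith [hC (x - y)]

lemma conv_A1 {d : ℕ} {g : Ed d → ℝ} (h : Nm g) (φ : Ed d →L[ℝ] ℝ) {S : Set (Ed d)}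
    (hS : Convex ℝ S) : ConvexOn ℝ S fun x => g x - φ x := by
  refine ⟨hS, fun x _ y _ a b ha hb _ => ?_⟩
  have h1 := h.add (a • x) (b • y)
  rw [h.smul, h.smul, abs_of_nonneg ha, abs_of_nonneg hb] at h1
  simp only [map_add, map_smul, smul_eq_mul]
  linarith

lemma op_A1 {d : ℕ} {T : Op d} {r : ℝ} (h : ‖T - 1‖ ≤ r) (x : Ed d) : ‖T x - x‖ ≤ r * ‖x‖ :=
  ((T - 1).le_opNorm x).trans (mul_le_mul_of_nonneg_right h (norm_nonneg x))

theorem sA1 (d : Nat) : SA1 d := by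
  intro I _ D hD δ hδ
  obtain ⟨c, c0, hc⟩ := hD.nm.low
  obtain ⟨C, C0, hC⟩ := hD.nm.up
  obtain ⟨R, hR⟩ : ∃ R, R = ∑ i, ‖lz (D.y i)‖ := ⟨_, rfl⟩
  have yR : ∀ i, ‖lz (D.y i)‖ ≤ R := fun i => hR ▸
    single_le_sum (f := fun i => ‖lz (D.y i)‖) (fun _ _ => norm_nonneg _) (mem_univ i)
  have κ0 := hD.κ_pos
  obtain ⟨s, s0, s1, s2, s3, s4, s5, s6, s7⟩ := par_A1 (C := C) (c := c) (R := R) hδ κ0
  refine ⟨s, s0, s, s0, fun g hg hn T hT => ?_⟩
  have two : ∀ i, D.g (lz (D.y i)) = 2 := fun i => by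
    rw [hD.lin i _ (by simpa using κ0.le), hD.two]
  have cl : ∀ {S : Op d} {r : ℝ}, ‖S - 1‖ ≤ r → ∀ i, ‖S (lz (D.y i)) - lz (D.y i)‖ ≤ r * R :=
    fun {S r} h i => (op_A1 h _).trans
      (mul_le_mul_of_nonneg_left (yR i) ((norm_nonneg _).trans h))
  have up : ∀ {S : Op d} {r : ℝ}, ‖S - 1‖ ≤ r → ∀ i, D.g (S (lz (D.y i))) ≤ 2 + C * (r * R) :=
    fun {S r} h i => by
      have := lip_A1 hD.nm hC (S (lz (D.y i))) (lz (D.y i))
      rw [two] at this
      exact this.trans (add_le_add_right (mul_le_mul_of_nonneg_left (cl h i) C0.le) _)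
  have nr : ∀ x, |g x - D.g x| ≤ s * D.g x := fun x =>
    abs_le.2 ⟨by linarith [(hn x).1], by linarith [(hn x).2]⟩
  refine ⟨hT.trans s1.le, fun i => ?_, ⟨s, s0, fun A hA z hz hz' i => ?_⟩,
    ⟨D.κ / 8, by positivity, fun i h hh => ?_⟩⟩
  · have h1 := up hT i
    have h2 := lip_A1 hD.nm hC (lz (D.y i)) (T (lz (D.y i)))
    rw [two, norm_sub_rev] at h2
    have h3 := mul_le_mul_of_nonneg_left (cl hT i) C0.le
    have h4 := abs_le.1 ((nr (T (lz (D.y i)))).trans (mul_le_mul_of_nonneg_left h1 s0.le))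
    exact abs_le.2 ⟨by linarith [h4.1], by linarith [h4.2]⟩
  · have hS : ‖(1 + A) * T - 1‖ ≤ 3 * s := by
      have e : (1 + A) * T - 1 = (T - 1) + A + A * (T - 1) := by
        rw [add_mul, one_mul, mul_sub, mul_one]; abel
      have h1 := norm_add₃_le (a := T - 1) (b := A) (c := A * (T - 1))
      have h2 := (norm_mul_le A (T - 1)).trans (mul_le_mul hA hT (norm_nonneg _) s0.le)
      rw [e]
      nlinarith
    have h1 := (hn _).2.trans (mul_le_mul_of_nonneg_left (up hS i) (by linarith : 0 ≤ 1 + s))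
    have h2 := lip_A1 hD.nm hC (lz z) (((1 + A) * T) (lz z))
    rw [norm_sub_rev] at h2
    have h3 := mul_le_mul_of_nonneg_left (op_A1 hS (lz z)) C0.le
    have h4 : ‖lz z‖ ≤ D.g (lz z) / c := by rw [le_div_iff₀ c0, mul_comm]; exact hc _
    have h5 := mul_le_mul_of_nonneg_left h4 (by positivity : 0 ≤ 3 * s * C)
    have h6 : (1 - 3 * s * C / c) * D.g (lz z) ≤ D.g (((1 + A) * T) (lz z)) := by
      have : (1 - 3 * s * C / c) * D.g (lz z) = D.g (lz z) - 3 * s * C * (D.g (lz z) / c) := by ring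
      linarith
    have h7 := mul_le_mul_of_nonneg_left (hD.far z hz hz') (by linarith : 0 ≤ 1 - 3 * s * C / c)
    have h8 := mul_le_mul_of_nonneg_left (h7.trans h6) (by linarith : 0 ≤ 1 - s)
    exact lt_of_le_of_lt h1 (s7.trans_le (h8.trans (hn _).1))
  · have hL := (conv_A1 hg (D.φ i) (convex_ball (lz (D.y i)) D.κ)).lipschitzOnWith_of_abs_le
      (ε := D.κ / 2) (M := s * (C * (R + D.κ))) (by positivity) fun a ha => by
        rw [dist_eq_norm] at ha
        rw [← hD.lin i a ha.le]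
        refine (nr a).trans (mul_le_mul_of_nonneg_left ((hC a).trans ?_) s0.le)
        refine mul_le_mul_of_nonneg_left ?_ C0.le
        linarith [norm_sub_norm_le a (lz (D.y i)), yR i]
    have m1 : T (lz (D.y i)) ∈ Metric.ball (lz (D.y i)) (D.κ - D.κ / 2) := by
      rw [mem_ball_iff_norm]; linarith [cl hT i]
    have m2 : T (lz (D.y i)) + h ∈ Metric.ball (lz (D.y i)) (D.κ - D.κ / 2) := by
      rw [mem_ball_iff_norm, add_sub_right_comm]
      linarith [cl hT i, norm_add_le (T (lz (D.y i)) - lz (D.y i)) h]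
    have h1 := hL.dist_le_mul _ m2 _ m1
    rw [Real.dist_eq, dist_eq_norm, add_sub_cancel_left, Real.coe_toNNReal'] at h1
    have e : g (T (lz (D.y i)) + h) - g (T (lz (D.y i))) - D.φ i h =
        g (T (lz (D.y i)) + h) - D.φ i (T (lz (D.y i)) + h) -
          (g (T (lz (D.y i))) - D.φ i (T (lz (D.y i)))) := by
      rw [map_add]; ring
    rw [e]
    exact h1.trans (mul_le_mul_of_nonneg_right (max_le s4.le hδ.le) (norm_nonneg h))

end Pool.Agent.MP_02cac4_co.Sp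

end

section
namespace Pool.Agent.MP_02cac4_co.Sp

open Finset MeasureTheory
open scoped RealInnerProductSpace

theorem lm_Inv {d : ℕ} {g : Ed d → ℝ} (hg : Nm g) {c : ℝ} {T T' : Op d} (hc : 0 < c)
    (h : Same (c • T) T') : lm g T' = c * lm g T := by
  obtain ⟨-, σ, h0, h⟩ := h
  have hs : ∀ z, z ≠ 0 ↔ σ z ≠ 0 := fun z => by
    rw [← h0, σ.injective.ne_iff, h0]
  rw [lm, lm, Real.mul_iInf_of_nonneg hc.le, ← (Equiv.subtypeEquiv σ hs).iInf_comp]
  refine iInf_congr fun z => ?_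
  show g (T' (lz (σ z.1))) = _
  rw [← h, _root_.smul_apply, hg.smul, abs_of_pos hc]

theorem det_Inv {d : ℕ} {c : ℝ} {T T' : Op d} (hc : 0 < c) (h : Same (c • T) T') :
    |T'.det| = c ^ d * |T.det| := by
  rw [← h.1, det_smul', abs_mul, abs_of_pos (pow_pos hc d)]

theorem ff_Inv {d : ℕ} {g : Ed d → ℝ} (hg : Nm g) {c : ℝ} {T T' : Op d} (hc : 0 < c)
    (h : Same (c • T) T') : FF g T' = FF g T := by
  rw [FF, FF, lm_Inv hg hc h, det_Inv hc h, mul_pow, mul_div_mul_left _ _ (pow_pos hc d).ne']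

theorem mul_Inv {d : ℕ} {c : ℝ} {T T' : Op d} (h : Same (c • T) T') (B : Op d) :
    Same (c • (B * T)) (B * T') := by
  obtain ⟨h1, σ, h0, h⟩ := h
  have e : c • (B * T) = B * (c • T) := by
    ext1 x
    exact (B.map_smul c (T x)).symm
  rw [e]
  refine ⟨?_, σ, h0, fun z => congrArg B (h z)⟩
  rw [det_mul', det_mul', abs_mul, abs_mul, h1]

theorem sInv (d : Nat) : SInv d := by
  intro g hg c T T' hc h
  refine ⟨lm_Inv hg hc h, ff_Inv hg hc h, fun hb => ⟨fun h0 => hb.1 ?_, fun S hS => ?_⟩, ?_, ?_⟩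
  · have := det_Inv hc h
    rw [h0, abs_zero] at this
    exact abs_eq_zero.1 ((mul_eq_zero.1 this.symm).resolve_left (pow_pos hc d).ne')
  · rw [ff_Inv hg hc h]
    exact hb.2 S hS
  · have hl := lm_Inv hg hc h
    obtain ⟨-, σ, h0, h⟩ := h
    have hs : ∀ z, z ≠ 0 ↔ σ z ≠ 0 := fun z => by
      rw [← h0, σ.injective.ne_iff, h0]
    rw [← Set.ncard_image_of_injective (Mn g T) (smul_right_injective (Ed d) hc.ne')]
    congr 1
    ext x
    constructor
    · rintro ⟨_, ⟨⟨z, hz, rfl⟩, h2⟩, rfl⟩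
      refine ⟨⟨σ z, (hs z).1 hz, h z⟩, ?_⟩
      show g (c • T (lz z)) = _
      rw [hg.smul, abs_of_pos hc, h2, hl]
    · rintro ⟨⟨z, hz, rfl⟩, h2⟩
      obtain ⟨z, rfl⟩ := σ.surjective z
      refine ⟨T (lz z), ⟨⟨z, (hs z).2 hz, rfl⟩, ?_⟩, h z⟩
      rw [← h, _root_.smul_apply, hg.smul, abs_of_pos hc, hl] at h2
      exact mul_left_cancel₀ hc.ne' h2
  · unfold Ult
    simp only [ff_Inv hg hc h, fun B => ff_Inv hg hc (mul_Inv h B)]

end Pool.Agent.MP_02cac4_co.Sp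

end

section
/-! Existence and location of the densest lattices. -/


namespace Pool.Agent.MP_02cac4_co.Sp

open Finset MeasureTheory
open scoped RealInnerProductSpace

theorem ne_A2 {d : ℕ} (hd : 1 ≤ d) : Nonempty {z : Fin d → ℤ // z ≠ 0} :=
  ⟨⟨fun _ => 1, fun h => one_ne_zero (congrFun h ⟨0, hd⟩)⟩⟩

theorem ff_A2 {d : ℕ} (hd : 1 ≤ d) {g : Ed d → ℝ} (hg : Nm g) (T : Op d) :
    FF g T = ⨅ z : {z : Fin d → ℤ // z ≠ 0}, g (T (lz z.1)) ^ d / |T.det| := by
  have := ne_A2 hd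
  have h := Monotone.map_ciInf_of_continuousAt (f := fun t : ℝ => max t 0 ^ d / |T.det|)
    (g := fun z : {z : Fin d → ℤ // z ≠ 0} => g (T (lz z.1))) (by fun_prop)
    (fun s t hst => div_le_div_of_nonneg_right
      (pow_le_pow_left₀ (le_max_right _ _) (max_le_max_right 0 hst) d) (abs_nonneg _))
    ⟨0, by rintro _ ⟨z, rfl⟩; exact hg.nonneg _⟩
  simp only [max_eq_left (hg.nonneg _)] at h
  rw [← h, FF]
  exact congrArg (fun t => t ^ d / |T.det|) (max_eq_left (lm_nonneg hg T)).symm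

theorem det_A2 {d : ℕ} {T : Op d} (h : ‖T - 1‖ ≤ 1 / 2) : T.det ≠ 0 := by
  refine det_ne_zero_of_box (η := 1 / 2) (by norm_num) fun x => ?_
  have h1 : ‖T x - x‖ ≤ 1 / 2 * ‖x‖ :=
    ((T - 1).le_opNorm x).trans (mul_le_mul_of_nonneg_right h (norm_nonneg x))
  have h2 := abs_le.1 ((abs_norm_sub_norm_le (T x) x).trans h1)
  constructor <;> linarith [h2.1, h2.2]

theorem max_A2 {d : ℕ} (hd : 1 ≤ d) {g : Ed d → ℝ} (hg : Nm g) {ρ : ℝ} (h0 : 0 ≤ ρ)
    (h1 : ρ ≤ 1 / 2) : ∃ T : Op d, ‖T - 1‖ ≤ ρ ∧ ∀ S : Op d, ‖S - 1‖ ≤ ρ → FF g S ≤ FF g T := by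
  have : ProperSpace (Op d) := FiniteDimensional.proper ℝ (Op d)
  have hu : UpperSemicontinuousOn (FF g) (Metric.closedBall (1 : Op d) ρ) := by
    rw [funext (ff_A2 hd hg)]
    refine upperSemicontinuousOn_ciInf (fun T _ => ⟨0, ?_⟩) fun z =>
      ContinuousOn.upperSemicontinuousOn ?_
    · rintro _ ⟨z, rfl⟩
      exact div_nonneg (pow_nonneg (hg.nonneg _) d) (abs_nonneg _)
    · refine ContinuousOn.div (Continuous.continuousOn ((hg.cont.comp (by fun_prop)).pow d))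
        ContinuousLinearMap.continuous_det.abs.continuousOn fun T hT => ?_
      exact abs_ne_zero.2 (det_A2 ((mem_closedBall_iff_norm.1 hT).trans h1))
  obtain ⟨T, hT, hm⟩ := hu.exists_isMaxOn ⟨1, Metric.mem_closedBall_self h0⟩
    (isCompact_closedBall _ _)
  exact ⟨T, mem_closedBall_iff_norm.1 hT, fun S hS => hm (mem_closedBall_iff_norm.2 hS)⟩

theorem two_A2 {d : ℕ} {I : Type} [Fintype I] {D : Dat d I} (h : D.Ok) {z : Fin d → ℤ}
    (hz : z ≠ 0) : 2 ≤ D.g (lz z) := by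
  have h2 : ∀ i, D.g (lz (D.y i)) = 2 := fun i => by
    rw [h.lin i _ (by rw [sub_self, norm_zero]; exact h.κ_pos.le), h.two]
  by_cases hy : ∀ i, z ≠ D.y i ∧ z ≠ -D.y i
  · linarith [h.far z hz hy, h.κ_pos]
  · push Not at hy
    obtain ⟨j, hj⟩ := hy
    by_cases e : z = D.y j
    · rw [e, h2]
    · rw [hj e, lz_neg, h.nm.neg, h2]

theorem sA2 (d : Nat) (hd : 1 <= d) (h : SInv d) : SA2 d := by
  intro I _ D hD hG ρ hρ
  have hρ' : 0 < min ρ (1 / 2) := lt_min hρ (by norm_num)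
  obtain ⟨θ', hθ', hG⟩ := hG _ hρ'
  obtain ⟨θ, h1, h2, h3, h0⟩ : ∃ θ : ℝ, 1 < (1 + θ') * (1 - θ) ^ d ∧ θ < θ' ∧ θ < 1 ∧ 0 < θ := by
    have c : ContinuousAt (fun t : ℝ => (1 + θ') * (1 - t) ^ d) 0 := by fun_prop
    have e1 : ∀ᶠ t : ℝ in nhds 0, 1 < (1 + θ') * (1 - t) ^ d :=
      c.eventually_const_lt (by simpa using hθ')
    have e2 : ∀ᶠ t : ℝ in nhdsWithin 0 (Set.Ioi 0),
        1 < (1 + θ') * (1 - t) ^ d ∧ t < θ' ∧ t < 1 :=
      (e1.and ((eventually_lt_nhds hθ').and (eventually_lt_nhds one_pos))).filter_mono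
        nhdsWithin_le_nhds
    obtain ⟨θ, ⟨a, b, c⟩, e⟩ := (e2.and self_mem_nhdsWithin).exists
    exact ⟨θ, a, b, c, e⟩
  refine ⟨θ, h0, fun g hg hn => ?_⟩
  have := ne_A2 hd
  have hp : 0 < 1 - θ := sub_pos.2 h3
  have hd1 : (1 : Op d).det = 1 := LinearMap.det_id
  have hF : (2 * (1 - θ)) ^ d ≤ FF g 1 := by
    rw [FF, hd1, abs_one, div_one]
    refine pow_le_pow_left₀ (by positivity) (le_ciInf fun z => ?_) d
    refine le_trans ?_ (hn (lz z.1)).1
    rw [mul_comm]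
    exact mul_le_mul_of_nonneg_left (two_A2 hD z.2) hp.le
  have claim : ∀ T : Op d, T.det ≠ 0 → FF g 1 ≤ FF g T →
      ∃ c > (0 : ℝ), ∃ T', Same (c • T) T' ∧ ‖T' - 1‖ ≤ min ρ (1 / 2) := by
    intro T hT hle
    have hT' : 0 < |T.det| := abs_pos.2 hT
    have h4 : (2 * (1 - θ)) ^ d * |T.det| ≤ lm g T ^ d := (le_div_iff₀ hT').1 (hF.trans hle)
    have h5 : 0 < lm g T := (lm_nonneg hg T).lt_of_ne' fun e => by
      rw [e, zero_pow (by omega)] at h4
      exact absurd h4 (not_le.2 (by positivity))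
    have hc : 0 < 2 / lm g T := by positivity
    refine ⟨2 / lm g T, hc, hG _ ?_ (fun z hz => ?_) ?_⟩
    · rw [det_smul']
      exact mul_ne_zero (pow_ne_zero _ hc.ne') hT
    · have h6 : 2 ≤ g (((2 / lm g T) • T) (lz z)) := by
        rw [smul_apply, hg.smul, abs_of_pos hc, div_mul_eq_mul_div,
          le_div_iff₀ h5]
        exact mul_le_mul_of_nonneg_left (lm_le hg T hz) zero_le_two
      have h7 := h6.trans (hn _).2
      have h8 := hD.nm.nonneg (((2 / lm g T) • T) (lz z))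
      by_contra h9
      nlinarith [mul_pos h0 hθ']
    · rw [det_smul', abs_mul, abs_of_pos (pow_pos hc d), div_pow, div_mul_eq_mul_div,
        div_le_iff₀ (pow_pos h5 d)]
      calc 2 ^ d * |T.det| ≤ (1 + θ') * (1 - θ) ^ d * (2 ^ d * |T.det|) :=
            le_mul_of_one_le_left (by positivity) h1.le
        _ = (1 + θ') * ((2 * (1 - θ)) ^ d * |T.det|) := by rw [mul_pow]; ring
        _ ≤ _ := mul_le_mul_of_nonneg_left h4 (by positivity)
  constructor
  · obtain ⟨T₀, hT₀, hm⟩ := max_A2 hd hg hρ'.le (min_le_right _ _)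
    refine ⟨T₀, det_A2 (hT₀.trans (min_le_right _ _)), fun T hT => ?_⟩
    rcases le_total (FF g 1) (FF g T) with hle | hle
    · obtain ⟨c, hc, T', hS, hT'⟩ := claim T hT hle
      rw [← (h g hg c T T' hc hS).2.1]
      exact hm T' hT'
    · exact hle.trans (hm 1 (by rw [sub_self, norm_zero]; exact hρ'.le))
  · intro T hT
    obtain ⟨c, hc, T', hS, hT'⟩ := claim T hT.1 (hT.2 1 (by rw [hd1]; exact one_ne_zero))
    exact ⟨c, hc, T', hS, hT'.trans (min_le_left _ _)⟩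

end Pool.Agent.MP_02cac4_co.Sp

end

section
namespace Pool.Agent.MP_02cac4_co.Sp

open Finset MeasureTheory
open scoped RealInnerProductSpace

theorem small_A3 (B : ℝ) {ε : ℝ} (hε : 0 < ε) : ∀ᶠ s in nhdsWithin (0 : ℝ) (Set.Ioi 0), s * B ≤ ε := by
  have h : Filter.Tendsto (fun s : ℝ => s * B) (nhds 0) (nhds (0 * B)) :=
    (continuous_id.mul continuous_const).tendsto 0
  rw [zero_mul] at h
  exact (h.eventually (ge_mem_nhds hε)).filter_mono nhdsWithin_le_nhds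

theorem count_A3 {d : ℕ} {I : Type} [Fintype I] {D : Dat d I} (hD : D.Ok) (hd : 1 ≤ d)
    {g : Ed d → ℝ} {T : Op d} (hg : Nm g) (hT : T.det ≠ 0)
    (h0 : ∀ z, z ≠ 0 → (∀ i, z ≠ D.y i ∧ z ≠ -D.y i) → ∀ i, g (T (lz (D.y i))) < g (T (lz z)))
    (h1 : ∀ i, g (T (lz (D.y i))) = lm g T) : (Mn g T).ncard = 2 * Fintype.card I := by
  have inj : Function.Injective T := by
    have h' : LinearMap.det (T : Ed d →ₗ[ℝ] Ed d) ≠ 0 := hT
    rw [Ne, LinearMap.det_eq_zero_iff_ker_ne_bot, not_not] at h'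
    exact LinearMap.ker_eq_bot.1 h'
  have e : Mn g T = Set.range fun k : I ⊕ I => T (lz (Sum.elim D.y (fun i => -D.y i) k)) := by
    ext x
    constructor
    · rintro ⟨⟨z, hz, rfl⟩, hx⟩
      by_contra hn
      obtain ⟨i⟩ := hD.nonempty hd
      have := h0 z hz (fun j => ⟨fun e => hn ⟨Sum.inl j, by rw [e]; rfl⟩,
        fun e => hn ⟨Sum.inr j, by rw [e]; rfl⟩⟩) i
      rw [h1, hx] at this
      exact lt_irrefl _ this
    · rintro ⟨i | i, rfl⟩
      · exact ⟨⟨_, hD.ne i, rfl⟩, h1 i⟩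
      · refine ⟨⟨_, neg_ne_zero.2 (hD.ne i), rfl⟩, ?_⟩
        change g (T (lz (-D.y i))) = _
        rw [lz_neg, map_neg, hg.neg, h1]
  rw [e, Set.ncard_range_of_injective, Nat.card_eq_fintype_card, Fintype.card_sum, two_mul]
  rintro (i | i) (j | j) h <;> have := lz_inj (inj h)
  · exact congrArg _ (hD.inj this)
  · exact absurd this (hD.nneg i j)
  · exact absurd this.symm (hD.nneg j i)
  · exact congrArg _ (hD.inj (neg_injective this))

theorem sA3 (d : Nat) (hd : 1 <= d) (h : SDet d) : SA3 d := by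
  classical
  intro I _ D hD
  obtain ⟨K, K0, hK⟩ := h
  choose A hA using fun j => hD.sur fun i =>
    1 - if i = j then (1 + ∑ i, D.lam i) / D.lam j else 0
  have tA : ∀ j, tr (A j) = -1 := fun j => by
    rw [hD.eut]
    simp only [hA, mul_sub, mul_one, mul_ite, mul_zero, sum_sub_distrib, sum_ite_eq', mem_univ,
      if_true]
    rw [mul_div_cancel₀ _ (hD.lam_pos j).ne']
    ring
  obtain ⟨M, M1, hM⟩ : ∃ M : ℝ, 1 ≤ M ∧ ∀ i, ‖A i‖ ≤ M ∧ ‖D.φ i‖ ≤ M ∧ ‖lz (D.y i)‖ ≤ M := by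
    obtain ⟨M, hM⟩ := (Set.finite_range fun i => ‖A i‖ + ‖D.φ i‖ + ‖lz (D.y i)‖).bddAbove
    refine ⟨max M 1, le_max_right _ _, fun i => ?_⟩
    have := (hM (Set.mem_range_self i)).trans (le_max_left M 1)
    have a1 := norm_nonneg (A i)
    have a2 := norm_nonneg (D.φ i)
    have a3 := norm_nonneg (lz (D.y i))
    exact ⟨by linarith, by linarith, by linarith⟩
  have M3 : 1 ≤ M ^ 3 := one_le_pow₀ M1
  refine ⟨1 / (3 * M ^ 3), by positivity, fun δ hδ g T hg hL hB => ?_⟩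
  rw [le_div_iff₀ (by positivity)] at hδ
  have δ0 : 0 ≤ δ := (norm_nonneg _).trans hL.cl
  have δ1 : δ ≤ 1 := by nlinarith
  obtain ⟨ε, ε0, hε⟩ := hL.mn
  obtain ⟨η, η0, hη⟩ := hL.lip
  have h0 := hε 0 (by rw [norm_zero]; exact ε0.le)
  rw [add_zero, one_mul] at h0
  refine (fun h1 => ⟨h1, count_A3 hD hd hg hB.1 h0 h1⟩) fun j => ?_
  refine ((lm_le hg T (hD.ne j)).eq_of_not_lt fun hj => ?_).symm
  have L0 : 0 < lm g T := by
    obtain ⟨i, hi⟩ := hD.lm_eq hd hg h0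
    linarith [(abs_le.1 (hL.val i)).1]
  obtain ⟨s, ⟨⟨⟨⟨⟨s1, s2⟩, s3⟩, s4⟩, s5⟩, s6⟩, s0⟩ := (((((((small_A3 M ε0).and
    (small_A3 (2 * M ^ 2) η0)).and (small_A3 M one_pos)).and
    (small_A3 (K * M ^ 2) one_half_pos)).and (small_A3 2 one_pos)).and
    (small_A3 ((M + 1) * (2 * M ^ 2)) (sub_pos.2 hj))).and self_mem_nhdsWithin).exists
  have s0 : 0 < s := s0
  have nA : ‖s • A j‖ ≤ s * M := by
    rw [norm_smul, Real.norm_of_nonneg s0.le]
    exact mul_le_mul_of_nonneg_left (hM j).1 s0.le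
  have key : ∀ i, lm g T ≤ g (((1 + s • A j) * T) (lz (D.y i))) := by
    intro i
    obtain ⟨-, m2, m3⟩ := hM i
    have a0 := lm_le hg T (hD.ne i)
    have a1 : ‖(T - 1) (lz (D.y i))‖ ≤ δ * M :=
      ((T - 1).le_opNorm _).trans (mul_le_mul hL.cl m3 (norm_nonneg _) δ0)
    have a2 : T (lz (D.y i)) = lz (D.y i) + (T - 1) (lz (D.y i)) := by simp
    have a3 : ‖T (lz (D.y i))‖ ≤ 2 * M := by
      rw [a2]
      refine (norm_add_le _ _).trans ?_
      nlinarith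
    have a4 : ‖(s • A j) (T (lz (D.y i)))‖ ≤ s * (2 * M ^ 2) :=
      (((s • A j).le_opNorm _).trans (mul_le_mul nA a3 (norm_nonneg _) (by positivity))).trans_eq
        (by ring)
    have a5 := (abs_le.1 (hη i _ (a4.trans s2))).1
    change _ ≤ g (T (lz (D.y i)) + (s • A j) (T (lz (D.y i))))
    by_cases e : i = j
    · subst e
      have a6 := (abs_le.1 (((D.φ i).le_opNorm _).trans
        (mul_le_mul m2 a4 (norm_nonneg _) (by positivity)))).1
      have a7 := mul_le_mul δ1 a4 (norm_nonneg _) zero_le_one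
      linarith
    · have a6 : D.φ i ((s • A j) (T (lz (D.y i)))) =
          s + D.φ i ((s • A j) ((T - 1) (lz (D.y i)))) := by
        conv_lhs => rw [a2, map_add, map_add, _root_.smul_apply, map_smul, hA]
        rw [if_neg e, sub_zero, smul_eq_mul, mul_one]
      have a7 := (abs_le.1 (((D.φ i).le_opNorm _).trans (mul_le_mul m2 (((s • A j).le_opNorm _).trans
        (mul_le_mul nA a1 (norm_nonneg _) (by positivity))) (norm_nonneg _) (by positivity)))).1
      have a8 := mul_le_mul_of_nonneg_left a4 δ0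
      have a9 : s * (δ * (2 * M ^ 2 * 1)) ≤ s * (δ * (2 * M ^ 2 * M)) := by gcongr
      have a10 := mul_le_mul_of_nonneg_left hδ s0.le
      linarith
  obtain ⟨i, hi⟩ := hD.lm_eq hd hg (hε _ (nA.trans s1))
  have b1 := abs_le.1 (hK _ (nA.trans s3))
  have b2 : tr (s • A j) = -s := by
    have : tr (s • A j) = s * tr (A j) := by
      rw [tr, ContinuousLinearMap.toLinearMap_smul, map_smul]
      rfl
    rw [this, tA, mul_neg, mul_one]
  have b3 : K * ‖s • A j‖ ^ 2 ≤ s / 2 := by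
    have a1 : K * ‖s • A j‖ ^ 2 ≤ K * (s * M) ^ 2 := by gcongr
    have a2 := mul_le_mul_of_nonneg_left s4 s0.le
    linarith
  have b4 : 0 < (1 + s • A j).det := by linarith [b1.1]
  have b5 : (1 + s • A j).det < 1 := by linarith [b1.2]
  have b6 := hB.2 ((1 + s • A j) * T) (by rw [det_mul']; exact mul_ne_zero b4.ne' hB.1)
  have b7 := abs_pos.2 hB.1
  rw [FF, FF, det_mul', abs_mul, abs_of_pos b4, hi] at b6
  refine absurd b6 (not_le.2 (lt_of_lt_of_le ?_
    (div_le_div_of_nonneg_right (pow_le_pow_left₀ L0.le (key i) d) (by positivity))))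
  exact div_lt_div_of_pos_left (by positivity) (by positivity) (mul_lt_of_lt_one_left b7 b5)

end Pool.Agent.MP_02cac4_co.Sp

end

section
namespace Pool.Agent.MP_02cac4_co.Sp

open Finset MeasureTheory
open scoped RealInnerProductSpace

theorem key_A4 {d : ℕ} (hd : 1 ≤ d) {I : Type} [Fintype I] (D : Dat d I) (h : D.Ok)
    (hc : Fintype.card I = d ^ 2) :
    ∃ c > (0 : ℝ), ∀ A : Op d, tr A = 0 → ∃ i, D.φ i (A (lz (D.y i))) ≤ -(c * ‖A‖) := by
  have := h.nonempty hd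
  let Φ : Op d →ₗ[ℝ] I → ℝ :=
    { toFun := fun A i => D.φ i (A (lz (D.y i)))
      map_add' := fun A B => funext fun i => by simp
      map_smul' := fun c A => funext fun i => by simp }
  have hr : Module.finrank ℝ (Op d) = Module.finrank ℝ (I → ℝ) := by
    rw [← (LinearMap.toContinuousLinearMap (𝕜 := ℝ) (E := Ed d) (F' := Ed d)).finrank_eq,
      Module.finrank_linearMap, finrank_euclideanSpace_fin, Module.finrank_fintype_fun_eq_card,
      hc, sq]
  have hi : Function.Injective Φ :=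
    (LinearMap.injective_iff_surjective_of_finrank_eq_finrank hr).2 fun t =>
      (h.sur t).imp fun A hA => funext hA
  obtain ⟨K, hK, hA⟩ := Φ.exists_antilipschitzWith (LinearMap.ker_eq_bot.2 hi)
  obtain ⟨k0, -, hk0⟩ := exists_min_image univ D.lam univ_nonempty
  have l0 := h.lam_pos k0
  have L0 : 0 < ∑ i, D.lam i := sum_pos (fun i _ => h.lam_pos i) univ_nonempty
  have K0 : (0 : ℝ) < K := hK
  refine ⟨1 / (K * (1 + (∑ i, D.lam i) / D.lam k0)), by positivity, fun A h0 => ?_⟩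
  obtain ⟨i, -, hm⟩ := exists_min_image univ (Φ A) univ_nonempty
  refine ⟨i, ?_⟩
  change Φ A i ≤ _
  have e : ∑ k, D.lam k * (Φ A k - Φ A i) = -Φ A i * ∑ k, D.lam k := by
    have : ∑ k, D.lam k * Φ A k = 0 := (h.eut A).symm.trans h0
    simp only [mul_sub, sum_sub_distrib, ← sum_mul, this]
    ring
  have p : ∀ k ∈ univ, 0 ≤ D.lam k * (Φ A k - Φ A i) := fun k hk =>
    mul_nonneg (h.lam_pos k).le (sub_nonneg.2 (hm k hk))
  have m0 : 0 ≤ -Φ A i := nonneg_of_mul_nonneg_left (e ▸ sum_nonneg p) L0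
  have q0 : 0 ≤ -Φ A i * ((∑ i, D.lam i) / D.lam k0) := by positivity
  have h1 : ‖Φ A‖ ≤ -Φ A i * (1 + (∑ i, D.lam i) / D.lam k0) := by
    refine (pi_norm_le_iff_of_nonneg (by positivity)).2 fun k => abs_le.2 ⟨?_, ?_⟩
    · linarith [hm k (mem_univ k)]
    · have h2 := (mul_le_mul_of_nonneg_right (hk0 k (mem_univ k))
        (sub_nonneg.2 (hm k (mem_univ k)))).trans (e ▸ single_le_sum p (mem_univ k))
      rw [← le_div_iff₀' l0, mul_div_assoc] at h2
      linarith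
  have h2 : ‖A‖ ≤ K * ‖Φ A‖ := by simpa using hA.le_mul_dist A 0
  rw [le_neg, div_mul_eq_mul_div, one_mul, div_le_iff₀ (by positivity)]
  nlinarith [mul_le_mul_of_nonneg_left h1 K0.le]

theorem sA4 (d : ℕ) (hd : 1 ≤ d) (h : SDet d) : SA4 d := by
  intro I _ D hD hc
  obtain ⟨K, K0, hK⟩ := h
  obtain ⟨c, c0, hk⟩ := key_A4 hd D hD hc
  obtain ⟨i0⟩ := hD.nonempty hd
  obtain ⟨R, hR⟩ := Finite.exists_le fun i => ‖lz (D.y i)‖
  obtain ⟨P, hP⟩ := Finite.exists_le fun i => ‖D.φ i‖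
  have R0 : 0 ≤ R := (norm_nonneg _).trans (hR i0)
  have P0 : 0 ≤ P := (norm_nonneg _).trans (hP i0)
  refine ⟨min 1 (c / (2 * (P * R + 2 * R) + 1)), by positivity, fun δ hδ g T hg hl hT hm => ?_⟩
  have d0 : 0 ≤ δ := (norm_nonneg _).trans hl.cl
  have d1 : δ ≤ 1 := hδ.trans (min_le_left _ _)
  have d2 : δ * (2 * (P * R + 2 * R) + 1) ≤ c :=
    (le_div_iff₀ (by positivity)).1 (hδ.trans (min_le_right _ _))
  obtain ⟨ε, e0, he⟩ := hl.lip
  refine ⟨c / 12, by positivity, min (min (ε / (2 * R + 1)) 1) (min (c / 12 / K) (6 / c)),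
    by positivity, fun A hA hn => ?_⟩
  simp only [lt_min_iff] at hn
  obtain ⟨⟨n1, n2⟩, n3, n4⟩ := hn
  rw [lt_div_iff₀ (by positivity)] at n1 n3 n4
  obtain ⟨i, hi⟩ := hk A hA
  have n0 := norm_nonneg A
  have a1 : ‖(T - 1) (lz (D.y i))‖ ≤ δ * R :=
    ((T - 1).le_opNorm _).trans (mul_le_mul hl.cl (hR i) (norm_nonneg _) d0)
  have e1 : T (lz (D.y i)) = lz (D.y i) + (T - 1) (lz (D.y i)) := by simp
  have a2 : ‖A (T (lz (D.y i)))‖ ≤ ‖A‖ * (2 * R) := by
    refine (A.le_opNorm _).trans (mul_le_mul_of_nonneg_left ?_ n0)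
    rw [e1]
    refine (norm_add_le _ _).trans ?_
    nlinarith [hR i]
  have a3 : D.φ i (A ((T - 1) (lz (D.y i)))) ≤ P * (‖A‖ * (δ * R)) :=
    (le_abs_self _).trans (((D.φ i).le_opNorm _).trans (mul_le_mul (hP i)
      ((A.le_opNorm _).trans (mul_le_mul_of_nonneg_left a1 n0)) (norm_nonneg _) P0))
  have a4 := (abs_le.1 (he i (A (T (lz (D.y i)))) (by nlinarith))).2
  have a5 : D.φ i (A (T (lz (D.y i)))) =
      D.φ i (A (lz (D.y i))) + D.φ i (A ((T - 1) (lz (D.y i)))) := by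
    rw [← map_add, ← map_add, ← e1]
  have a6 : lm g T ≤ 3 := by linarith [(abs_le.1 (hl.val i)).2, hm i]
  have L0 := lm_nonneg hg T
  have a7 : lm g ((1 + A) * T) ≤ lm g T * (1 - c / 6 * ‖A‖) := by
    refine (lm_le hg _ (hD.ne i)).trans ?_
    have e2 : ((1 + A) * T) (lz (D.y i)) = T (lz (D.y i)) + A (T (lz (D.y i))) := by simp
    rw [e2]
    rw [hm i] at a4
    have b1 := mul_le_mul_of_nonneg_left a2 d0
    have b2 := mul_le_mul_of_nonneg_left d2 n0
    have b3 := mul_le_mul_of_nonneg_right a6 (mul_nonneg c0.le n0)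
    have b4 := mul_nonneg d0 n0
    nlinarith
  have s0 : 0 ≤ 1 - c / 6 * ‖A‖ := by linarith
  have a8 : lm g ((1 + A) * T) ^ d ≤ lm g T ^ d * (1 - c / 6 * ‖A‖) := by
    refine (pow_le_pow_left₀ (lm_nonneg hg _) a7 d).trans ?_
    rw [mul_pow]
    exact mul_le_mul_of_nonneg_left (pow_le_of_le_one s0
      (by linarith [mul_nonneg c0.le n0]) (by omega)) (by positivity)
  have a9 := (abs_le.1 (hK A n2.le)).1
  rw [hA] at a9
  have b1 : K * ‖A‖ ^ 2 ≤ c / 12 * ‖A‖ := by nlinarith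
  have b2 : 0 < (1 + A).det := by linarith
  have b3 : 1 - c / 6 * ‖A‖ ≤ (1 - c / 12 * ‖A‖) * (1 + A).det := by
    have := mul_le_mul_of_nonneg_left (show 1 - c / 12 * ‖A‖ ≤ (1 + A).det by linarith)
      (show 0 ≤ 1 - c / 12 * ‖A‖ by linarith)
    nlinarith [sq_nonneg (c / 12 * ‖A‖)]
  have t0 : 0 < |T.det| := abs_pos.2 hT
  rw [FF, FF, det_mul', abs_mul, abs_of_pos b2, div_le_iff₀ (by positivity)]
  refine a8.trans ((mul_le_mul_of_nonneg_left b3 (by positivity)).trans (le_of_eq ?_))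
  field_simp

end Pool.Agent.MP_02cac4_co.Sp

end

section
namespace Pool.Agent.MP_02cac4_co.Sp

open Finset MeasureTheory
open scoped RealInnerProductSpace

theorem sub_A5 {d : ℕ} {g : Ed d → ℝ} (hg : Nm g) (y : Ed d) (hy : y ≠ 0) :
    ∃ u : Ed d →ₗ[ℝ] ℝ, u y = g y ∧ ∀ x, u x ≤ g x := by
  have hom : ∀ c : ℝ, 0 < c → ∀ x, g (c • x) = c * g x := fun c hc x => by
    rw [hg.smul, abs_of_pos hc]
  obtain ⟨u, hu1, hu2⟩ := exists_extension_of_le_sublinear
    (LinearPMap.mkSpanSingleton y (g y) hy) g hom hg.add (by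
      rintro ⟨x, hx⟩
      obtain ⟨c, rfl⟩ := Submodule.mem_span_singleton.1 hx
      rw [LinearPMap.mkSpanSingleton'_apply]
      simp only [RingHom.id_apply, smul_eq_mul]
      rcases lt_or_ge 0 c with hc | hc
      · exact (hom c hc y).ge
      · exact (mul_nonpos_of_nonpos_of_nonneg hc (hg.nonneg y)).trans (hg.nonneg _))
  refine ⟨u, ?_, hu2⟩
  have := hu1 ⟨y, Submodule.mem_span_singleton_self y⟩
  rw [LinearPMap.mkSpanSingleton_apply] at this
  exact this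

theorem dir_A5 {d : ℕ} {I : Type} [Fintype I] [Nonempty I] (hI : Fintype.card I < d ^ 2)
    (u : I → (Ed d →ₗ[ℝ] ℝ)) (y : I → Ed d) :
    ∃ A : Op d, A ≠ 0 ∧ tr A = 0 ∧ ∀ p, 0 ≤ u p (A (y p)) := by
  let Φ : (Ed d →ₗ[ℝ] Ed d) →ₗ[ℝ] (I → ℝ) × ℝ :=
    LinearMap.prod (LinearMap.pi fun p => (u p) ∘ₗ (LinearMap.applyₗ (y p)))
      (LinearMap.trace ℝ (Ed d))
  have hle : Module.finrank ℝ ((I → ℝ) × ℝ) ≤ Module.finrank ℝ (Ed d →ₗ[ℝ] Ed d) := by
    rw [Module.finrank_prod, Module.finrank_linearMap, Module.finrank_pi]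
    simp only [finrank_euclideanSpace_fin, Module.finrank_self]
    rw [← sq]
    omega
  have key : ∃ (A : Ed d →ₗ[ℝ] Ed d) (s : ℝ), A ≠ 0 ∧ 0 ≤ s ∧ Φ A = (fun _ => s, 0) := by
    by_cases hk : Function.Injective Φ
    · have hs := (LinearMap.injective_iff_surjective_of_finrank_eq_finrank
        (le_antisymm (LinearMap.finrank_le_finrank_of_injective hk) hle)).mp hk
      obtain ⟨A, hA⟩ := hs (fun _ => 1, 0)
      refine ⟨A, 1, fun h => ?_, zero_le_one, hA⟩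
      rw [h, map_zero] at hA
      exact zero_ne_one (congrFun (congrArg Prod.fst hA) (Classical.arbitrary I))
    · rw [← LinearMap.ker_eq_bot] at hk
      obtain ⟨A, hA, hA0⟩ := Submodule.exists_mem_ne_zero_of_ne_bot hk
      exact ⟨A, 0, hA0, le_rfl, hA⟩
  obtain ⟨A, s, hA0, hs, hA⟩ := key
  exact ⟨LinearMap.toContinuousLinearMap A, by simpa using hA0, congrArg Prod.snd hA,
    fun p => hs.trans_eq (congrFun (congrArg Prod.fst hA) p).symm⟩

open Filter Topology in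
theorem sA5 (d : Nat) : SA5 d := by
  rintro I _ D hD hI δ hδ g T hg hL hdet ⟨c, hc, r, hr, H⟩
  have hd : 1 ≤ d := by
    rcases d with _ | d
    · simp at hI
    · omega
  have := hD.nonempty hd
  have h1g : ∀ i, 1 ≤ g (T (lz (D.y i))) := fun i => by linarith [(abs_le.1 (hL.val i)).1]
  have hy : ∀ i, T (lz (D.y i)) ≠ 0 := fun i h0 => by
    have h1 := h1g i
    rw [h0, hg.zero] at h1
    linarith
  choose u hu1 hu2 using fun i => sub_A5 hg (T (lz (D.y i))) (hy i)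
  obtain ⟨A, hA0, hAtr, hAu⟩ := dir_A5 hI u fun i => T (lz (D.y i))
  obtain ⟨q, hq, hqd⟩ := det_expand A hAtr
  obtain ⟨ε, hε, hmn⟩ := hL.mn
  have hAn : 0 < ‖A‖ := norm_pos_iff.2 hA0
  have hmu : 0 < lm g T := by
    have h0 := hmn 0 (by simpa using hε.le)
    rw [add_zero, one_mul] at h0
    obtain ⟨i, hi⟩ := hD.lm_eq hd hg h0
    linarith [h1g i]
  have e1 : ∀ s > (0 : ℝ), ∀ᶠ t in 𝓝[>] (0 : ℝ), t * ‖A‖ < s := by
    intro s hs
    apply Filter.Eventually.filter_mono nhdsWithin_le_nhds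
    have : Continuous fun t : ℝ => t * ‖A‖ := by fun_prop
    exact this.continuousAt.eventually_lt continuousAt_const (by simpa using hs)
  have e2 : ∀ᶠ t in 𝓝[>] (0 : ℝ), |q t| * t < c * ‖A‖ := by
    apply Filter.Eventually.filter_mono nhdsWithin_le_nhds
    have : Continuous fun t : ℝ => |q t| * t := by fun_prop
    exact this.continuousAt.eventually_lt continuousAt_const (by simp; positivity)
  have e3 : ∀ᶠ t in 𝓝[>] (0 : ℝ), |q t * t ^ 2| < 1 := by
    apply Filter.Eventually.filter_mono nhdsWithin_le_nhds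
    have : Continuous fun t : ℝ => |q t * t ^ 2| := by fun_prop
    exact this.continuousAt.eventually_lt continuousAt_const (by simp)
  obtain ⟨t, ⟨⟨⟨ht1, ht2⟩, ht3⟩, ht4⟩, ht0⟩ :=
    (((((e1 r hr).and (e1 ε hε)).and e2).and e3).and self_mem_nhdsWithin).exists
  have ht0' : 0 < t := ht0
  have hn : ‖t • A‖ = t * ‖A‖ := by rw [norm_smul, Real.norm_of_nonneg ht0'.le]
  have htr : tr (t • A) = 0 := by
    change LinearMap.trace ℝ (Ed d) (t • (A : Ed d →ₗ[ℝ] Ed d)) = 0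
    rw [map_smul, show LinearMap.trace ℝ (Ed d) (A : Ed d →ₗ[ℝ] Ed d) = 0 from hAtr, smul_zero]
  have h1 := H (t • A) htr (hn ▸ ht1)
  have h2 : lm g T ≤ lm g ((1 + t • A) * T) := by
    obtain ⟨i, hi⟩ := hD.lm_eq hd hg (hmn (t • A) (hn ▸ ht2.le))
    rw [hi]
    refine (lm_le hg T (hD.ne i)).trans ?_
    rw [← hu1 i]
    refine le_trans ?_ (hu2 i _)
    have e : ((1 + t • A) * T) (lz (D.y i)) = T (lz (D.y i)) + t • A (T (lz (D.y i))) := rfl
    rw [e, map_add, map_smul, smul_eq_mul]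
    exact le_add_of_nonneg_right (mul_nonneg ht0'.le (hAu i))
  rw [FF, FF, hn, det_mul', hqd] at h1
  obtain ⟨E, hE⟩ : ∃ E, E = |1 + q t * t ^ 2| := ⟨_, rfl⟩
  have hDpos : 0 < E := hE ▸ abs_pos.2 (by linarith [(abs_lt.1 ht4).1])
  have hDle : E ≤ 1 + |q t| * t * t := by
    rw [hE]
    refine (abs_add_le _ _).trans (le_of_eq ?_)
    rw [abs_one, abs_mul, abs_of_nonneg (sq_nonneg t)]
    ring
  have hTpos : 0 < |T.det| := abs_pos.2 hdet
  rw [abs_mul, ← hE] at h1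
  have h3 : lm g T ^ d / (E * |T.det|) ≤ lm g ((1 + t • A) * T) ^ d / (E * |T.det|) := by
    gcongr
  have h4 : E⁻¹ * (lm g T ^ d / |T.det|) ≤ (1 - c * (t * ‖A‖)) * (lm g T ^ d / |T.det|) := by
    refine le_trans (le_of_eq ?_) (h3.trans h1)
    field_simp
  have h5 : E⁻¹ ≤ 1 - c * (t * ‖A‖) := le_of_mul_le_mul_right h4 (by positivity)
  have h6 : 0 < 1 - c * (t * ‖A‖) := lt_of_lt_of_le (inv_pos.2 hDpos) h5
  have h7 : 1 ≤ E * (1 - c * (t * ‖A‖)) := by
    have := mul_le_mul_of_nonneg_left h5 hDpos.le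
    rwa [mul_inv_cancel₀ hDpos.ne'] at this
  have h8 : E < 1 + c * ‖A‖ * t := by
    have : |q t| * t * t < c * ‖A‖ * t := by gcongr
    linarith
  have h9 : E * (1 - c * (t * ‖A‖)) < (1 + c * ‖A‖ * t) * (1 - c * (t * ‖A‖)) := by gcongr
  nlinarith [sq_nonneg (c * ‖A‖ * t)]

end Pool.Agent.MP_02cac4_co.Sp

end

section
namespace Pool.Agent.MP_02cac4_co.Sp

open Finset MeasureTheory
open scoped RealInnerProductSpace

theorem pos_Hau {d : ℕ} {g : Ed d → ℝ} (h : Nm g) {x : Ed d} (hx : x ≠ 0) : 0 < g x := by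
  obtain ⟨c, hc, h⟩ := h.low
  exact lt_of_lt_of_le (mul_pos hc (norm_pos_iff.2 hx)) (h x)

theorem body_Hau {d : ℕ} {g : Ed d → ℝ} (h : Nm g) :
    ∃ C : SymmBody d, (C.1 : Set (Ed d)) = {x | g x ≤ 1} := by
  obtain ⟨c, hc, h1⟩ := h.low
  obtain ⟨M, hM, h2⟩ := h.up
  have cv : Convex ℝ {x | g x ≤ 1} := by
    intro x hx y hy a b ha hb hab
    have e := h.add (a • x) (b • y)
    rw [h.smul, h.smul, abs_of_nonneg ha, abs_of_nonneg hb] at e
    have hx' : g x ≤ 1 := hx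
    have hy' : g y ≤ 1 := hy
    change g _ ≤ 1
    nlinarith
  have cp : IsCompact {x | g x ≤ 1} := by
    refine (isCompact_closedBall (0 : Ed d) c⁻¹).of_isClosed_subset
      (isClosed_le h.cont continuous_const) fun x hx => ?_
    rw [mem_closedBall_zero_iff, ← one_div, le_div_iff₀' hc]
    exact (h1 x).trans hx
  refine ⟨⟨⟨_, cv, cp, 0, by simp [h.zero]⟩, fun x hx => ?_, 0, ?_⟩, rfl⟩
  · change g (-x) ≤ 1
    rw [h.neg]
    exact hx
  · refine mem_interior_iff_mem_nhds.2 (Filter.mem_of_superset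
      (Metric.closedBall_mem_nhds 0 (inv_pos.2 hM)) fun x hx => ?_)
    rw [mem_closedBall_zero_iff, ← one_div, le_div_iff₀' hM] at hx
    exact (h2 x).trans hx

theorem gauge_Hau {d : ℕ} {g : Ed d → ℝ} (h : Nm g) {C : Set (Ed d)} (hc : Convex ℝ C)
    (hs : ∀ x ∈ C, -x ∈ C) {θ : ℝ} (h0 : 0 < θ) (h1 : θ ≤ 1 / 2)
    (ha : ∀ x ∈ C, g x ≤ 1 + θ / 2) (hb : ∀ x, g x ≤ 1 - θ / 2 → x ∈ C) :
    Nm (gauge C) ∧ Near θ g (gauge C) := by
  have hn : C ∈ nhds (0 : Ed d) := by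
    refine Filter.mem_of_superset ((isOpen_lt h.cont continuous_const).mem_nhds
      (show g 0 < 1 - θ / 2 by rw [h.zero]; linarith)) fun x hx => hb x (le_of_lt hx)
  have habs : Absorbent ℝ C := absorbent_nhds_zero hn
  have nr : Near θ g (gauge C) := by
    intro x
    have g0 := h.nonneg x
    constructor
    · rw [gauge_def']
      refine le_csInf ?_ ?_
      · obtain ⟨r, hr, y, hy, e⟩ := habs.gauge_set_nonempty (x := x)
        refine ⟨r, hr, ?_⟩
        rw [← e]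
        change r⁻¹ • r • y ∈ C
        rwa [inv_smul_smul₀ (ne_of_gt hr)]
      · rintro r ⟨hr, hx⟩
        have hr' : 0 < r := hr
        have e := ha _ hx
        rw [h.smul, abs_of_pos (inv_pos.2 hr'), inv_mul_le_iff₀ hr'] at e
        have : (1 - θ) * g x ≤ (1 - θ) * (r * (1 + θ / 2)) :=
          mul_le_mul_of_nonneg_left e (by linarith)
        nlinarith [mul_pos hr' h0, mul_pos (mul_pos hr' h0) h0]
    · rcases eq_or_ne x 0 with rfl | hx
      · rw [gauge_zero, h.zero, mul_zero]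
      · have gp := pos_Hau h hx
        have rp : 0 < (1 + θ) * g x := by positivity
        refine gauge_le_of_mem rp.le ⟨((1 + θ) * g x)⁻¹ • x, hb _ ?_, smul_inv_smul₀ rp.ne' x⟩
        rw [h.smul, abs_of_pos (inv_pos.2 rp), inv_mul_le_iff₀ rp]
        nlinarith [mul_nonneg (mul_pos gp h0).le (show 0 ≤ 1 - θ by linarith)]
  obtain ⟨c, hc0, hl⟩ := h.low
  obtain ⟨M, hM, hu⟩ := h.up
  refine ⟨⟨gauge_add_le hc habs, fun a x => ?_, ⟨(1 - θ) * c, mul_pos (by linarith) hc0,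
    fun x => ?_⟩, ⟨(1 + θ) * M, by positivity, fun x => ?_⟩⟩, nr⟩
  · rcases le_total 0 a with h2 | h2
    · rw [gauge_smul_of_nonneg h2, smul_eq_mul, abs_of_nonneg h2]
    · rw [← gauge_neg hs, ← neg_smul, gauge_smul_of_nonneg (neg_nonneg.2 h2), smul_eq_mul,
        abs_of_nonpos h2]
  · rw [mul_assoc]
    exact (mul_le_mul_of_nonneg_left (hl x) (by linarith)).trans (nr x).1
  · rw [mul_assoc]
    exact (nr x).2.trans (mul_le_mul_of_nonneg_left (hu x) (by linarith))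

theorem sHau (d : ℕ) : SHau d := by
  intro g θ₀ h hθ₀
  obtain ⟨θ, h0, h1, h2⟩ : ∃ θ : ℝ, 0 < θ ∧ θ ≤ 1 / 2 ∧ θ ≤ θ₀ :=
    ⟨min (1 / 2) θ₀, lt_min (by norm_num) hθ₀, min_le_left _ _, min_le_right _ _⟩
  obtain ⟨B, hB⟩ := body_Hau h
  obtain ⟨M, hM, hu⟩ := h.up
  have hε : 0 < θ / (2 * M) := by positivity
  refine ⟨Metric.ball B (θ / (2 * M)), Metric.isOpen_ball, ⟨B, Metric.mem_ball_self hε⟩,
    fun C hC => ?_⟩
  have hC' : Metric.hausdorffDist (C.1 : Set (Ed d)) (B.1 : Set (Ed d)) < θ / (2 * M) := hC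
  have hfin : Metric.hausdorffEDist (C.1 : Set (Ed d)) (B.1 : Set (Ed d)) ≠ ⊤ :=
    ConvexBody.hausdorffEDist_ne_top
  have sm : ∀ x y : Ed d, dist x y < θ / (2 * M) → g (x - y) < θ / 2 := fun x y hxy => by
    rw [dist_eq_norm, lt_div_iff₀ (by positivity)] at hxy
    have := hu (x - y)
    linarith
  have ha : ∀ x ∈ (C.1 : Set (Ed d)), g x ≤ 1 + θ / 2 := by
    intro x hx
    obtain ⟨y, hy, hxy⟩ := Metric.exists_dist_lt_of_hausdorffDist_lt hx hC' hfin
    rw [hB] at hy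
    have e := h.add y (x - y)
    rw [add_sub_cancel] at e
    have hy' : g y ≤ 1 := hy
    linarith [sm x y hxy]
  have hb : ∀ x, g x ≤ 1 - θ / 2 → x ∈ (C.1 : Set (Ed d)) := by
    intro x hx
    by_contra hxC
    obtain ⟨f, u, hf, hfu⟩ := geometric_hahn_banach_closed_point C.1.convex C.1.isClosed hxC
    obtain ⟨y, hy, hmax⟩ := B.1.isCompact.exists_isMaxOn B.1.nonempty f.continuous.continuousOn
    have hm : ∀ z, g z ≤ 1 → f z ≤ f y := fun z hz => hmax (by rw [hB]; exact hz)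
    have m0 : 0 ≤ f y := by simpa using hm 0 (by simp [h.zero])
    have key : ∀ z, f z ≤ f y * g z := by
      intro z
      rcases eq_or_ne z 0 with rfl | hz
      · simp [h.zero]
      · have gp := pos_Hau h hz
        have := hm ((g z)⁻¹ • z) (by
          rw [h.smul, abs_of_pos (inv_pos.2 gp), inv_mul_cancel₀ gp.ne'])
        rwa [map_smul, smul_eq_mul, inv_mul_le_iff₀' gp] at this
    rw [Metric.hausdorffDist_comm] at hC'
    rw [Metric.hausdorffEDist_comm] at hfin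
    obtain ⟨c, hc, hyc⟩ := Metric.exists_dist_lt_of_hausdorffDist_lt hy hC' hfin
    have e1 := key (y - c)
    rw [map_sub] at e1
    have e2 := hf c hc
    have e3 := key x
    have e4 := mul_le_mul_of_nonneg_left (sm y c hyc).le m0
    have e5 := mul_le_mul_of_nonneg_left hx m0
    linarith
  obtain ⟨r1, r2⟩ := gauge_Hau h C.1.convex C.2.1 h0 h1 ha hb
  exact ⟨r1, Near.mono h h2 r2⟩

end Pool.Agent.MP_02cac4_co.Sp

end

section
namespace Pool.Agent.MP_02cac4_co.Sp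

open Finset MeasureTheory
open scoped RealInnerProductSpace

variable {d : ℕ}

theorem bas_Dic (i : Fin d) : (EuclideanSpace.basisFun (Fin d) ℝ) i = ee i := by simp [ee]

theorem sum_Dic (T : Op d) (z : Fin d → ℤ) : ∑ i, (z i : ℝ) • T (ee i) = T (lz z) := by
  simp only [lz, map_sum, map_smul]

theorem vol_Dic (T : Op d) : (volume (parallelepiped (fun i => T (ee i)))).toReal = |T.det| := by
  have h1 : parallelepiped (fun i => T (ee i)) =
      (T : Ed d →ₗ[ℝ] Ed d) '' parallelepiped (EuclideanSpace.basisFun (Fin d) ℝ) := by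
    rw [image_parallelepiped]
    congr 1
    funext i
    simp only [Function.comp_apply, bas_Dic]
    rfl
  rw [h1, Measure.addHaar_image_linearMap, OrthonormalBasis.volume_parallelepiped, mul_one,
    ENNReal.toReal_ofReal (abs_nonneg _)]

theorem dens_Dic (C : Set (Ed d)) (T : Op d) :
    packingDensity C (fun i => T (ee i)) = FF (gauge C) T * ((volume C).toReal / 2 ^ d) := by
  unfold packingDensity FF lm
  rw [vol_Dic]
  simp only [sum_Dic]
  ring

theorem ex_Dic (b : Fin d → Ed d) : ∃ T : Op d, b = fun i => T (ee i) := by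
  refine ⟨LinearMap.toContinuousLinearMap
    ((EuclideanSpace.basisFun (Fin d) ℝ).toBasis.constr ℝ b), funext fun i => ?_⟩
  have := (EuclideanSpace.basisFun (Fin d) ℝ).toBasis.constr_basis ℝ b i
  rw [OrthonormalBasis.coe_toBasis, bas_Dic] at this
  exact this.symm

theorem li_Dic (T : Op d) : LinearIndependent ℝ (fun i => T (ee i)) ↔ T.det ≠ 0 := by
  have e : (fun i => T (ee i)) = (T : Ed d →ₗ[ℝ] Ed d) ∘
      (EuclideanSpace.basisFun (Fin d) ℝ).toBasis := by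
    funext i
    simp only [Function.comp_apply, OrthonormalBasis.coe_toBasis, bas_Dic]
    rfl
  constructor
  · intro h h0
    have h1 : LinearMap.ker (T : Ed d →ₗ[ℝ] Ed d) ≠ ⊥ :=
      LinearMap.det_eq_zero_iff_ker_ne_bot.mp h0
    apply h1
    rw [LinearMap.ker_eq_bot']
    intro x hx
    have h2 : ∑ i, x i • T (ee i) = 0 := by
      have : T x = 0 := hx
      rw [← this]
      conv_rhs => rw [← sum_ee x, map_sum]
      simp only [map_smul]
    ext k
    exact Fintype.linearIndependent_iff.mp h (fun i => x i) h2 k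
  · intro h
    have hk : LinearMap.ker (T : Ed d →ₗ[ℝ] Ed d) = ⊥ := by
      by_contra h1
      exact h (LinearMap.det_eq_zero_iff_ker_ne_bot.mpr h1)
    rw [e]
    exact (EuclideanSpace.basisFun (Fin d) ℝ).toBasis.linearIndependent.map' _ hk

theorem FF_nonneg_Dic (C : Set (Ed d)) (T : Op d) : 0 ≤ FF (gauge C) T :=
  div_nonneg (pow_nonneg (Real.iInf_nonneg fun _ => gauge_nonneg _) _) (abs_nonneg _)

theorem sDic (d : Nat) : SDic d := by
  intro C m hR
  have hvol : 0 < (volume (C.1 : Set (Ed d))).toReal := by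
    apply ENNReal.toReal_pos
    · exact (Measure.measure_pos_of_nonempty_interior _ C.2.2).ne'
    · exact C.1.isCompact.measure_lt_top.ne
  have hk : 0 < (volume (C.1 : Set (Ed d))).toReal / 2 ^ d := by positivity
  have hbest : ∀ T : Op d, IsDensestLattice (C.1 : Set (Ed d)) (fun i => T (ee i)) ↔
      Best (gauge (C.1 : Set (Ed d))) T := by
    intro T
    constructor
    · rintro ⟨h1, h2⟩
      refine ⟨(li_Dic T).mp h1, fun T' hT' => ?_⟩
      have := h2 _ ((li_Dic T').mpr hT')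
      rw [dens_Dic, dens_Dic] at this
      exact le_of_mul_le_mul_right this hk
    · rintro ⟨h1, h2⟩
      refine ⟨(li_Dic T).mpr h1, fun b' hb' => ?_⟩
      obtain ⟨T', rfl⟩ := ex_Dic b'
      rw [dens_Dic, dens_Dic]
      exact mul_le_mul_of_nonneg_right (h2 T' ((li_Dic T').mp hb')) hk.le
  obtain ⟨⟨T0, hT0⟩, hall⟩ := hR
  refine ⟨⟨_, (hbest T0).mpr hT0⟩, fun b hb => ?_⟩
  obtain ⟨T, rfl⟩ := ex_Dic b
  have hB := (hbest T).mp hb
  obtain ⟨h1, h2⟩ := hall T hB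
  have e : ∀ A : Op d, (fun i => T (ee i) + A (T (ee i))) = fun i => ((1 + A) * T) (ee i) :=
    fun A => rfl
  refine ⟨?_, ⟨1, one_pos, fun A _ _ => ?_⟩, ?_⟩
  · rw [← h1]
    congr 1
    unfold minimalVectors Mn lm
    simp only [sum_Dic]
  · simp only [e, dens_Dic]
    refine mul_le_mul_of_nonneg_right ?_ hk.le
    by_cases h0 : ((1 + A) * T).det = 0
    · have : FF (gauge (C.1 : Set (Ed d))) ((1 + A) * T) = 0 := by
        unfold FF
        rw [h0, abs_zero, div_zero]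
      rw [this]
      exact FF_nonneg_Dic _ _
    · exact hB.2 _ h0
  · rw [← h2]
    unfold IsUltraMaximumLattice Ult tr
    simp only [e, dens_Dic, ← mul_assoc, mul_le_mul_iff_left₀ hk]

end Pool.Agent.MP_02cac4_co.Sp

end

section
namespace Pool.Agent.MP_02cac4_co.Sp

open Finset

theorem card_rt (d : ℕ) : 2 * Fintype.card (Rt d) = d * (d + 1) := by
  have h1 : (univ.filter fun p : Fin (d + 1) × Fin (d + 1) => p.1 < p.2).card =
      (d + 1).choose 2 := by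
    have := Finset.card_product_filter_lt (s := (univ : Finset (Fin (d + 1))))
    rw [univ_product_univ, card_univ, Fintype.card_fin] at this
    exact this
  rw [Fintype.card_subtype, h1, Nat.choose_two_right,
    Nat.mul_div_cancel' (Nat.even_mul_pred_self (d + 1)).two_dvd]
  simp [mul_comm]

theorem main_sp (d m : ℕ) (hFam : SFam d) (hCfg : SCfg d) (hGlob : SGlob d) (h1 : SA1 d)
    (hInv : SInv d) (h2 : SA2 d) (h3 : SA3 d) (h4 : SA4 d) (h5 : SA5 d) (hH : SHau d)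
    (hD : SDic d) (hlo : d * (d + 1) ≤ 2 * m) (hhi : m ≤ d ^ 2) (hM : m + 1 ≤ 2 ^ d) :
    ∃ U : Set (SymmBody d), IsOpen U ∧ U.Nonempty ∧ ∀ C ∈ U,
      (∃ b, IsDensestLattice (C.1 : Set (Ed d)) b) ∧ ∀ b, IsDensestLattice (C.1 : Set (Ed d)) b →
        (minimalVectors (C.1 : Set (Ed d)) b).ncard = 2 * m ∧
        IsMaximumLattice (C.1 : Set (Ed d)) b ∧
        (IsUltraMaximumLattice (C.1 : Set (Ed d)) b ↔ m = d ^ 2) := by
  have hc := card_rt d
  obtain ⟨k, hk⟩ : ∃ k, m = Fintype.card (Rt d) + k := ⟨m - Fintype.card (Rt d), by omega⟩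
  have e : d * (d + 1) = d ^ 2 + d := by ring
  obtain ⟨F, hF⟩ := hFam k (by omega) (by rw [pow_succ]; omega)
  obtain ⟨r0, hr0, hC⟩ := hCfg
  obtain ⟨η, hη, K, hK, hG⟩ := hGlob r0 hr0
  obtain ⟨D, ν, hD1, hD2, hν, hK1, hK2⟩ := hC (Fin k) F hF η hη K hK
  have hgl := hG (Fin k) D ν hD1 hD2 hν hK1 hK2
  have hI : Fintype.card (Rt d ⊕ Fin k) = m := by simp [hk]
  obtain ⟨δ3, hδ3, H3⟩ := h3 _ D hD1
  obtain ⟨δ4, hδ4, H4⟩ : ∃ δ > (0 : ℝ), m = d ^ 2 → ∀ δ' ≤ δ, ∀ g T, Nm g → D.Loc δ' g T →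
      T.det ≠ 0 → (∀ i, g (T (lz (D.y i))) = lm g T) → Ult g T := by
    by_cases hm : m = d ^ 2
    · obtain ⟨δ, hδ, H⟩ := h4 _ D hD1 (hI.trans hm)
      exact ⟨δ, hδ, fun _ => H⟩
    · exact ⟨1, one_pos, fun h => absurd h hm⟩
  obtain ⟨ρ, hρ, θ1, hθ1, H1⟩ := h1 _ D hD1 (min 1 (min δ3 δ4)) (by positivity)
  obtain ⟨θ2, hθ2, H2⟩ := h2 _ D hD1 hgl ρ hρ
  obtain ⟨U, hU, hne, HU⟩ := hH D.g (min θ1 θ2) hD1.nm (by positivity)
  refine ⟨U, hU, hne, fun C hCU => hD C m ?_⟩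
  obtain ⟨hg, hn⟩ := HU C hCU
  obtain ⟨hex, hloc⟩ := H2 _ hg (hn.mono hD1.nm (min_le_right _ _))
  refine ⟨hex, fun T hT => ?_⟩
  obtain ⟨c, hc0, T', hS, hT'⟩ := hloc T hT
  obtain ⟨-, -, hb, hcard, hu⟩ := hInv _ hg c T T' hc0 hS
  have hL := H1 _ hg (hn.mono hD1.nm (min_le_left _ _)) T' hT'
  obtain ⟨hall, hn2⟩ := H3 _ ((min_le_right _ _).trans (min_le_left _ _)) _ T' hg hL (hb hT)
  refine ⟨by rw [hcard, hn2, hI], hu.trans ⟨fun h => ?_, fun h => ?_⟩⟩
  · by_contra hm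
    exact h5 _ D hD1 (by omega) _ (min_le_left _ _) _ T' hg hL (hb hT).1 h
  · exact H4 h _ ((min_le_right _ _).trans (min_le_right _ _)) _ T' hg hL (hb hT).1 hall

end Pool.Agent.MP_02cac4_co.Sp

end

namespace Pool.Agent.MP_02cac4_co.Sp

theorem final_sp (d m : ℕ) (hd : 1 ≤ d) (hlo : d * (d + 1) ≤ 2 * m) (hhi : m ≤ d ^ 2)
    (hM : m + 1 ≤ 2 ^ d) :
    ∃ U : Set (SymmBody d), IsOpen U ∧ U.Nonempty ∧ ∀ C ∈ U,
      (∃ b, IsDensestLattice (C.1 : Set (Ed d)) b) ∧ ∀ b, IsDensestLattice (C.1 : Set (Ed d)) b →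
        (minimalVectors (C.1 : Set (Ed d)) b).ncard = 2 * m ∧
        IsMaximumLattice (C.1 : Set (Ed d)) b ∧
        (IsUltraMaximumLattice (C.1 : Set (Ed d)) b ↔ m = d ^ 2) :=
  main_sp d m (sFam d) (cfg_all d) (glob_all d) (sA1 d) (sInv d) (sA2 d hd (sInv d))
    (sA3 d hd (sDet d)) (sA4 d hd (sDet d)) (sA5 d) (sHau d) (sDic d) hlo hhi hM

end Pool.Agent.MP_02cac4_co.Sp
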