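import Pool.Agent.MP_02cac4_co.Defs

set_option autoImplicit false

namespace Pool.Agent.MP_02cac4_co

/-- The lattice with basis `b` is a densest lattice for `C`: a global maximum of `δ(C, ·)`. -/
def IsDensestLattice {d : ℕ} (C : Set (EuclideanSpace ℝ (Fin d)))
    (b : Fin d → EuclideanSpace ℝ (Fin d)) : Prop :=
  LinearIndependent ℝ b ∧ ∀ b' : Fin d → EuclideanSpace ℝ (Fin d), LinearIndependent ℝ b' →
    packingDensity C b' ≤ packingDensity C b

/-- The set `M_L` of nonzero vectors of the lattice with basis `b` of minimal `C`-norm. -/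
def minimalVectors {d : ℕ} (C : Set (EuclideanSpace ℝ (Fin d)))
    (b : Fin d → EuclideanSpace ℝ (Fin d)) : Set (EuclideanSpace ℝ (Fin d)) :=
  {x | (∃ z : Fin d → ℤ, z ≠ 0 ∧ x = ∑ i, (z i : ℝ) • b i) ∧
    gauge C x = ⨅ z : {z : Fin d → ℤ // z ≠ 0}, gauge C (∑ i, (z.1 i : ℝ) • b i)}

end Pool.Agent.MP_02cac4_co
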