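import Pool.Agent.MP_02cac4_co.Sp.AllC
import Pool.Agent.MP_02cac4_co.Baire

set_option autoImplicit false

namespace Pool.Agent.MP_02cac4_co.Sp

open Metric

theorem ball_sub_Final {d : ℕ} (C K : ConvexBody (Ed d)) (x0 : Ed d) {r : ℝ}
    (h : closedBall x0 (2 * r) ⊆ (C : Set (Ed d))) (hr : 0 < r) (hd : dist C K < r) :
    ball x0 r ⊆ (K : Set (Ed d)) := by
  intro x hx
  by_contra hxK
  obtain ⟨f, u, hf, hu⟩ := geometric_hahn_banach_closed_point K.convex K.isClosed hxK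
  let v : Ed d := (InnerProductSpace.toDual ℝ (Ed d)).symm f
  have hv : ∀ y, f y = inner ℝ v y := fun y => by simp [v]
  obtain ⟨k0, hk0⟩ := K.nonempty
  have hv0 : v ≠ 0 := by
    intro e
    have h1 := hf k0 hk0
    rw [hv, e] at h1 hu
    simp at h1 hu
    linarith
  have hvn : 0 < ‖v‖ := norm_pos_iff.2 hv0
  have hw : x0 + (2 * r * ‖v‖⁻¹) • v ∈ (C : Set (Ed d)) := h (by
    rw [mem_closedBall, dist_self_add_left, norm_smul, Real.norm_of_nonneg (by positivity),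
      mul_assoc, inv_mul_cancel₀ hvn.ne', mul_one])
  obtain ⟨y, hy, hyy⟩ := exists_dist_lt_of_hausdorffDist_lt hw hd
    (ConvexBody.hausdorffEDist_ne_top (K := C) (L := K))
  have h1 := hf y hy
  rw [hv] at h1 hu
  have h2 := real_inner_le_norm v (x - x0)
  have h3 := real_inner_le_norm v (x0 + (2 * r * ‖v‖⁻¹) • v - y)
  rw [inner_sub_right, inner_add_right, inner_smul_right, real_inner_self_eq_norm_sq] at h3
  rw [inner_sub_right] at h2
  rw [dist_eq_norm] at hyy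
  have h4 : 2 * r * ‖v‖⁻¹ * ‖v‖ ^ 2 = 2 * (‖v‖ * r) := by field_simp
  have h5 : ‖x - x0‖ < r := by rwa [mem_ball, dist_eq_norm] at hx
  have h6 := mul_le_mul_of_nonneg_left h5.le hvn.le
  have h7 := mul_le_mul_of_nonneg_left hyy.le hvn.le
  linarith

theorem baire_Final (d : ℕ) : BaireSpace (SymmBody d) := by
  have := completeSpace_sym (E := Ed d)
  let f : SymmBody d → {K : ConvexBody (Ed d) // ∀ x ∈ K, -x ∈ K} := fun C => ⟨C.1, C.2.1⟩
  have hf : Isometry f := fun _ _ => rfl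
  refine Topology.IsOpenEmbedding.baireSpace (p := f) ⟨hf.isEmbedding, ?_⟩
  rw [Metric.isOpen_iff]
  rintro _ ⟨C, rfl⟩
  obtain ⟨x0, hx0⟩ := C.2.2
  obtain ⟨ε, hε, h⟩ := nhds_basis_closedBall.mem_iff.1 (mem_interior_iff_mem_nhds.1 hx0)
  refine ⟨ε / 2, half_pos hε, fun K hK => ⟨⟨K.1, K.2, x0, ?_⟩, rfl⟩⟩
  have h1 := ball_sub_Final C.1 K.1 x0 (r := ε / 2) (by rwa [mul_div_cancel₀ _ two_ne_zero])
    (half_pos hε) (by rw [dist_comm]; exact hK)
  exact mem_interior_iff_mem_nhds.2 (Filter.mem_of_superset (ball_mem_nhds x0 (half_pos hε)) h1)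

theorem spectrum (d m : ℕ) (hd : 1 ≤ d) (hlo : d * (d + 1) ≤ 2 * m) (hhi : m ≤ d ^ 2)
    (hM : m + 1 ≤ 2 ^ d) :
    ∃ U : Set (SymmBody d), IsOpen U ∧ ¬ IsMeagre U ∧ ∀ C ∈ U,
      (∃ b, IsDensestLattice (C.1 : Set (Ed d)) b) ∧ ∀ b, IsDensestLattice (C.1 : Set (Ed d)) b →
        (minimalVectors (C.1 : Set (Ed d)) b).ncard = 2 * m ∧
        IsMaximumLattice (C.1 : Set (Ed d)) b ∧
        (IsUltraMaximumLattice (C.1 : Set (Ed d)) b ↔ m = d ^ 2) := by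
  obtain ⟨U, h1, h2, h3⟩ := final_sp d m hd hlo hhi hM
  have := baire_Final d
  exact ⟨U, h1, not_isMeagre_of_isOpen h1 h2, h3⟩

end Pool.Agent.MP_02cac4_co.Sp
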