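import Pool.Agent.MP_02cac4_co.Sp.Defs
import Pool.Agent.MP_02cac4_co.Local

/-! Densest lattices of bodies near a tile: definitions and the statements of the steps. -/

set_option autoImplicit false

open Finset MeasureTheory
open scoped RealInnerProductSpace

noncomputable section

namespace Pool.Agent.MP_02cac4_co.Sp

/-- operators -/
abbrev Op (d : ℕ) := Ed d →L[ℝ] Ed d

/-- pairs of indices, one for each pair of opposite roots -/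
abbrev Rt (d : ℕ) := {p : Fin (d + 1) × Fin (d + 1) // p.1 < p.2}

section defs
variable {d : ℕ}

/-- integer points -/
def lz (z : Fin d → ℤ) : Ed d := ∑ i, (z i : ℝ) • ee i

/-- trace -/
def tr (A : Op d) : ℝ := LinearMap.trace ℝ (Ed d) (A : Ed d →ₗ[ℝ] Ed d)

/-- coordinates in the hyperplane of sum zero -/
def ext (x : Ed d) : Fin (d + 1) → ℝ := Fin.cons (-∑ i, x i) (fun i => x i)

/-- the range norm -/
def g0 (x : Ed d) : ℝ := ⨆ p : Fin (d + 1) × Fin (d + 1), (ext x p.1 - ext x p.2)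

/-- the inner product of the hyperplane -/
def bs (u x : Ed d) : ℝ := ∑ p, ext u p * ext x p

/-- norms -/
structure Nm (g : Ed d → ℝ) : Prop where
  add : ∀ x y, g (x + y) ≤ g x + g y
  smul : ∀ (c : ℝ) x, g (c • x) = |c| * g x
  low : ∃ c : ℝ, 0 < c ∧ ∀ x, c * ‖x‖ ≤ g x
  up : ∃ C : ℝ, 0 < C ∧ ∀ x, g x ≤ C * ‖x‖

/-- the minimum of the lattice `T ℤ^d` -/
def lm (g : Ed d → ℝ) (T : Op d) : ℝ := ⨅ z : {z : Fin d → ℤ // z ≠ 0}, g (T (lz z.1))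

/-- the density up to a constant -/
def FF (g : Ed d → ℝ) (T : Op d) : ℝ := lm g T ^ d / |T.det|

/-- two bases of one lattice -/
def Same (T T' : Op d) : Prop := |T.det| = |T'.det| ∧
  ∃ σ : (Fin d → ℤ) ≃ (Fin d → ℤ), σ 0 = 0 ∧ ∀ z, T (lz z) = T' (lz (σ z))

/-- close norms -/
def Near (θ : ℝ) (g g' : Ed d → ℝ) : Prop := ∀ x, (1 - θ) * g x ≤ g' x ∧ g' x ≤ (1 + θ) * g x

/-- densest lattices -/
def Best (g : Ed d → ℝ) (T : Op d) : Prop :=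
  T.det ≠ 0 ∧ ∀ T' : Op d, T'.det ≠ 0 → FF g T' ≤ FF g T

/-- minimal vectors -/
def Mn (g : Ed d → ℝ) (T : Op d) : Set (Ed d) :=
  {x | (∃ z : Fin d → ℤ, z ≠ 0 ∧ x = T (lz z)) ∧ g x = lm g T}

/-- ultra-maximum lattices -/
def Ult (g : Ed d → ℝ) (T : Op d) : Prop := ∃ c > (0 : ℝ), ∃ ε > (0 : ℝ), ∀ A : Op d, tr A = 0 →
  ‖A‖ < ε → FF g ((1 + A) * T) ≤ (1 - c * ‖A‖) * FF g T

/-- the conclusion for the norm `g` -/
def Res (g : Ed d → ℝ) (m : ℕ) : Prop :=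
  (∃ T, Best g T) ∧ ∀ T, Best g T → (Mn g T).ncard = 2 * m ∧ (Ult g T ↔ m = d ^ 2)

/-- a norm with contact points of the integer lattice -/
structure Dat (d : ℕ) (I : Type) where
  g : Ed d → ℝ
  y : I → Fin d → ℤ
  φ : I → Ed d →L[ℝ] ℝ
  lam : I → ℝ
  κ : ℝ

variable {I : Type} [Fintype I]

/-- flat facets at the contact points, eutaxy, independence -/
structure Dat.Ok (D : Dat d I) : Prop where
  nm : Nm D.g
  κ_pos : 0 < D.κ
  lin : ∀ i x, ‖x - lz (D.y i)‖ ≤ D.κ → D.g x = D.φ i x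
  two : ∀ i, D.φ i (lz (D.y i)) = 2
  far : ∀ z, z ≠ 0 → (∀ i, z ≠ D.y i ∧ z ≠ -D.y i) → 2 + D.κ ≤ D.g (lz z)
  inj : Function.Injective D.y
  nneg : ∀ i j, D.y i ≠ -D.y j
  lam_pos : ∀ i, 0 < D.lam i
  eut : ∀ A : Op d, tr A = ∑ i, D.lam i * D.φ i (A (lz (D.y i)))
  sur : ∀ t : I → ℝ, ∃ A : Op d, ∀ i, D.φ i (A (lz (D.y i))) = t i

/-- almost optimal lattices are close to the integer lattice -/
def Dat.Glob (D : Dat d I) : Prop := ∀ ρ > (0 : ℝ), ∃ θ > (0 : ℝ), ∀ T : Op d, T.det ≠ 0 →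
  (∀ z, z ≠ 0 → 2 * (1 - θ) ≤ D.g (T (lz z))) → |T.det| ≤ 1 + θ →
  ∃ T', Same T T' ∧ ‖T' - 1‖ ≤ ρ

/-- the local picture for a nearby norm and a nearby lattice -/
structure Dat.Loc (D : Dat d I) (δ : ℝ) (g : Ed d → ℝ) (T : Op d) : Prop where
  cl : ‖T - 1‖ ≤ δ
  val : ∀ i, |g (T (lz (D.y i))) - 2| ≤ δ
  mn : ∃ ε > (0 : ℝ), ∀ A : Op d, ‖A‖ ≤ ε → ∀ z, z ≠ 0 → (∀ i, z ≠ D.y i ∧ z ≠ -D.y i) →
    ∀ i, g (((1 + A) * T) (lz (D.y i))) < g (((1 + A) * T) (lz z))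
  lip : ∃ ε > (0 : ℝ), ∀ i h, ‖h‖ ≤ ε →
    |g (T (lz (D.y i)) + h) - g (T (lz (D.y i))) - D.φ i h| ≤ δ * ‖h‖

/-- unit vectors, the one with index zero vanishes -/
def ez (i : Fin (d + 1)) : Fin d → ℤ := fun k => if k.succ = i then 1 else 0

/-- roots -/
def rt (a : Rt d) : Fin d → ℤ := ez a.1.1 - ez a.1.2

/-- indicator of a point -/
def sg (i p : Fin (d + 1)) : ℝ := if p = i then 1 else 0

/-- a positive form whose inverse is a positive combination of squares of roots -/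
structure Met (l : Rt d → ℝ) (G : Op d) : Prop where
  lo : ∀ a, 1 / (2 * ((d : ℝ) + 1)) ≤ l a
  hi : ∀ a, l a ≤ 1
  sym : ∀ x y, ⟪G x, y⟫ = ⟪x, G y⟫
  inv : ∀ x, ∑ a, (l a * ⟪lz (rt a), G x⟫) • lz (rt a) = x
  pos : ∀ x, ‖x‖ ^ 2 / 2 ≤ ⟪G x, x⟫
  bd : ‖G‖ ≤ d + 2

/-- a family of four-point sets with a tilt -/
structure Fam (d : ℕ) (J : Type) where
  q : J → Fin 4 → Fin (d + 1)
  α : J → ℝ
  β : J → ℝ

variable {J : Type}

/-- the lattice vector, in hyperplane coordinates -/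
def Fam.Y (F : Fam d J) (t : J) (p : Fin (d + 1)) : ℝ :=
  sg (F.q t 0) p + sg (F.q t 1) p - sg (F.q t 2) p - sg (F.q t 3) p

/-- the normal, in hyperplane coordinates -/
def Fam.V (F : Fam d J) (t : J) (p : Fin (d + 1)) : ℝ :=
  F.Y t p + F.α t * (sg (F.q t 0) p - sg (F.q t 1) p) + F.β t * (sg (F.q t 2) p - sg (F.q t 3) p)

/-- the lattice vector -/
def Fam.yz (F : Fam d J) (t : J) : Fin d → ℤ :=
  ez (F.q t 0) - ez (F.q t 2) + (ez (F.q t 1) - ez (F.q t 3))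

/-- the normal -/
def Fam.vv (F : Fam d J) (t : J) : Ed d := lz (F.yz t) +
  F.α t • lz (ez (F.q t 0) - ez (F.q t 1)) + F.β t • lz (ez (F.q t 2) - ez (F.q t 3))

/-- contact points -/
def Fam.yy (F : Fam d J) : Rt d ⊕ J → Fin d → ℤ := Sum.elim rt F.yz

/-- normals -/
def Fam.uu (F : Fam d J) : Rt d ⊕ J → Ed d := Sum.elim (fun a => lz (rt a)) F.vv

/-- the denominators -/
def Fam.den (F : Fam d J) (G : Op d) (i : Rt d ⊕ J) : ℝ := ⟪F.uu i, G (lz (F.yy i))⟫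

/-- the facet functionals -/
def Fam.ph (F : Fam d J) (G : Op d) (i : Rt d ⊕ J) : Ed d →L[ℝ] ℝ :=
  (2 / F.den G i) • (innerSL ℝ (F.uu i)).comp G

/-- `G` is close to the inner product of the hyperplane -/
def Cl (G : Op d) (η : ℝ) : Prop := ∀ u x, |⟪u, G x⟫ - bs u x| ≤ η * (‖u‖ * ‖x‖)

/-- the four-point vectors lie inside the facets of the roots below them -/
def Fam.Tight (F : Fam d J) (G : Op d) (μ : ℝ) : Prop := ∀ t (a : Rt d),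
  (a.1.1 = F.q t 0 ∨ a.1.1 = F.q t 1) → (a.1.2 = F.q t 2 ∨ a.1.2 = F.q t 3) →
    ⟪lz (rt a), G (lz (F.yz t) - lz (rt a))⟫ ≤ -μ

open Classical in
/-- the lattice points that are cut off -/
def Fam.cuts (F : Fam d J) : Finset (Fin d → ℤ) :=
  (Fintype.piFinset fun _ => Finset.Icc (-1 : ℤ) 1).filter fun z =>
    (∀ p, |ext (lz z) p| ≤ 1) ∧ 4 ≤ bs (lz z) (lz z) ∧ ∀ t, z ≠ F.yz t ∧ z ≠ -F.yz t

/-- all the functionals -/
def Fam.ps (F : Fam d J) (G : Op d) (κ : ℝ) (x : Ed d) : (Rt d ⊕ J) ⊕ F.cuts → ℝ :=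
  Sum.elim (fun i => F.ph G i x) (fun z => 2 * (1 + κ) * bs (lz z.1) x / bs (lz z.1) (lz z.1))

variable [Fintype J]

/-- the perturbed norm -/
def Fam.g1 (F : Fam d J) (G : Op d) (κ : ℝ) (x : Ed d) : ℝ := ‖F.ps G κ x‖

/-- distinct sets, small tilts, independent skew parts -/
structure Fam.Ok (F : Fam d J) : Prop where
  mono : ∀ t, StrictMono (F.q t)
  inj : Function.Injective F.q
  ha : ∀ t, |F.α t| ≤ 1 / 2
  hb : ∀ t, |F.β t| ≤ 1 / 2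
  ind : ∀ c : J → ℝ,
    (∀ p p', ∑ t, c t * (F.Y t p * F.V t p' - F.V t p * F.Y t p') = 0) → c = 0

/-- the data are a small perturbation of the range norm -/
structure Dat.Con (D : Dat d (Rt d ⊕ J)) (η r0 ν : ℝ) : Prop where
  up : ∀ x, D.g x ≤ (1 + η) * g0 x
  yR : ∀ a, D.y (Sum.inl a) = rt a
  yn : ∀ i, ‖lz (D.y i)‖ ≤ 2
  linR : ∀ a x, ‖x - lz (rt a)‖ ≤ r0 → D.g x = D.φ (Sum.inl a) x
  met : ∃ l G, Met l G ∧ ∀ a, ∃ c : ℝ, 0 ≤ c ∧ c ≤ 3 ∧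
    ∀ x, |⟪G (lz (rt a)), x⟫ - c * D.φ (Sum.inl a) x| ≤ ν * ‖x‖

/-! ### Basic facts -/

theorem lz_apply (z : Fin d → ℤ) (k : Fin d) : lz z k = z k := by
  simp [lz, ee, Finset.sum_apply, Pi.single_apply]

theorem lz_add (z w : Fin d → ℤ) : lz (z + w) = lz z + lz w := by ext k; simp [lz_apply]

theorem lz_neg (z : Fin d → ℤ) : lz (-z) = -lz z := by ext k; simp [lz_apply]

theorem lz_sub (z w : Fin d → ℤ) : lz (z - w) = lz z - lz w := by ext k; simp [lz_apply]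

theorem lz_zero : lz (0 : Fin d → ℤ) = 0 := by ext k; simp [lz_apply]

theorem lz_inj : Function.Injective (lz (d := d)) := fun z w h => funext fun k => by
  have := congrArg (fun x : Ed d => x k) h
  simpa [lz_apply] using this

theorem one_le_lz {z : Fin d → ℤ} (hz : z ≠ 0) : 1 ≤ ‖lz z‖ := by
  obtain ⟨k, hk⟩ := Function.ne_iff.1 hz
  refine le_trans ?_ (PiLp.norm_apply_le (lz z) k)
  rw [lz_apply, Real.norm_eq_abs]
  exact_mod_cast Int.one_le_abs hk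

theorem ext_zero (x : Ed d) : ext x 0 = -∑ i, x i := rfl

theorem ext_succ (x : Ed d) (i : Fin d) : ext x i.succ = x i := rfl

theorem ext_add (x y : Ed d) (p : Fin (d + 1)) : ext (x + y) p = ext x p + ext y p := by
  refine Fin.cases ?_ (fun i => rfl) p
  simp only [ext_zero, PiLp.add_apply, sum_add_distrib]; ring

theorem ext_smul (c : ℝ) (x : Ed d) (p : Fin (d + 1)) : ext (c • x) p = c * ext x p := by
  refine Fin.cases ?_ (fun i => rfl) p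
  simp only [ext_zero, PiLp.smul_apply, smul_eq_mul, ← mul_sum]; ring

theorem ext_neg (x : Ed d) (p : Fin (d + 1)) : ext (-x) p = -ext x p := by
  rw [← neg_one_smul ℝ x, ext_smul]; ring

theorem ext_sub (x y : Ed d) (p : Fin (d + 1)) : ext (x - y) p = ext x p - ext y p := by
  rw [sub_eq_add_neg, ext_add, ext_neg]; ring

theorem sum_ext (x : Ed d) : ∑ p, ext x p = 0 := by
  rw [Fin.sum_univ_succ, ext_zero]; simp only [ext_succ]; ring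

theorem ext_int (z : Fin d → ℤ) (p : Fin (d + 1)) : ∃ k : ℤ, ext (lz z) p = k := by
  refine Fin.cases ⟨-∑ i, z i, ?_⟩ (fun i => ⟨z i, lz_apply z i⟩) p
  simp [ext_zero, lz_apply]

theorem ext_ez (i j p : Fin (d + 1)) : ext (lz (ez i - ez j)) p = sg i p - sg j p := by
  have h : ∀ i : Fin (d + 1), ∑ k : Fin d, ((ez i k : ℤ) : ℝ) = 1 - sg i 0 := fun i => by
    refine Fin.cases ?_ (fun k => ?_) i
    · simp [ez, sg]
    · simp [ez, sg, (Fin.succ_ne_zero k).symm]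
  refine Fin.cases ?_ (fun k => ?_) p
  · simp only [ext_zero, lz_apply, Pi.sub_apply, Int.cast_sub, sum_sub_distrib, h]; ring
  · simp [ext_succ, lz_apply, ez, sg]

theorem ext_rt (a : Rt d) (p : Fin (d + 1)) : ext (lz (rt a)) p = sg a.1.1 p - sg a.1.2 p :=
  ext_ez _ _ p

omit [Fintype J] in
theorem Fam.ext_yz (F : Fam d J) (t : J) (p : Fin (d + 1)) : ext (lz (F.yz t)) p = F.Y t p := by
  rw [Fam.yz, lz_add, ext_add, ext_ez, ext_ez, Fam.Y]; ring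

omit [Fintype J] in
theorem Fam.ext_vv (F : Fam d J) (t : J) (p : Fin (d + 1)) : ext (F.vv t) p = F.V t p := by
  rw [Fam.vv, ext_add, ext_add, ext_smul, ext_smul, ext_ez, ext_ez, F.ext_yz, Fam.V]

theorem sum_sg (i : Fin (d + 1)) (f : Fin (d + 1) → ℝ) : ∑ p, sg i p * f p = f i := by
  simp [sg]

theorem bs_ez (i j : Fin (d + 1)) (x : Ed d) : bs (lz (ez i - ez j)) x = ext x i - ext x j := by
  simp only [bs, ext_ez, sub_mul, sum_sub_distrib, sum_sg]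

theorem bs_rt (a : Rt d) (x : Ed d) : bs (lz (rt a)) x = ext x a.1.1 - ext x a.1.2 := bs_ez _ _ x

omit [Fintype J] in
theorem Fam.bs_yz (F : Fam d J) (t : J) (x : Ed d) : bs (lz (F.yz t)) x =
    ext x (F.q t 0) + ext x (F.q t 1) - ext x (F.q t 2) - ext x (F.q t 3) := by
  simp only [bs, F.ext_yz, Fam.Y, sub_mul, add_mul, sum_sub_distrib, sum_add_distrib, sum_sg]

omit [Fintype J] in
theorem Fam.bs_vv (F : Fam d J) (t : J) (x : Ed d) : bs (F.vv t) x =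
    (1 + F.α t) * ext x (F.q t 0) + (1 - F.α t) * ext x (F.q t 1) -
      (1 - F.β t) * ext x (F.q t 2) - (1 + F.β t) * ext x (F.q t 3) := by
  simp only [bs, F.ext_vv, Fam.V, Fam.Y, sub_mul, add_mul, mul_assoc, sum_sub_distrib,
    sum_add_distrib, ← mul_sum, sum_sg]
  ring

theorem bs_comm (u x : Ed d) : bs u x = bs x u := by simp only [bs, mul_comm]

theorem tr_sum {ι : Type} [Fintype ι] (u w : ι → Ed d) (A B : Op d)
    (h : ∀ x, A x = ∑ i, ⟪u i, B x⟫ • w i) : tr A = ∑ i, ⟪u i, B (w i)⟫ := by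
  have e : (A : Ed d →ₗ[ℝ] Ed d) =
      ∑ i, (((innerSL ℝ (u i)).comp B : Ed d →L[ℝ] ℝ) : Ed d →ₗ[ℝ] ℝ).smulRight (w i) := by
    ext1 x
    simpa [LinearMap.sum_apply] using h x
  rw [tr, e, map_sum]
  exact sum_congr rfl fun i _ => by rw [LinearMap.trace_smulRight]; rfl

theorem norm_sq_le_bs (x : Ed d) : ‖x‖ ^ 2 ≤ bs x x := by
  rw [bs, Fin.sum_univ_succ, EuclideanSpace.real_norm_sq_eq]
  simp only [ext_succ, sq]
  linarith [mul_self_nonneg (ext x 0)]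

theorem le_g0 (x : Ed d) (i j : Fin (d + 1)) : ext x i - ext x j ≤ g0 x :=
  le_ciSup (f := fun p : Fin (d + 1) × Fin (d + 1) => ext x p.1 - ext x p.2)
    (Set.finite_range _).bddAbove (i, j)

theorem g0_le {x : Ed d} {t : ℝ} (h : ∀ i j, ext x i - ext x j ≤ t) : g0 x ≤ t :=
  ciSup_le fun p => h p.1 p.2

theorem ex_g0 (x : Ed d) : ∃ i j, g0 x = ext x i - ext x j := by
  obtain ⟨p, hp⟩ := exists_eq_ciSup_of_finite
    (f := fun p : Fin (d + 1) × Fin (d + 1) => ext x p.1 - ext x p.2)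
  exact ⟨p.1, p.2, hp.symm⟩

theorem abs_ext_le (x : Ed d) (i : Fin (d + 1)) : |ext x i| ≤ g0 x := by
  have h0 := sum_ext x
  have h1 : ∃ j, ext x j ≤ 0 := by
    by_contra h
    push Not at h
    exact (sum_pos (fun j _ => h j) univ_nonempty).ne' h0
  have h2 : ∃ j, 0 ≤ ext x j := by
    by_contra h
    push Not at h
    exact (sum_neg (fun j _ => h j) univ_nonempty).ne h0
  obtain ⟨j, hj⟩ := h1
  obtain ⟨k, hk⟩ := h2
  exact abs_le.2 ⟨by linarith [le_g0 x k i], by linarith [le_g0 x i j]⟩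

theorem norm_le_g0 (x : Ed d) : ‖x‖ ≤ d * g0 x := by
  conv_lhs => rw [← sum_ee x]
  refine (norm_sum_le _ _).trans ?_
  refine (sum_le_sum (g := fun _ => g0 x) fun i _ => ?_).trans (by simp)
  rw [norm_smul, ee, PiLp.norm_single, norm_one, mul_one]
  exact abs_ext_le x i.succ

theorem abs_ext_le_norm (x : Ed d) (p : Fin (d + 1)) : |ext x p| ≤ (d + 1) * ‖x‖ := by
  have h : ∀ i, |x i| ≤ ‖x‖ := fun i => PiLp.norm_apply_le x i
  have h0 := norm_nonneg x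
  have hd : (0 : ℝ) ≤ d * ‖x‖ := by positivity
  refine Fin.cases ?_ (fun i => (h i).trans (by linarith)) p
  rw [ext_zero, abs_neg]
  refine (abs_sum_le_sum_abs _ _).trans ((sum_le_sum fun i _ => h i).trans ?_)
  simp only [sum_const, card_univ, Fintype.card_fin, nsmul_eq_mul]
  linarith

theorem g0_le_norm (x : Ed d) : g0 x ≤ 2 * (d + 1) * ‖x‖ := g0_le fun i j => by
  linarith [(abs_le.1 (abs_ext_le_norm x i)).2, (abs_le.1 (abs_ext_le_norm x j)).1]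

theorem g0_neg (x : Ed d) : g0 (-x) = g0 x := by
  have h : ∀ x : Ed d, g0 (-x) ≤ g0 x := fun x => g0_le fun i j => by
    rw [ext_neg, ext_neg]; linarith [le_g0 x j i]
  exact le_antisymm (h x) (by simpa using h (-x))

theorem nm_g0 : Nm (g0 (d := d)) := by
  have hp : ∀ (c : ℝ) (x : Ed d), 0 ≤ c → g0 (c • x) = c * g0 x := fun c x hc => by
    refine le_antisymm (g0_le fun i j => ?_) ?_
    · rw [ext_smul, ext_smul, ← mul_sub]; exact mul_le_mul_of_nonneg_left (le_g0 x i j) hc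
    · obtain ⟨i, j, h⟩ := ex_g0 x
      rw [h, mul_sub, ← ext_smul, ← ext_smul]; exact le_g0 _ i j
  refine ⟨fun x y => g0_le fun i j => ?_, fun c x => ?_, ⟨1 / (d + 1), by positivity, fun x => ?_⟩,
    2 * (d + 1), by positivity, g0_le_norm⟩
  · rw [ext_add, ext_add]; linarith [le_g0 x i j, le_g0 y i j]
  · rcases le_total 0 c with h | h
    · rw [hp c x h, abs_of_nonneg h]
    · rw [← g0_neg, ← neg_smul, hp _ x (neg_nonneg.2 h), abs_of_nonpos h]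
  · have := norm_le_g0 x
    have h0 : 0 ≤ g0 x := (abs_nonneg _).trans (abs_ext_le x 0)
    rw [div_mul_eq_mul_div, one_mul, div_le_iff₀ (by positivity)]
    linarith

theorem ex_ext (f : Fin (d + 1) → ℝ) : ∃ (x : Ed d) (c : ℝ), ∀ p, ext x p = f p + c := by
  refine ⟨WithLp.toLp 2 fun i => f i.succ - (∑ p, f p) / (d + 1), -((∑ p, f p) / (d + 1)),
    fun p => Fin.cases ?_ (fun i => by rw [ext_succ]; ring) p⟩
  rw [ext_zero]
  simp only [sum_sub_distrib, sum_const, card_univ, Fintype.card_fin, nsmul_eq_mul]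
  rw [Fin.sum_univ_succ]
  field_simp
  ring

theorem Nm.nonneg {g : Ed d → ℝ} (h : Nm g) (x : Ed d) : 0 ≤ g x := by
  obtain ⟨c, hc, h⟩ := h.low
  exact le_trans (by positivity) (h x)

theorem Nm.neg {g : Ed d → ℝ} (h : Nm g) (x : Ed d) : g (-x) = g x := by
  rw [← neg_one_smul ℝ x, h.smul]; simp

theorem Nm.zero {g : Ed d → ℝ} (h : Nm g) : g 0 = 0 := by
  have := h.smul 0 0
  simpa using this

theorem Nm.cont {g : Ed d → ℝ} (h : Nm g) : Continuous g := by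
  obtain ⟨C, hC, h1⟩ := h.up
  refine (LipschitzWith.of_le_add_mul ⟨C, hC.le⟩ fun x y => ?_).continuous
  have := h.add y (x - y)
  rw [add_sub_cancel] at this
  exact this.trans (by rw [dist_eq_norm]; exact add_le_add_right (h1 _) _)

theorem Near.mono {g g' : Ed d → ℝ} (h : Nm g) {θ θ' : ℝ} (hθ : θ ≤ θ') (hn : Near θ g g') :
    Near θ' g g' := fun x =>
  ⟨le_trans (mul_le_mul_of_nonneg_right (by linarith) (h.nonneg x)) (hn x).1,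
    (hn x).2.trans (mul_le_mul_of_nonneg_right (by linarith) (h.nonneg x))⟩

theorem lm_nonneg {g : Ed d → ℝ} (h : Nm g) (T : Op d) : 0 ≤ lm g T :=
  Real.iInf_nonneg fun _ => h.nonneg _

theorem lm_le {g : Ed d → ℝ} (h : Nm g) (T : Op d) {z : Fin d → ℤ} (hz : z ≠ 0) :
    lm g T ≤ g (T (lz z)) :=
  ciInf_le (f := fun z : {z : Fin d → ℤ // z ≠ 0} => g (T (lz z.1)))
    ⟨0, by rintro _ ⟨z, rfl⟩; exact h.nonneg _⟩ ⟨z, hz⟩

theorem Dat.Ok.ne {D : Dat d I} (h : D.Ok) (i : I) : D.y i ≠ 0 := fun e =>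
  h.nneg i i (by rw [e, neg_zero])

theorem tr_one : tr (1 : Op d) = d := by
  have := LinearMap.trace_one ℝ (Ed d)
  rw [finrank_euclideanSpace_fin] at this
  exact this

theorem Dat.Ok.nonempty {D : Dat d I} (h : D.Ok) (hd : 1 ≤ d) : Nonempty I := by
  by_contra hn
  rw [not_nonempty_iff] at hn
  have := h.eut 1
  rw [tr_one, univ_eq_empty, sum_empty] at this
  have h1 : (1 : ℝ) ≤ d := by exact_mod_cast hd
  linarith

/-- the minimum is attained at a contact point -/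
theorem Dat.Ok.lm_eq {D : Dat d I} (h : D.Ok) (hd : 1 ≤ d) {g : Ed d → ℝ} (hg : Nm g) {T : Op d}
    (hT : ∀ z, z ≠ 0 → (∀ i, z ≠ D.y i ∧ z ≠ -D.y i) → ∀ i, g (T (lz (D.y i))) < g (T (lz z))) :
    ∃ i, lm g T = g (T (lz (D.y i))) := by
  have := h.nonempty hd
  obtain ⟨i, -, hi⟩ := exists_min_image univ (fun i => g (T (lz (D.y i)))) univ_nonempty
  have : Nonempty {z : Fin d → ℤ // z ≠ 0} := ⟨⟨_, h.ne i⟩⟩
  refine ⟨i, le_antisymm (lm_le hg T (h.ne i)) (le_ciInf fun z => ?_)⟩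
  by_cases hz : ∀ i, z.1 ≠ D.y i ∧ z.1 ≠ -D.y i
  · exact (hT z.1 z.2 hz i).le
  · push Not at hz
    obtain ⟨j, hj⟩ := hz
    by_cases e : z.1 = D.y j
    · rw [e]; exact hi j (mem_univ j)
    · rw [hj e, lz_neg, map_neg, hg.neg]; exact hi j (mem_univ j)

end defs

/-! ### Statements -/

section st
variable (d : ℕ)

/-- second order bound for the determinant -/
def SDet : Prop := ∃ K : ℝ, 0 < K ∧ ∀ X : Op d, ‖X‖ ≤ 1 →
  |(1 + X).det - 1 - tr X| ≤ K * ‖X‖ ^ 2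

/-- the unit ball of the range norm has volume at least one -/
def SVol : Prop := 1 ≤ volume {x : Ed d | g0 x < 1}

/-- dense packings are almost coverings -/
def SCov : Prop := ∀ (T : Op d) (η r : ℝ), T.det ≠ 0 → 0 ≤ η → 0 < r → r ≤ 1 - η →
  (∀ z, z ≠ 0 → 2 * (1 - η) ≤ g0 (T (lz z))) →
  (1 - η) ^ d ≤ |T.det| ∧
    (|T.det| < (1 - η) ^ d + r ^ d → ∀ p, ∃ z, g0 (p - T (lz z)) ≤ 1 + r)

/-- rigidity of the neighbours across facets -/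
def SRidge : Prop := ∀ (L : AddSubgroup (Ed d)) (η r : ℝ), 0 ≤ η → 0 < r → 40 * (r + η) ≤ 1 →
  (∀ l ∈ L, l ≠ 0 → 2 * (1 - η) ≤ g0 l) → (∀ p, ∃ l ∈ L, g0 (p - l) ≤ 1 + r) →
  ∀ i : Fin d, ∃ l ∈ L, g0 (l - ee i) ≤ 30 * (r + η)

/-- stability of the tiling lattice -/
def SRig : Prop := ∀ ρ > (0 : ℝ), ∃ η > (0 : ℝ), ∀ T : Op d, T.det ≠ 0 →
  (∀ z, z ≠ 0 → 2 * (1 - η) ≤ g0 (T (lz z))) → |T.det| ≤ 1 + η →
  ∃ T', Same T T' ∧ ‖T' - 1‖ ≤ ρ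

/-- the roots determine forms and operators -/
def SForm : Prop := ∃ C : ℝ, 0 < C ∧ (Fintype.card (Rt d) : ℝ) ≤ C ∧
  (∀ (Y : Op d) (s : ℝ), 0 ≤ s → (∀ x y, ⟪Y x, y⟫ = ⟪x, Y y⟫) →
    (∀ a, |⟪lz (rt a), Y (lz (rt a))⟫| ≤ s) → ‖Y‖ ≤ C * s) ∧
  (∀ A : Op d, ‖A‖ ^ 2 ≤ C * ∑ a, ‖A (lz (rt a))‖ ^ 2) ∧ ∀ a : Rt d, ‖lz (rt a)‖ ≤ 2

/-- quadratic growth of the determinant -/
def SLoc : Prop := ∃ ρ0 K : ℝ, 0 < ρ0 ∧ 0 < K ∧ ∀ (l : Rt d → ℝ) (G : Op d), Met l G →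
  ∀ (A : Op d) (ζ D : ℝ), ‖A‖ ≤ ρ0 → 0 ≤ ζ → 0 ≤ D →
    (∀ a, -ζ ≤ ⟪G (lz (rt a)), A (lz (rt a))⟫) → (1 + A).det ^ 2 ≤ 1 + D →
    ‖A‖ ^ 2 ≤ K * (ζ + D + ζ ^ 2) ∧
      ∀ s : ℝ, 0 ≤ s → -s ≤ tr A → ‖A‖ ^ 2 ≤ K * (s + D + ζ ^ 2)

/-- independent families of every admissible size -/
def SFam : Prop := ∀ k : ℕ, 2 * k + d ≤ d ^ 2 → d * (d + 1) + 2 * k + 2 ≤ 2 ^ (d + 1) →
  ∃ F : Fam d (Fin k), F.Ok

/-- the choice of the forms -/
def SPar : Prop := ∀ (J : Type) [Fintype J] (F : Fam d J), F.Ok → ∀ η > (0 : ℝ),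
  ∃ (l : Rt d → ℝ) (G0 : Op d) (μ : ℝ), 0 < μ ∧ Met l G0 ∧ Cl G0 η ∧ F.Tight G0 μ ∧
    ∀ ν > (0 : ℝ), ∃ τ > (0 : ℝ), ∃ G : Op d, ‖G - G0‖ ≤ ν ∧ ∀ x,
      ∑ a, (l a * ⟪lz (rt a), G x⟫) • lz (rt a) + ∑ t, (τ * ⟪F.vv t, G x⟫) • lz (F.yz t) = x

/-- independence of the rank one forms -/
def SInd : Prop := ∀ (J : Type) [Fintype J] (F : Fam d J), F.Ok → ∀ t : Rt d ⊕ J → ℝ,
  ∃ Z : Op d, ∀ i, ⟪F.uu i, Z (lz (F.yy i))⟫ = t i

/-- the facet functionals are close to the unperturbed ones -/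
def SPh : Prop := ∃ C : ℝ, 0 < C ∧ ∀ (J : Type) [Fintype J] (F : Fam d J), F.Ok →
  ∀ (G : Op d) (η : ℝ), 0 ≤ η → η ≤ 1 / 12 → Cl G η →
    (∀ i, (‖lz (F.yy i)‖ ≤ 2 ∧ ‖F.uu i‖ ≤ 3) ∧ 1 ≤ F.den G i ∧ F.den G i ≤ 5) ∧
    (∀ a x, |F.ph G (Sum.inl a) x - bs (lz (rt a)) x| ≤ C * η * ‖x‖) ∧
    ∀ t x, |F.ph G (Sum.inr t) x - bs (F.vv t) x / 2| ≤ C * η * ‖x‖

/-- the perturbed norm, the denominators -/
def SNa : Prop := ∃ η1 C : ℝ, 0 < η1 ∧ 0 < C ∧ ∀ (J : Type) [Fintype J] (F : Fam d J), F.Ok →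
  ∀ (G : Op d) (η κ : ℝ), 0 < κ → κ ≤ η → η ≤ η1 → Cl G η →
    Nm (F.g1 G κ) ∧ (∀ x, F.g1 G κ x ≤ (1 + C * η) * g0 x) ∧
    (∀ x, (1 - C * η) * g0 x ≤ F.g1 G κ x) ∧ (∀ i, 1 ≤ F.den G i ∧ F.den G i ≤ 5) ∧
    ∀ i, ‖lz (F.yy i)‖ ≤ 2 ∧ ‖F.uu i‖ ≤ 3

/-- the other functionals at a root -/
def SNr : Prop := ∃ η1 : ℝ, 0 < η1 ∧ ∀ (J : Type) [Fintype J] (F : Fam d J), F.Ok →
  ∀ (G : Op d) (η κ : ℝ), 0 < κ → κ ≤ η → η ≤ η1 → Cl G η →
    ∀ a k, k ≠ Sum.inl (Sum.inl a) → |F.ps G κ (lz (rt a)) k| ≤ 15 / 8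

/-- the other functionals at a four-point vector -/
def SNt : Prop := ∃ η1 : ℝ, 0 < η1 ∧ ∀ (J : Type) [Fintype J] (F : Fam d J), F.Ok →
  ∀ (G : Op d) (η κ μ : ℝ), 0 < κ → κ ≤ η → η ≤ η1 → Cl G η → 0 < μ → μ ≤ 1 → F.Tight G μ →
    ∀ t k, k ≠ Sum.inl (Sum.inr t) → |F.ps G κ (lz (F.yz t)) k| ≤ 2 - μ / 8

/-- the other lattice points -/
def SNc : Prop := ∀ (J : Type) [Fintype J] (F : Fam d J), F.Ok →
  Function.Injective F.yy ∧ (∀ i j, F.yy i ≠ -F.yy j) ∧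
  ∀ z, z ≠ 0 → (∀ i, z ≠ F.yy i ∧ z ≠ -F.yy i) → 3 ≤ g0 (lz z) ∨ z ∈ F.cuts

/-- the configuration -/
def SCfg : Prop := ∃ r0 : ℝ, 0 < r0 ∧ ∀ (J : Type) [Fintype J] (F : Fam d J), F.Ok →
  ∀ η > (0 : ℝ), ∀ K > (0 : ℝ), ∃ (D : Dat d (Rt d ⊕ J)) (ν : ℝ), D.Ok ∧ D.Con η r0 ν ∧ 0 ≤ ν ∧
    K * ν ≤ D.κ ∧ K * ν ≤ 1

/-- global strictness -/
def SGlob : Prop := ∀ r0 > (0 : ℝ), ∃ η > (0 : ℝ), ∃ K > (0 : ℝ), ∀ (J : Type) [Fintype J]
  (D : Dat d (Rt d ⊕ J)) (ν : ℝ), D.Ok → D.Con η r0 ν → 0 ≤ ν → K * ν ≤ D.κ → K * ν ≤ 1 → D.Glob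

/-- the local picture -/
def SA1 : Prop := ∀ (I : Type) [Fintype I] (D : Dat d I), D.Ok → ∀ δ > (0 : ℝ),
  ∃ ρ > (0 : ℝ), ∃ θ > (0 : ℝ), ∀ g, Nm g → Near θ D.g g → ∀ T : Op d, ‖T - 1‖ ≤ ρ → D.Loc δ g T

/-- invariance under change of basis and scaling -/
def SInv : Prop := ∀ (g : Ed d → ℝ), Nm g → ∀ (c : ℝ) (T T' : Op d), 0 < c → Same (c • T) T' →
  lm g T' = c * lm g T ∧ FF g T' = FF g T ∧ (Best g T → Best g T') ∧
    (Mn g T).ncard = (Mn g T').ncard ∧ (Ult g T ↔ Ult g T')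

/-- existence and location of the densest lattices -/
def SA2 : Prop := ∀ (I : Type) [Fintype I] (D : Dat d I), D.Ok → D.Glob → ∀ ρ > (0 : ℝ),
  ∃ θ > (0 : ℝ), ∀ g, Nm g → Near θ D.g g → (∃ T, Best g T) ∧
    ∀ T, Best g T → ∃ c > (0 : ℝ), ∃ T', Same (c • T) T' ∧ ‖T' - 1‖ ≤ ρ

/-- all contact points are minimal -/
def SA3 : Prop := ∀ (I : Type) [Fintype I] (D : Dat d I), D.Ok → ∃ δ > (0 : ℝ),
  ∀ δ' ≤ δ, ∀ g T, Nm g → D.Loc δ' g T → Best g T →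
    (∀ i, g (T (lz (D.y i))) = lm g T) ∧ (Mn g T).ncard = 2 * Fintype.card I

/-- ultra-maximum when there are enough contact points -/
def SA4 : Prop := ∀ (I : Type) [Fintype I] (D : Dat d I), D.Ok → Fintype.card I = d ^ 2 →
  ∃ δ > (0 : ℝ), ∀ δ' ≤ δ, ∀ g T, Nm g → D.Loc δ' g T → T.det ≠ 0 →
    (∀ i, g (T (lz (D.y i))) = lm g T) → Ult g T

/-- not ultra-maximum otherwise -/
def SA5 : Prop := ∀ (I : Type) [Fintype I] (D : Dat d I), D.Ok → Fintype.card I < d ^ 2 →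
  ∀ δ ≤ (1 : ℝ), ∀ g T, Nm g → D.Loc δ g T → T.det ≠ 0 → ¬ Ult g T

/-- bodies near the unit ball of a norm -/
def SHau : Prop := ∀ (g1 : Ed d → ℝ) (θ : ℝ), Nm g1 → 0 < θ →
  ∃ U : Set (SymmBody d), IsOpen U ∧ U.Nonempty ∧ ∀ C ∈ U,
    Nm (gauge (C.1 : Set (Ed d))) ∧ Near θ g1 (gauge (C.1 : Set (Ed d)))

/-- from operators to bases -/
def SDic : Prop := ∀ (C : SymmBody d) (m : ℕ), Res (gauge (C.1 : Set (Ed d))) m →
  (∃ b, IsDensestLattice (C.1 : Set (Ed d)) b) ∧ ∀ b, IsDensestLattice (C.1 : Set (Ed d)) b →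
    (minimalVectors (C.1 : Set (Ed d)) b).ncard = 2 * m ∧
    IsMaximumLattice (C.1 : Set (Ed d)) b ∧
    (IsUltraMaximumLattice (C.1 : Set (Ed d)) b ↔ m = d ^ 2)

end st

end Pool.Agent.MP_02cac4_co.Sp
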