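import Pool.Agent.MP_02cac4_co.Sp.Defs

set_option autoImplicit false

namespace Pool.Agent.MP_02cac4_co

/-- `C` has a densest lattice, and every densest lattice of `C` has exactly `2m` minimal vectors,
is maximum, and is ultra-maximum if and only if `m = d^2`. -/
def DensestOfType {d : ℕ} (C : Set (EuclideanSpace ℝ (Fin d))) (m : ℕ) : Prop :=
  (∃ b : Fin d → EuclideanSpace ℝ (Fin d), IsDensestLattice C b) ∧
    ∀ b : Fin d → EuclideanSpace ℝ (Fin d), IsDensestLattice C b →
      (minimalVectors C b).ncard = 2 * m ∧ IsMaximumLattice C b ∧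
        (IsUltraMaximumLattice C b ↔ m = d ^ 2)

end Pool.Agent.MP_02cac4_co
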